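import Mathlib

set_option autoImplicit false
set_option linter.unusedSectionVars false

namespace Pool.Agent.Lib.MPde6cd8

section Chains

variable {α : Type} [DecidableEq α]

/-- a chain of nonempty subsets of `X`. -/
structure CH (X : Finset α) (C : Finset (Finset α)) : Prop where
  ne : ∀ S ∈ C, S.Nonempty
  sub : ∀ S ∈ C, S ⊆ X
  tot : ∀ S ∈ C, ∀ S' ∈ C, S ⊆ S' ∨ S' ⊆ S

variable {X : Finset α} {C : Finset (Finset α)}

theorem CH.card_inj (h : CH X C) {S S' : Finset α} (hS : S ∈ C) (hS' : S' ∈ C)
    (hc : S.card = S'.card) : S = S' := by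
  rcases h.tot S hS S' hS' with h1 | h1
  · exact Finset.eq_of_subset_of_card_le h1 hc.ge
  · exact (Finset.eq_of_subset_of_card_le h1 hc.le).symm

theorem CH.sub_of_card (h : CH X C) {S S' : Finset α} (hS : S ∈ C) (hS' : S' ∈ C)
    (hc : S.card ≤ S'.card) : S ⊆ S' := by
  rcases h.tot S hS S' hS' with h1 | h1
  · exact h1
  · have : S' = S := Finset.eq_of_subset_of_card_le h1 hc
    rw [this]

theorem CH.card_image (h : CH X C) : (C.image Finset.card).card = C.card :=
  Finset.card_image_of_injOn fun _ hS _ hS' hc => h.card_inj hS hS' hc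

theorem CH.image_sub (h : CH X C) : C.image Finset.card ⊆ Finset.Icc 1 X.card := by
  intro j hj
  obtain ⟨S, hS, rfl⟩ := Finset.mem_image.mp hj
  rw [Finset.mem_Icc]
  exact ⟨Finset.card_pos.mpr (h.ne S hS), Finset.card_le_card (h.sub S hS)⟩

theorem CH.card_le (h : CH X C) : C.card ≤ X.card := by
  rw [← h.card_image]
  have := Finset.card_le_card h.image_sub
  rwa [Nat.card_Icc, Nat.add_sub_cancel] at this

theorem CH.mono (h : CH X C) {C' : Finset (Finset α)} (hC : C' ⊆ C) : CH X C' :=
  ⟨fun S hS => h.ne S (hC hS), fun S hS => h.sub S (hC hS),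
    fun S hS S' hS' => h.tot S (hC hS) S' (hC hS')⟩

/-- the lower neighbour of a missing cardinality. -/
theorem CH.lower (h : CH X C) (j : ℕ) : ∃ L : Finset α, (L = ∅ ∨ L ∈ C) ∧ (L.card < j ∨ L = ∅) ∧
    ∀ S ∈ C, S.card < j → S ⊆ L := by
  by_cases hne : (C.filter (fun S => S.card < j)).Nonempty
  · obtain ⟨L, hL, hmax⟩ := Finset.exists_max_image _ Finset.card hne
    rw [Finset.mem_filter] at hL
    refine ⟨L, Or.inr hL.1, Or.inl hL.2, ?_⟩
    intro S hS hc
    exact h.sub_of_card hS hL.1 (hmax S (Finset.mem_filter.mpr ⟨hS, hc⟩))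
  · refine ⟨∅, Or.inl rfl, Or.inr rfl, ?_⟩
    intro S hS hc
    exact absurd ⟨S, Finset.mem_filter.mpr ⟨hS, hc⟩⟩ hne

/-- the upper neighbour of a missing cardinality. -/
theorem CH.upper (h : CH X C) (j : ℕ) : ∃ U : Finset α, (U = X ∨ U ∈ C) ∧ (j < U.card ∨ U = X) ∧
    ∀ S ∈ C, j < S.card → U ⊆ S := by
  by_cases hne : (C.filter (fun S => j < S.card)).Nonempty
  · obtain ⟨U, hU, hmin⟩ := Finset.exists_min_image _ Finset.card hne
    rw [Finset.mem_filter] at hU
    refine ⟨U, Or.inr hU.1, Or.inl hU.2, ?_⟩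
    intro S hS hc
    exact h.sub_of_card hU.1 hS (hmin S (Finset.mem_filter.mpr ⟨hS, hc⟩))
  · refine ⟨X, Or.inl rfl, Or.inr rfl, ?_⟩
    intro S hS hc
    exact absurd ⟨S, Finset.mem_filter.mpr ⟨hS, hc⟩⟩ hne

/-- inserting a set of a missing cardinality. -/
theorem CH.insert_card (h : CH X C) {j : ℕ} (h1 : 1 ≤ j) (h2 : j ≤ X.card)
    (h3 : j ∉ C.image Finset.card) : ∃ W : Finset α, W.card = j ∧ W ∉ C ∧ CH X (insert W C) := by
  obtain ⟨L, hL1, hL2, hL3⟩ := h.lower j
  obtain ⟨U, hU1, hU2, hU3⟩ := h.upper j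
  have hLX : L ⊆ X := by
    rcases hL1 with rfl | h4
    · exact Finset.empty_subset X
    · exact h.sub L h4
  have hLc : L.card ≤ j := by
    rcases hL2 with h4 | rfl
    · exact h4.le
    · simp
  have hLU : L ⊆ U := by
    rcases hU1 with rfl | h4
    · exact hLX
    · rcases hU2 with h5 | rfl
      · rcases hL1 with rfl | h6
        · exact Finset.empty_subset U
        · exact h.sub_of_card h6 h4 (by omega)
      · exact hLX
  have hUc : j ≤ U.card := by
    rcases hU2 with h4 | rfl
    · exact h4.le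
    · exact h2
  obtain ⟨W, hLW, hWU, hWc⟩ := Finset.exists_subsuperset_card_eq hLU hLc hUc
  have hUX : U ⊆ X := by
    rcases hU1 with rfl | h4
    · exact Finset.Subset.refl _
    · exact h.sub U h4
  have hWC : W ∉ C := fun hW => h3 (Finset.mem_image.mpr ⟨W, hW, hWc⟩)
  have hcomp : ∀ S ∈ C, S ⊆ W ∨ W ⊆ S := by
    intro S hS
    rcases lt_trichotomy S.card j with h4 | h4 | h4
    · left; exact (hL3 S hS h4).trans hLW
    · exact absurd (Finset.mem_image.mpr ⟨S, hS, h4⟩) h3
    · right; exact hWU.trans (hU3 S hS h4)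
  refine ⟨W, hWc, hWC, ?_, ?_, ?_⟩
  · intro S hS
    rcases Finset.mem_insert.mp hS with rfl | hS
    · exact Finset.card_pos.mp (by omega)
    · exact h.ne S hS
  · intro S hS
    rcases Finset.mem_insert.mp hS with rfl | hS
    · exact hWU.trans hUX
    · exact h.sub S hS
  · intro S hS S' hS'
    rcases Finset.mem_insert.mp hS with h4 | h4 <;> rcases Finset.mem_insert.mp hS' with h5 | h5
    · left; rw [h4, h5]
    · rw [h4]; exact (hcomp S' h5).symm
    · rw [h5]; exact hcomp S h4
    · exact h.tot S h4 S' h5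

/-- every chain extends to a complete one. -/
theorem CH.extend (h : CH X C) : ∃ C', C ⊆ C' ∧ CH X C' ∧ C'.card = X.card := by
  have key : ∀ (k : ℕ) (C : Finset (Finset α)), CH X C → X.card - C.card = k →
      ∃ C', C ⊆ C' ∧ CH X C' ∧ C'.card = X.card := by
    intro k
    induction k with
    | zero =>
      intro C hC hk
      exact ⟨C, Finset.Subset.refl _, hC, le_antisymm hC.card_le (by omega)⟩
    | succ k ih =>
      intro C hC hk
      have hlt : C.card < X.card := by omega
      have : ∃ j ∈ Finset.Icc 1 X.card, j ∉ C.image Finset.card := by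
        by_contra hcon
        push Not at hcon
        have h1 : Finset.Icc 1 X.card ⊆ C.image Finset.card := hcon
        have h2 := Finset.card_le_card h1
        rw [Nat.card_Icc, Nat.add_sub_cancel, hC.card_image] at h2
        omega
      obtain ⟨j, hj, hj'⟩ := this
      rw [Finset.mem_Icc] at hj
      obtain ⟨W, -, hW, hC'⟩ := hC.insert_card hj.1 hj.2 hj'
      obtain ⟨C'', h1, h2, h3⟩ := ih (insert W C) hC' (by
        rw [Finset.card_insert_of_notMem hW]; omega)
      exact ⟨C'', (Finset.subset_insert W C).trans h1, h2, h3⟩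
  exact key _ C h rfl

/-- the set of cardinalities of a complete chain. -/
theorem CH.image_full (h : CH X C) (hc : C.card = X.card) :
    C.image Finset.card = Finset.Icc 1 X.card := by
  apply Finset.eq_of_subset_of_card_le h.image_sub
  rw [Nat.card_Icc, Nat.add_sub_cancel, h.card_image, hc]

theorem CH.exists_card (h : CH X C) (hc : C.card = X.card) {j : ℕ} (h1 : 1 ≤ j)
    (h2 : j ≤ X.card) : ∃ S ∈ C, S.card = j := by
  have : j ∈ C.image Finset.card := by
    rw [h.image_full hc, Finset.mem_Icc]; exact ⟨h1, h2⟩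
  exact Finset.mem_image.mp this

theorem CH.top_mem (h : CH X C) (hc : C.card = X.card) (hX : X.Nonempty) : X ∈ C := by
  obtain ⟨S, hS, hSc⟩ := h.exists_card hc (Finset.card_pos.mpr hX) le_rfl
  have : S = X := Finset.eq_of_subset_of_card_le (h.sub S hS) hSc.ge
  rwa [← this]

/-- almost complete chains miss exactly one cardinality. -/
theorem CH.missing (h : CH X C) (hc : C.card + 1 = X.card) :
    ∃ j, 1 ≤ j ∧ j ≤ X.card ∧ j ∉ C.image Finset.card ∧
      ∀ i, 1 ≤ i → i ≤ X.card → i ≠ j → i ∈ C.image Finset.card := by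
  have h1 : (Finset.Icc 1 X.card \ C.image Finset.card).card = 1 := by
    rw [Finset.card_sdiff_of_subset h.image_sub, Nat.card_Icc, h.card_image]
    omega
  obtain ⟨j, hj⟩ := Finset.card_eq_one.mp h1
  have hjm : j ∈ Finset.Icc 1 X.card \ C.image Finset.card := by
    rw [hj]; exact Finset.mem_singleton_self j
  rw [Finset.mem_sdiff, Finset.mem_Icc] at hjm
  refine ⟨j, hjm.1.1, hjm.1.2, hjm.2, ?_⟩
  intro i h2 h3 h4
  by_contra h5
  have : i ∈ Finset.Icc 1 X.card \ C.image Finset.card :=
    Finset.mem_sdiff.mpr ⟨Finset.mem_Icc.mpr ⟨h2, h3⟩, h5⟩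
  rw [hj, Finset.mem_singleton] at this
  exact h4 this

/-- an almost complete chain containing the top can be completed in exactly two ways. -/
theorem CH.two (h : CH X C) (hc : C.card + 1 = X.card) (hX : X ∈ C) :
    ∃ W₁ W₂ : Finset α, W₁ ≠ W₂ ∧ W₁ ∉ C ∧ W₂ ∉ C ∧ CH X (insert W₁ C) ∧ CH X (insert W₂ C) ∧
      ∀ W, W ∉ C → CH X (insert W C) → W = W₁ ∨ W = W₂ := by
  obtain ⟨j, hj1, hj2, hj3, hj4⟩ := h.missing hc
  have hjX : j ≠ X.card := fun h0 => hj3 (Finset.mem_image.mpr ⟨X, hX, h0.symm⟩)
  -- upper neighbour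
  obtain ⟨U, hU, hUc⟩ : ∃ U ∈ C, U.card = j + 1 :=
    Finset.mem_image.mp (hj4 (j + 1) (by omega) (by omega) (by omega))
  -- lower neighbour
  obtain ⟨L, hLc, hLU, hL⟩ : ∃ L : Finset α, L.card + 1 = j ∧ L ⊆ U ∧
      (∀ S ∈ C, S.card < j → S ⊆ L) ∧ (L = ∅ ∨ L ∈ C) := by
    rcases Nat.lt_or_ge 1 j with h1 | h1
    · obtain ⟨L, hL, hLc⟩ := Finset.mem_image.mp (hj4 (j - 1) (by omega) (by omega) (by omega))
      exact ⟨L, by omega, h.sub_of_card hL hU (by omega),
        fun S hS hc => h.sub_of_card hS hL (by omega), Or.inr hL⟩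
    · have : j = 1 := by omega
      subst this
      refine ⟨∅, by simp, Finset.empty_subset U, ?_, Or.inl rfl⟩
      intro S hS hc
      have := Finset.card_pos.mpr (h.ne S hS)
      omega
  obtain ⟨hL, hL'⟩ := hL
  have h1 : (U \ L).card = 2 := by
    rw [Finset.card_sdiff_of_subset hLU]; omega
  obtain ⟨x, y, hxy, hxye⟩ := Finset.card_eq_two.mp h1
  have hx : x ∈ U \ L := by rw [hxye]; simp
  have hy : y ∈ U \ L := by rw [hxye]; simp
  rw [Finset.mem_sdiff] at hx hy
  have hUS : ∀ S ∈ C, j < S.card → U ⊆ S := fun S hS hc => h.sub_of_card hU hS (by omega)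
  have good : ∀ z ∈ U, z ∉ L → insert z L ∉ C ∧ CH X (insert (insert z L) C) := by
    intro z hzU hzL
    have hcard : (insert z L).card = j := by
      rw [Finset.card_insert_of_notMem hzL]; exact hLc
    have hnot : insert z L ∉ C := fun hm => hj3 (Finset.mem_image.mpr ⟨_, hm, hcard⟩)
    have hsub : insert z L ⊆ U := Finset.insert_subset hzU hLU
    have hcomp : ∀ S ∈ C, S ⊆ insert z L ∨ insert z L ⊆ S := by
      intro S hS
      rcases lt_trichotomy S.card j with h4 | h4 | h4
      · left; exact (hL S hS h4).trans (Finset.subset_insert z L)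
      · exact absurd (Finset.mem_image.mpr ⟨S, hS, h4⟩) hj3
      · right; exact hsub.trans (hUS S hS h4)
    refine ⟨hnot, ?_, ?_, ?_⟩
    · intro S hS
      rcases Finset.mem_insert.mp hS with rfl | hS
      · exact Finset.insert_nonempty z L
      · exact h.ne S hS
    · intro S hS
      rcases Finset.mem_insert.mp hS with rfl | hS
      · exact hsub.trans (h.sub U hU)
      · exact h.sub S hS
    · intro S hS S' hS'
      rcases Finset.mem_insert.mp hS with rfl | hS <;>
        rcases Finset.mem_insert.mp hS' with rfl | hS'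
      · left; exact Finset.Subset.refl _
      · exact (hcomp S' hS').symm
      · exact hcomp S hS
      · exact h.tot S hS S' hS'
  obtain ⟨gx1, gx2⟩ := good x hx.1 hx.2
  obtain ⟨gy1, gy2⟩ := good y hy.1 hy.2
  refine ⟨insert x L, insert y L, ?_, gx1, gy1, gx2, gy2, ?_⟩
  · intro he
    have : x ∈ insert y L := by rw [← he]; exact Finset.mem_insert_self x L
    rcases Finset.mem_insert.mp this with h2 | h2
    · exact hxy h2
    · exact hx.2 h2
  · intro W hW hCW
    have hWm : W ∈ insert W C := Finset.mem_insert_self W C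
    have hWc : W.card = j := by
      by_contra hne
      have hm := hj4 W.card (Finset.card_pos.mpr (hCW.ne W hWm))
        (Finset.card_le_card (hCW.sub W hWm)) hne
      obtain ⟨S, hS, hSc⟩ := Finset.mem_image.mp hm
      have : S = W := hCW.card_inj (Finset.mem_insert_of_mem hS) hWm hSc
      exact hW (this ▸ hS)
    have hWU : W ⊆ U := hCW.sub_of_card hWm (Finset.mem_insert_of_mem hU) (by omega)
    have hLW : L ⊆ W := by
      rcases hL' with rfl | hL'
      · exact Finset.empty_subset W
      · exact hCW.sub_of_card (Finset.mem_insert_of_mem hL') hWm (by omega)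
    have h2 : (W \ L).card = 1 := by
      rw [Finset.card_sdiff_of_subset hLW]; omega
    obtain ⟨z, hz⟩ := Finset.card_eq_one.mp h2
    have hzm : z ∈ W \ L := by rw [hz]; exact Finset.mem_singleton_self z
    rw [Finset.mem_sdiff] at hzm
    have hWz : W = insert z L := by
      rw [← Finset.sdiff_union_of_subset hLW, hz, Finset.singleton_union]
    have : z ∈ U \ L := Finset.mem_sdiff.mpr ⟨hWU hzm.1, hzm.2⟩
    rw [hxye, Finset.mem_insert, Finset.mem_singleton] at this
    rcases this with rfl | rfl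
    · left; exact hWz
    · right; exact hWz

/-- an almost complete chain without the top can only be completed by the top. -/
theorem CH.one (_h : CH X C) (hc : C.card + 1 = X.card) (hX : X ∉ C) {W : Finset α}
    (hW : W ∉ C) (hCW : CH X (insert W C)) : W = X := by
  have hXne : X.Nonempty := Finset.card_pos.mp (by omega)
  have := hCW.top_mem (by rw [Finset.card_insert_of_notMem hW]; exact hc) hXne
  rcases Finset.mem_insert.mp this with h1 | h1
  · exact h1.symm
  · exact absurd h1 hX

/-- adding the top to a chain. -/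
theorem CH.insert_top (h : CH X C) (hX : X.Nonempty) : CH X (insert X C) := by
  refine ⟨?_, ?_, ?_⟩
  · intro S hS
    rcases Finset.mem_insert.mp hS with rfl | hS
    · exact hX
    · exact h.ne S hS
  · intro S hS
    rcases Finset.mem_insert.mp hS with rfl | hS
    · exact Finset.Subset.refl _
    · exact h.sub S hS
  · intro S hS S' hS'
    rcases Finset.mem_insert.mp hS with h4 | h4 <;> rcases Finset.mem_insert.mp hS' with h5 | h5
    · left; rw [h4, h5]
    · right; rw [h4]; exact h.sub S' h5
    · left; rw [h5]; exact h.sub S h4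
    · exact h.tot S h4 S' h5

end Chains

end Pool.Agent.Lib.MPde6cd8
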