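import Mathlib

set_option autoImplicit false

namespace Pool.Agent.Lib.MPde6cd8

/-- A finite simplicial complex with vertices in `ℕ`, given by its finite set of simplices
(finite sets of vertices). The empty simplex is always a simplex. -/
structure SC where
  faces : Finset (Finset ℕ)
  empty_mem : ∅ ∈ faces
  down : ∀ s ∈ faces, ∀ t, t ⊆ s → t ∈ faces

namespace SC

/-- `v` is a vertex of `K`. -/
def IsVertex (K : SC) (v : ℕ) : Prop := {v} ∈ K.faces

/-- The link of a vertex `v`: the simplices `s` not containing `v` with `s ∪ {v}` a simplex. -/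
def link (K : SC) (v : ℕ) : SC where
  faces := insert ∅ (K.faces.filter (fun s => v ∉ s ∧ insert v s ∈ K.faces))
  empty_mem := Finset.mem_insert_self _ _
  down := by
    intro s hs t ht
    rw [Finset.mem_insert, Finset.mem_filter] at hs ⊢
    rcases hs with rfl | ⟨h1, h2, h3⟩
    · left; exact Finset.subset_empty.mp ht
    · right
      exact ⟨K.down s h1 t ht, fun h => h2 (ht h), K.down _ h3 _ (Finset.insert_subset_insert v ht)⟩

/-- The stellar subdivision of `K` at the simplex `σ`, with new vertex `a`: the simplices
containing `σ` are replaced by the cone from `a` over the part of their boundary which does not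
contain `σ`. -/
def stellar (K : SC) (σ : Finset ℕ) (a : ℕ) (hσ : σ ∈ K.faces) (hne : σ ≠ ∅)
    (ha : ¬ K.IsVertex a) : SC where
  faces := K.faces.filter (fun s => ¬ σ ⊆ s) ∪
    (K.faces.filter (fun s => ¬ σ ⊆ s ∧ s ∪ σ ∈ K.faces)).image (insert a)
  empty_mem := by
    rw [Finset.mem_union, Finset.mem_filter]
    left
    exact ⟨K.empty_mem, fun h => hne (Finset.subset_empty.mp h)⟩
  down := by
    intro s hs t ht
    have _ := hσ
    have ha' : ∀ s ∈ K.faces, a ∉ s := fun s hs h =>
      ha (K.down s hs {a} (Finset.singleton_subset_iff.mpr h))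
    rw [Finset.mem_union, Finset.mem_filter, Finset.mem_image] at hs ⊢
    rcases hs with ⟨h1, h2⟩ | ⟨r, hr, rfl⟩
    · left
      exact ⟨K.down s h1 t ht, fun h => h2 (h.trans ht)⟩
    · rw [Finset.mem_filter] at hr
      obtain ⟨h1, h2, h3⟩ := hr
      by_cases hat : a ∈ t
      · right
        refine ⟨t.erase a, ?_, Finset.insert_erase hat⟩
        have hsub : t.erase a ⊆ r := by
          intro x hx
          rw [Finset.mem_erase] at hx
          exact (Finset.mem_insert.mp (ht hx.2)).resolve_left hx.1
        rw [Finset.mem_filter]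
        exact ⟨K.down r h1 _ hsub, fun h => h2 (h.trans hsub),
          K.down _ h3 _ (Finset.union_subset_union_left hsub)⟩
      · left
        have hsub : t ⊆ r := by
          intro x hx
          refine (Finset.mem_insert.mp (ht hx)).resolve_left ?_
          rintro rfl
          exact hat hx
        exact ⟨K.down r h1 _ hsub, fun h => h2 (h.trans hsub)⟩

/-- The join of two complexes, realised on the disjoint copies `2ℕ` and `2ℕ+1` of `ℕ`. -/
def join (K L : SC) : SC where
  faces := (K.faces ×ˢ L.faces).image
    (fun p => p.1.image (fun x => 2 * x) ∪ p.2.image (fun x => 2 * x + 1))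
  empty_mem := by
    rw [Finset.mem_image]
    exact ⟨(∅, ∅), Finset.mem_product.mpr ⟨K.empty_mem, L.empty_mem⟩, by simp⟩
  down := by
    intro s hs t ht
    rw [Finset.mem_image] at hs ⊢
    obtain ⟨⟨p, q⟩, hpq, rfl⟩ := hs
    rw [Finset.mem_product] at hpq
    refine ⟨(p.filter (fun x => 2 * x ∈ t), q.filter (fun x => 2 * x + 1 ∈ t)), ?_, ?_⟩
    · rw [Finset.mem_product]
      exact ⟨K.down p hpq.1 _ (Finset.filter_subset _ _),
        L.down q hpq.2 _ (Finset.filter_subset _ _)⟩
    · ext x
      simp only [Finset.mem_union, Finset.mem_image, Finset.mem_filter]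
      constructor
      · rintro (⟨y, ⟨_, h⟩, rfl⟩ | ⟨y, ⟨_, h⟩, rfl⟩) <;> exact h
      · intro hx
        have := ht hx
        rw [Finset.mem_union, Finset.mem_image, Finset.mem_image] at this
        rcases this with ⟨y, hy, rfl⟩ | ⟨y, hy, rfl⟩
        · left; exact ⟨y, ⟨hy, hx⟩, rfl⟩
        · right; exact ⟨y, ⟨hy, hx⟩, rfl⟩

/-- The boundary of a simplex with `d + 2` vertices, that is the standard `d`-sphere. -/
def sphere (d : ℕ) : SC where
  faces := (Finset.range (d + 2)).powerset.erase (Finset.range (d + 2))
  empty_mem := by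
    rw [Finset.mem_erase]
    refine ⟨?_, Finset.empty_mem_powerset _⟩
    intro h
    have := congrArg Finset.card h
    simp at this
  down := by
    intro s hs t ht
    rw [Finset.mem_erase, Finset.mem_powerset] at hs ⊢
    refine ⟨?_, ht.trans hs.2⟩
    rintro rfl
    exact hs.1 (Finset.Subset.antisymm hs.2 ht)

/-- The suspension: the join with the `0`-sphere. -/
def susp (K : SC) : SC := (sphere 0).join K

end SC

/-- PL equivalence of finite simplicial complexes: the equivalence relation generated by
isomorphisms and stellar subdivisions. (By theorems of Alexander and Newman, two finite complexes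
are related if and only if their underlying polyhedra are PL isomorphic.) -/
inductive PLEquiv : SC → SC → Prop
  | refl (K : SC) : PLEquiv K K
  | symm {K L : SC} : PLEquiv K L → PLEquiv L K
  | trans {K L M : SC} : PLEquiv K L → PLEquiv L M → PLEquiv K M
  | iso {K L : SC} (f : ℕ → ℕ) (hf : Set.InjOn f {v | K.IsVertex v})
      (h : L.faces = K.faces.image (Finset.image f)) : PLEquiv K L
  | stellar (K : SC) (σ : Finset ℕ) (a : ℕ) (hσ : σ ∈ K.faces) (hne : σ ≠ ∅)
      (ha : ¬ K.IsVertex a) : PLEquiv K (K.stellar σ a hσ hne ha)

/-- The rule defining type `n` when the complexes of type less than `n` are known (`P`) and the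
type `1` complexes are those satisfying `T₁`. All complexes of type `n` are nonempty: the spheres
have dimension at least `0`, and for `n > 1` the complex must have a vertex. -/
def TypeRule (T₁ : SC → Prop) (P : SC → Prop) : ℕ → SC → Prop
  | 0, K => ∃ d, PLEquiv (SC.sphere d) K
  | 1, K => T₁ K
  | _ + 2, K => (∃ v, K.IsVertex v) ∧
      ∀ K', PLEquiv K K' → ∀ v, K'.IsVertex v → ∃ X, P X ∧ ∃ k : ℕ,
        PLEquiv (SC.susp^[k] X) (K'.link v) ∨
        ∃ Y, P Y ∧ PLEquiv (SC.susp^[k] (X.join Y)) (K'.link v)

/-- Being of type less than `n`. -/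
def TypeLT (T₁ : SC → Prop) : ℕ → SC → Prop
  | 0, _ => False
  | n + 1, K => TypeLT T₁ n K ∨ TypeRule T₁ (TypeLT T₁ n) n K

/-- Being of type `n`. -/
def IsType (T₁ : SC → Prop) (n : ℕ) (K : SC) : Prop := TypeRule T₁ (TypeLT T₁ n) n K

/-- The first return relation of the map `τ` to the set `P`: `First τ P x y` says that `y` is the
first element of `τ x, τ (τ x), …` which lies in `P`. -/
inductive First {X : Type} (τ : X → X) (P : X → Prop) : X → X → Prop
  | stop {x : X} (h : P (τ x)) : First τ P x (τ x)
  | step {x y : X} (h : ¬ P (τ x)) (h' : First τ P (τ x) y) : First τ P x y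

/-- The topological type of a surface `F`: genus `g`, `s` punctures, `r ≥ 1` boundary components
and `δ i ≥ 1` distinguished points on the `i`-th boundary component. -/
structure Surf where
  g : ℕ
  s : ℕ
  r : ℕ
  δ : Fin r → ℕ
  r_pos : 1 ≤ r
  δ_pos : ∀ i, 1 ≤ δ i

namespace Surf

/-- The number of arcs of a maximal arc family in `F`. -/
def N (F : Surf) : ℕ := 6 * F.g + 3 * F.r + 2 * F.s + (∑ i, F.δ i) - 6

/-- The boundary segments of `F`: `⟨i, j⟩` runs, on the `i`-th boundary component, from the `j`-th
distinguished point to the next one. -/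
abbrev Bd (F : Surf) : Type := Σ i : Fin F.r, Fin (F.δ i)

/-- The next boundary segment on the same boundary component. -/
def rot (F : Surf) (b : F.Bd) : F.Bd := ⟨b.1, finRotate _ b.2⟩

/-- Sides: `inl (a, true)` and `inl (a, false)` are the two sides of the `a`-th arc of a maximal arc
family and `inr b` is the (inner) side of the boundary segment `b`. Each side is oriented with the
surface on its left. -/
abbrev Side (F : Surf) : Type := (Fin F.N × Bool) ⊕ F.Bd

/-- The other side of an arc; a boundary segment has only one side. -/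
def opp (F : Surf) : F.Side → F.Side
  | Sum.inl (a, x) => Sum.inl (a, !x)
  | Sum.inr b => Sum.inr b

/-- The sides of the arcs in `S` and of the boundary segments. -/
def Kept (F : Surf) (S : Finset (Fin F.N)) : F.Side → Prop
  | Sum.inl (a, _) => a ∈ S
  | Sum.inr _ => True

/-- Turning about a distinguished point, where `next e` is the side following `e` in the
boundary of the complementary region of `e`: the sides starting at the starting point of `e` are
`e`, `turn e`, `turn (turn e)`, and so on, until a boundary segment ends this list. Starting from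
a boundary segment `b` one gets the sides starting at the end point of `b`. -/
def turn (F : Surf) (next : F.Side → F.Side) (e : F.Side) : F.Side := next (F.opp e)

/-- Two sides lie in the same complementary region of the family of the arcs in `S`. -/
def Conn (F : Surf) (next : F.Side → F.Side) (S : Finset (Fin F.N)) : F.Side → F.Side → Prop :=
  Relation.EqvGen (fun x y => y = next x ∨ (¬ F.Kept S x ∧ y = F.opp x))

end Surf

/-- A maximal arc family in `F` with arcs labelled by `Fin F.N`, up to orientation preserving
homeomorphisms fixing the punctures, the boundary components and the distinguished points. Its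
complementary regions are triangles (the cycles of length `3` of `next`) and once-punctured
monogons (the fixed points of `next`; `punct i` is the one with the `i`-th puncture). -/
structure QTri (F : Surf) where
  next : Equiv.Perm F.Side
  punct : Fin F.s → F.Side
  next_cube : ∀ e, next (next (next e)) = e
  punct_inj : Function.Injective punct
  fixed_iff : ∀ e, next e = e ↔ ∃ i, punct i = e
  turn_bd : ∀ b, First (F.turn next) (F.Kept ∅) (Sum.inr b) (Sum.inr (F.rot b))
  turn_all : ∀ e, ∃ (b : F.Bd) (n : ℕ), (F.turn next)^[n] (Sum.inr b) = e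
  connected : ∀ e e', F.Conn next ∅ e e'

/-- A relabelling of the arcs and of their sides. -/
structure Relabel (F : Surf) where
  perm : Equiv.Perm (Fin F.N)
  flip : Fin F.N → Bool

/-- The action of a relabelling on sides. -/
def Relabel.app {F : Surf} (ρ : Relabel F) : F.Side → F.Side
  | Sum.inl (a, x) => Sum.inl (ρ.perm a, xor (ρ.flip a) x)
  | Sum.inr b => Sum.inr b

/-- The arc family `S` of `T` is carried to the arc family `ρ S` of `T'`, as prescribed by `ρ`, by
an orientation preserving homeomorphism of `F` fixing the punctures, the boundary components and the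
distinguished points: the order of the sides about the distinguished points corresponds, and the
complementary regions correspond, with the same punctures and the same number of arcs not in `S`
(which means: with the same genus). -/
structure RestrIso {F : Surf} (T T' : QTri F) (S : Finset (Fin F.N)) (ρ : Relabel F) : Prop where
  turn : ∀ e e', F.Kept S e → (First (F.turn T.next) (F.Kept S) e e' ↔
    First (F.turn T'.next) (F.Kept (S.image ρ.perm)) (ρ.app e) (ρ.app e'))
  conn : ∀ e e', F.Conn T.next S e e' ↔
    F.Conn T'.next (S.image ρ.perm) (ρ.app e) (ρ.app e')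
  punct : ∀ e i, F.Conn T.next S e (T.punct i) ↔
    F.Conn T'.next (S.image ρ.perm) (ρ.app e) (T'.punct i)

/-- Flags: nonempty sets of nonempty sets of arcs, totally ordered by inclusion. -/
def IsFlag {n : ℕ} (c : Finset (Finset (Fin n))) : Prop :=
  c.Nonempty ∧ (∀ S ∈ c, S.Nonempty) ∧ ∀ S ∈ c, ∀ S' ∈ c, S ⊆ S' ∨ S' ⊆ S

/-- The flag `c` of arc families contained in `T` and the flag `c'` of arc families contained in
`T'` lie in the same orbit of the pure mapping class group. -/
def FlagIso {F : Surf} (T : QTri F) (c : Finset (Finset (Fin F.N))) (T' : QTri F)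
    (c' : Finset (Finset (Fin F.N))) : Prop :=
  ∃ ρ : Relabel F, RestrIso T T' (c.sup id) ρ ∧ c' = c.image (Finset.image ρ.perm)

/-- `K` is the second barycentric subdivision of the quotient arc complex of `F`: its vertices are
the orbits of flags of arc families (the cells of the first barycentric subdivision), and its
simplices are given by the chains of flags of arc families in `F` ordered by inclusion. -/
def IsArcComplex (F : Surf) (K : SC) : Prop :=
  ∃ φ : QTri F → Finset (Finset (Fin F.N)) → ℕ,
    (∀ T T' c c', IsFlag c → IsFlag c' → (φ T c = φ T' c' ↔ FlagIso T c T' c')) ∧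
    ∀ s, s ∈ K.faces ↔ s = ∅ ∨ ∃ (T : QTri F) (Z : Finset (Finset (Finset (Fin F.N)))),
      (∀ c ∈ Z, IsFlag c) ∧ (∀ c ∈ Z, ∀ c' ∈ Z, c ⊆ c' ∨ c' ⊆ c) ∧ s = Z.image (φ T)

/-- The four type 1 surfaces. -/
def IsTypeOneSurf (F : Surf) : Prop :=
  (F.g = 1 ∧ F.s = 0 ∧ F.r = 2 ∧ ∀ i, F.δ i = 1) ∨
  (F.g = 0 ∧ F.s = 0 ∧ F.r = 4 ∧ ∀ i, F.δ i = 1) ∨
  (F.g = 0 ∧ F.s = 1 ∧ F.r = 3 ∧ ∀ i, F.δ i = 1) ∨
  (F.g = 0 ∧ F.s = 2 ∧ F.r = 2 ∧ ∀ i, F.δ i = 1)

/-- Type 1 complexes: the arc complexes of the type 1 surfaces, up to PL equivalence. -/
def TypeOne (K : SC) : Prop :=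
  ∃ (F : Surf) (L : SC), IsTypeOneSurf F ∧ IsArcComplex F L ∧ PLEquiv L K

/-- Closed pseudomanifolds of dimension `d`: every simplex lies in a simplex with `d + 1`
vertices, and every simplex with `d` vertices lies in exactly two simplices with `d + 1`
vertices. -/
def IsPM (d : ℕ) (K : SC) : Prop :=
  (∀ s ∈ K.faces, ∃ t ∈ K.faces, s ⊆ t ∧ t.card = d + 1) ∧
  (∀ s ∈ K.faces, s.card = d →
    (K.faces.filter (fun t => s ⊆ t ∧ t.card = d + 1)).card = 2)

end Pool.Agent.Lib.MPde6cd8
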