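import Pool.Agent.Lib.MP_de6cd8_gt.Defs

set_option autoImplicit false

namespace Pool.Agent.Lib.MPde6cd8

variable {X : Type} {τ : X → X} {P P' : X → Prop}

theorem First.holds {x y : X} (h : First τ P x y) : P y := by
  induction h with
  | stop h => exact h
  | step _ _ ih => exact ih

theorem First.unique {x y z : X} (h : First τ P x y) (h' : First τ P x z) : y = z := by
  induction h with
  | stop h =>
    cases h' with
    | stop _ => rfl
    | step h1 _ => exact absurd h h1
  | step h _ ih =>
    cases h' with
    | stop h1 => exact absurd h1 h
    | step _ h2 => exact ih h2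

theorem First.one {x y : X} (h : τ x = y) (hy : P y) : First τ P x y := by
  subst h; exact First.stop hy

theorem First.two {x y z : X} (h : τ x = y) (hy : ¬ P y) (hz : First τ P y z) :
    First τ P x z := by
  subst h; exact First.step hy hz

/-- first return through a larger set of stops. -/
theorem First.weaken {x y : X} (h : First τ P x y) (hPP : ∀ x, P' x → P x) (hy : P' y) :
    First τ P' x y := by
  induction h with
  | stop _ => exact First.stop hy
  | step h _ ih => exact First.step (fun h1 => h (hPP _ h1)) (ih hy)

theorem First.append {x y z : X} (h : First τ P x y) (hPP : ∀ x, P' x → P x) (hy : ¬ P' y)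
    (h' : First τ P' y z) : First τ P' x z := by
  induction h with
  | stop _ => exact First.step hy h'
  | step h _ ih => exact First.step (fun h1 => h (hPP _ h1)) (ih hy h')

/-- chains of steps of `R` up to the first element with `P'`. -/
inductive Via (R : X → X → Prop) (P' : X → Prop) : X → X → Prop
  | last {x y : X} (h : R x y) (h' : P' y) : Via R P' x y
  | more {x y z : X} (h : R x y) (h' : ¬ P' y) (h'' : Via R P' y z) : Via R P' x z

theorem First.via {x y : X} (h : First τ P' x y) (hPP : ∀ x, P' x → P x) :
    Via (First τ P) P' x y := by
  induction h with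
  | stop h => exact Via.last (First.stop (hPP _ h)) h
  | step h _ ih =>
    rename_i x y _
    by_cases hP : P (τ x)
    · exact Via.more (First.stop hP) h ih
    · cases ih with
      | last h1 h2 => exact Via.last (First.step hP h1) h2
      | more h1 h2 h3 => exact Via.more (First.step hP h1) h2 h3

theorem Via.first {x y : X} (h : Via (First τ P) P' x y) (hPP : ∀ x, P' x → P x) :
    First τ P' x y := by
  induction h with
  | last h h' => exact h.weaken hPP h'
  | more h h' _ ih => exact h.append hPP h' ih

/-- transport of first returns to smaller sets of stops. -/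
theorem First.transport {Y : Type} {τ' : Y → Y} {Q Q' : Y → Prop} (f : X → Y)
    (hPP : ∀ x, P' x → P x) (hQQ : ∀ x, Q' x → Q x)
    (hQ : ∀ x, P x → (Q' (f x) ↔ P' x))
    (hF : ∀ x y, P x → First τ P x y → First τ' Q (f x) (f y))
    {x y : X} (hx : P x) (h : First τ P' x y) : First τ' Q' (f x) (f y) := by
  have h1 := h.via hPP
  clear h
  have h2 : Via (First τ' Q) Q' (f x) (f y) := by
    induction h1 with
    | last h h' =>
      exact Via.last (hF _ _ hx h) ((hQ _ h.holds).mpr h')
    | more h h' _ ih =>
      exact Via.more (hF _ _ hx h) (fun h3 => h' ((hQ _ h.holds).mp h3)) (ih h.holds)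
  exact h2.first hQQ

end Pool.Agent.Lib.MPde6cd8
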