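import Pool.Agent.Lib.MP_de6cd8_gt.Iso

set_option autoImplicit false

namespace Pool.Agent.Lib.MPde6cd8

variable {F : Surf}

/-- induction along the turns from the boundary segments. -/
theorem QTri.turn_induction (T : QTri F) {U : F.Side → Prop} (h0 : ∀ b, U (Sum.inr b))
    (h1 : ∀ e, U e → U (F.turn T.next e)) (e : F.Side) : U e := by
  obtain ⟨b, n, rfl⟩ := T.turn_all e
  induction n with
  | zero => exact h0 b
  | succ n ih =>
    rw [Function.iterate_succ_apply']
    exact h1 _ ih

/-- induction along first returns. -/
theorem QTri.kept_induction (T : QTri F) {S : Finset (Fin F.N)} {Q : F.Side → Prop}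
    (h0 : ∀ b, Q (Sum.inr b))
    (h1 : ∀ e e', F.Kept S e → Q e → First (F.turn T.next) (F.Kept S) e e' → Q e')
    (e : F.Side) (he : F.Kept S e) : Q e := by
  have key : (F.Kept S e → Q e) ∧
      (¬ F.Kept S e → ∀ e', First (F.turn T.next) (F.Kept S) e e' → Q e') := by
    refine T.turn_induction (U := fun e => (F.Kept S e → Q e) ∧
      (¬ F.Kept S e → ∀ e', First (F.turn T.next) (F.Kept S) e e' → Q e')) ?_ ?_ e
    · intro b
      exact ⟨fun _ => h0 b, fun h => absurd trivial h⟩
    · intro e he
      by_cases hk : F.Kept S e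
      · have hQ := he.1 hk
        constructor
        · intro h2
          exact h1 _ _ hk hQ (First.stop h2)
        · intro h2 e' h3
          exact h1 _ _ hk hQ (First.step h2 h3)
      · have hQ := he.2 hk
        constructor
        · intro h2
          exact hQ _ (First.stop h2)
        · intro h2 e' h3
          exact hQ _ (First.step h2 h3)
  exact key.1 he

theorem QTri.turn_inj (T : QTri F) {e e' : F.Side}
    (h : F.turn T.next e = F.turn T.next e') : e = e' := by
  have h1 : F.opp e = F.opp e' := T.next.injective h
  rw [← Surf.opp_opp e, h1, Surf.opp_opp]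

/-- no set of arc sides is closed under backward turns. -/
theorem QTri.no_closed (T : QTri F) {U : F.Side → Prop} (h0 : ∀ b, ¬ U (Sum.inr b))
    (h1 : ∀ e, U (F.turn T.next e) → U e) (e : F.Side) : ¬ U e :=
  T.turn_induction (U := fun e => ¬ U e) h0 (fun e he h => he (h1 e h)) e

/-- `p` and `q` are the two sides of the arc `a`. -/
structure PQ (F : Surf) (a : Fin F.N) (p q : F.Side) : Prop where
  opq : F.opp p = q
  oqp : F.opp q = p
  ne : p ≠ q
  kept : ∀ e, F.Kept (Finset.univ.erase a) e ↔ e ≠ p ∧ e ≠ q

theorem PQ.symm {a : Fin F.N} {p q : F.Side} (h : PQ F a p q) : PQ F a q p :=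
  ⟨h.oqp, h.opq, h.ne.symm, fun e => by rw [h.kept e]; exact and_comm⟩

theorem pq (a : Fin F.N) (x : Bool) : PQ F a (Sum.inl (a, x)) (Sum.inl (a, !x)) := by
  refine ⟨rfl, ?_, ?_, ?_⟩
  · simp [Surf.opp]
  · simp
  · intro e
    rcases e with ⟨b, y⟩ | b
    · show b ∈ Finset.univ.erase a ↔ _
      simp only [Finset.mem_erase, Finset.mem_univ, and_true, ne_eq, Sum.inl.injEq,
        Prod.mk.injEq, not_and]
      constructor
      · intro h
        exact ⟨fun h1 => absurd h1 h, fun h1 => absurd h1 h⟩
      · rintro ⟨h1, h2⟩ h3
        have h4 := h1 h3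
        have h5 := h2 h3
        cases x <;> cases y <;> simp_all
    · show True ↔ _
      simp

section

variable {a : Fin F.N} {p q : F.Side} (h : PQ F a p q) (T : QTri F)
include h

theorem PQ.kept_inr (b : F.Bd) : (Sum.inr b : F.Side) ≠ p ∧ (Sum.inr b : F.Side) ≠ q :=
  (h.kept _).mp trivial

theorem PQ.turn_p (next : F.Side → F.Side) : F.turn next p = next q := by
  unfold Surf.turn; rw [h.opq]

theorem PQ.turn_q (next : F.Side → F.Side) : F.turn next q = next p := by
  unfold Surf.turn; rw [h.oqp]

theorem PQ.not_kept_p : ¬ F.Kept (Finset.univ.erase a) p := fun h1 => ((h.kept p).mp h1).1 rfl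

theorem PQ.not_kept_q : ¬ F.Kept (Finset.univ.erase a) q := fun h1 => ((h.kept q).mp h1).2 rfl

theorem PQ.next_p_ne : T.next p ≠ q := by
  intro h1
  refine T.no_closed (U := fun e => e = q) ?_ ?_ q rfl
  · intro b hb; exact (h.kept_inr b).2 hb
  · intro e he
    apply T.turn_inj
    rw [he, h.turn_q, h1]

theorem PQ.not_both : ¬ (T.next p = p ∧ T.next q = q) := by
  rintro ⟨h1, h2⟩
  refine T.no_closed (U := fun e => e = p ∨ e = q) ?_ ?_ q (Or.inr rfl)
  · rintro b (hb | hb)
    · exact (h.kept_inr b).1 hb
    · exact (h.kept_inr b).2 hb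
  · rintro e (he | he)
    · right
      apply T.turn_inj
      rw [he, h.turn_q, h1]
    · left
      apply T.turn_inj
      rw [he, h.turn_p, h2]

theorem PQ.next_next_p_ne : T.next (T.next p) ≠ q := by
  intro h1
  have h2 := T.next_cube p
  rw [h1] at h2
  exact h.symm.next_p_ne T h2

end

theorem QTri.next_next_ne (T : QTri F) {e : F.Side} (he : T.next e ≠ e) :
    T.next (T.next e) ≠ e := by
  intro h1
  have h2 := T.next_cube e
  rw [h1] at h2
  exact he h2

/-- the class of a fixed kept side. -/
theorem class_single (T : QTri F) {S : Finset (Fin F.N)} {f e : F.Side} (hf : T.next f = f)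
    (hk : F.Kept S f) (h : F.Conn T.next S f e) : e = f := by
  have h2 : (f = f ↔ e = f) := by
    refine Surf.Conn.lift (R := fun x y => (x = f ↔ y = f)) (fun x => Iff.rfl)
      (fun x y h => h.symm) (fun x y z h h' => h.trans h') ?_ ?_ h
    · intro x
      constructor
      · rintro rfl; exact hf
      · intro h3
        apply T.next.injective
        rw [h3, hf]
    · intro x hx
      constructor
      · rintro rfl; exact absurd hk hx
      · intro h3
        exact absurd (Surf.kept_opp.mp (by rw [h3]; exact hk)) hx
  exact h2.mp rfl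

/-- restricted isomorphisms by the identity. -/
theorem RestrIso.one_turn {T T' : QTri F} {S : Finset (Fin F.N)}
    (h : RestrIso T T' S Relabel.one) {e e' : F.Side} (he : F.Kept S e) :
    First (F.turn T.next) (F.Kept S) e e' ↔ First (F.turn T'.next) (F.Kept S) e e' := by
  have := h.turn e e' he
  rwa [Relabel.image_one, Relabel.app_one, Relabel.app_one] at this

theorem RestrIso.one_conn {T T' : QTri F} {S : Finset (Fin F.N)}
    (h : RestrIso T T' S Relabel.one) {e e' : F.Side} :
    F.Conn T.next S e e' ↔ F.Conn T'.next S e e' := by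
  have := h.conn e e'
  rwa [Relabel.image_one, Relabel.app_one, Relabel.app_one] at this

theorem RestrIso.one_punct {T T' : QTri F} {S : Finset (Fin F.N)}
    (h : RestrIso T T' S Relabel.one) {e : F.Side} {i : Fin F.s} :
    F.Conn T.next S e (T.punct i) ↔ F.Conn T'.next S e (T'.punct i) := by
  have := h.punct e i
  rwa [Relabel.image_one, Relabel.app_one] at this

theorem RestrIso.one_symm {T T' : QTri F} {S : Finset (Fin F.N)}
    (h : RestrIso T T' S Relabel.one) : RestrIso T' T S Relabel.one := by
  have := h.symm
  rw [Relabel.image_one] at this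
  have h2 : (Relabel.one : Relabel F).inv = Relabel.one := by
    simp [Relabel.one, Relabel.inv]
  rwa [h2] at this

theorem RestrIso.one_trans {T T' T'' : QTri F} {S : Finset (Fin F.N)}
    (h : RestrIso T T' S Relabel.one) (h' : RestrIso T' T'' S Relabel.one) :
    RestrIso T T'' S Relabel.one := by
  have := h.trans (T'' := T'') (σ := Relabel.one) (by rw [Relabel.image_one]; exact h')
  have h2 : (Relabel.one : Relabel F).comp Relabel.one = Relabel.one := by
    simp [Relabel.one, Relabel.comp]
  rwa [h2] at this

/-- isomorphisms on everything by the identity are equalities. -/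
theorem RestrIso.eq_of_univ {T T' : QTri F}
    (h : RestrIso T T' Finset.univ Relabel.one) : T = T' := by
  have hk : ∀ e : F.Side, F.Kept Finset.univ e := by
    intro e
    rcases e with ⟨b, y⟩ | b
    · exact Finset.mem_univ b
    · trivial
  have hn : ∀ e, T.next e = T'.next e := by
    intro e
    have h1 : First (F.turn T.next) (F.Kept Finset.univ) (F.opp e) (T.next e) :=
      First.one (Surf.turn_opp e) (hk _)
    have h2 : First (F.turn T'.next) (F.Kept Finset.univ) (F.opp e) (T'.next e) :=
      First.one (Surf.turn_opp e) (hk _)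
    exact ((h.one_turn (hk _)).mp h1).unique h2
  refine QTri.ext' hn ?_
  intro i
  have h1 : F.Conn T'.next Finset.univ (T.punct i) (T'.punct i) :=
    h.one_punct.mp (Surf.Conn.refl _)
  have h2 : T'.next (T.punct i) = T.punct i := by
    rw [← hn]; exact (T.fixed_iff _).mpr ⟨i, rfl⟩
  exact (class_single T' h2 (hk _) h1).symm

/-- rigidity. -/
theorem RestrIso.rigid {T T' : QTri F} {S : Finset (Fin F.N)} {ρ : Relabel F}
    (h : RestrIso T T' S Relabel.one) (h' : RestrIso T T' S ρ) (hS : S.image ρ.perm = S)
    (e : F.Side) (he : F.Kept S e) : ρ.app e = e := by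
  refine T.kept_induction (S := S) (Q := fun e => ρ.app e = e) (fun b => rfl) ?_ e he
  intro e e' hk hq h1
  have h2 := (h'.turn e e' hk).mp h1
  rw [hS, hq] at h2
  exact h2.unique ((h.one_turn hk).mp h1)

/-- uniqueness of a maximal arc family with given restriction and given position of the
last arc. -/
theorem PQ.unique_next {a : Fin F.N} {p q : F.Side} (h : PQ F a p q) {T₁ T₂ : QTri F}
    (hR : RestrIso T₁ T₂ (Finset.univ.erase a) Relabel.one) (hp : T₁.next p = T₂.next p)
    {e : F.Side} (he : F.Kept (Finset.univ.erase a) e) (h2 : T₂.next e = p) :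
    T₁.next e = p := by
  have he' := (h.kept e).mp he
  have hx1 : T₂.next p ≠ p := by
    intro h3
    exact he'.1 (T₂.next.injective (h2.trans h3.symm))
  have hx2 : T₂.next p ≠ q := h.next_p_ne T₂
  have hx : F.Kept (Finset.univ.erase a) (T₂.next p) := (h.kept _).mpr ⟨hx1, hx2⟩
  have h3 : T₂.next (T₂.next p) = e := by
    rw [← h2]; exact T₂.next_cube e
  have h4 : First (F.turn T₂.next) (F.Kept (Finset.univ.erase a)) (F.opp (T₂.next p)) e :=
    First.one (by rw [Surf.turn_opp, h3]) he
  have h5 := (hR.one_turn (Surf.kept_opp.mpr hx)).mpr h4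
  have h6 : F.Kept (Finset.univ.erase a) (T₁.next (T₂.next p)) := by
    rw [h.kept, ← hp]
    exact ⟨T₁.next_next_ne (by rw [hp]; exact hx1), h.next_next_p_ne T₁⟩
  have h7 : First (F.turn T₁.next) (F.Kept (Finset.univ.erase a)) (F.opp (T₂.next p))
      (T₁.next (T₂.next p)) := First.one (Surf.turn_opp _) h6
  have h8 := h7.unique h5
  rw [← h8, ← hp]
  exact T₁.next_cube p

theorem PQ.unique {a : Fin F.N} {p q : F.Side} (h : PQ F a p q) {T₁ T₂ : QTri F}
    (hR : RestrIso T₁ T₂ (Finset.univ.erase a) Relabel.one) (hp : T₁.next p = T₂.next p)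
    (hq : T₁.next q = T₂.next q) : T₁ = T₂ := by
  have hn : ∀ e, T₁.next e = T₂.next e := by
    intro e
    by_cases he : F.Kept (Finset.univ.erase a) e
    · by_cases h2 : F.Kept (Finset.univ.erase a) (T₂.next e)
      · by_cases h1 : F.Kept (Finset.univ.erase a) (T₁.next e)
        · have h3 : First (F.turn T₁.next) (F.Kept (Finset.univ.erase a)) (F.opp e)
            (T₁.next e) := First.one (Surf.turn_opp _) h1
          have h4 : First (F.turn T₂.next) (F.Kept (Finset.univ.erase a)) (F.opp e)
            (T₂.next e) := First.one (Surf.turn_opp _) h2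
          exact ((hR.one_turn (Surf.kept_opp.mpr he)).mp h3).unique h4
        · rw [h.kept] at h1
          by_cases h3 : T₁.next e = p
          · rw [h3, h.unique_next hR.one_symm hp.symm he h3]
          · have h4 : T₁.next e = q := by
              by_contra h5; exact h1 ⟨h3, h5⟩
            rw [h4, h.symm.unique_next hR.one_symm hq.symm he h4]
      · rw [h.kept] at h2
        by_cases h3 : T₂.next e = p
        · rw [h3, h.unique_next hR hp he h3]
        · have h4 : T₂.next e = q := by
            by_contra h5; exact h2 ⟨h3, h5⟩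
          rw [h4, h.symm.unique_next hR hq he h4]
    · rw [h.kept] at he
      by_cases h3 : e = p
      · rw [h3, hp]
      · have h4 : e = q := by
          by_contra h5; exact he ⟨h3, h5⟩
        rw [h4, hq]
  refine QTri.ext' hn ?_
  intro i
  have hc : F.Conn T₂.next (Finset.univ.erase a) (T₁.punct i) (T₂.punct i) :=
    hR.one_punct.mp (Surf.Conn.refl _)
  have f1 : T₂.next (T₁.punct i) = T₁.punct i := by
    rw [← hn]; exact (T₁.fixed_iff _).mpr ⟨i, rfl⟩
  have f2 : T₂.next (T₂.punct i) = T₂.punct i := (T₂.fixed_iff _).mpr ⟨i, rfl⟩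
  by_cases k1 : F.Kept (Finset.univ.erase a) (T₁.punct i)
  · exact (class_single T₂ f1 k1 hc).symm
  · by_cases k2 : F.Kept (Finset.univ.erase a) (T₂.punct i)
    · exact class_single T₂ f2 k2 hc.symm
    · rw [h.kept] at k1 k2
      have hb := h.not_both T₂
      by_cases e1 : T₁.punct i = p
      · by_cases e2 : T₂.punct i = p
        · rw [e1, e2]
        · have e3 : T₂.punct i = q := by
            by_contra h5; exact k2 ⟨e2, h5⟩
          rw [e1] at f1
          rw [e3] at f2
          exact absurd ⟨f1, f2⟩ hb
      · have e3 : T₁.punct i = q := by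
          by_contra h5; exact k1 ⟨e1, h5⟩
        by_cases e2 : T₂.punct i = p
        · rw [e3] at f1
          rw [e2] at f2
          exact absurd ⟨f2, f1⟩ hb
        · have e4 : T₂.punct i = q := by
            by_contra h5; exact k2 ⟨e2, h5⟩
          rw [e3, e4]

/-- construction of a new maximal arc family from a permutation of the sides. -/
theorem PQ.mkFlip {a : Fin F.N} {p q : F.Side} (h : PQ F a p q) (T : QTri F)
    (θ : Equiv.Perm F.Side) (next' : Equiv.Perm F.Side)
    (hn : ∀ e, next' (θ e) = θ (T.next e))
    (c1 : ∀ i, θ (T.punct i) = T.punct i)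
    (c2 : ∀ e, F.Kept (Finset.univ.erase a) e → ∃ R,
      First (F.turn T.next) (F.Kept (Finset.univ.erase a)) (F.opp e) R ∧
      First (F.turn next') (F.Kept (Finset.univ.erase a)) (F.opp e) R)
    (c3 : ∀ e, F.Conn next' (Finset.univ.erase a) e (T.next e))
    (c4 : ∀ e, F.Conn T.next (Finset.univ.erase a) e (next' e))
    (c5 : ∃ e n, F.Kept (Finset.univ.erase a) e ∧ (F.turn next')^[n] e = p)
    (c6 : ∃ e n, F.Kept (Finset.univ.erase a) e ∧ (F.turn next')^[n] e = q) :
    ∃ T' : QTri F, (∀ e, T'.next e = next' e) ∧
      RestrIso T T' (Finset.univ.erase a) Relabel.one := by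
  have hF : ∀ e e', F.Kept (Finset.univ.erase a) e →
      (First (F.turn T.next) (F.Kept (Finset.univ.erase a)) e e' ↔
      First (F.turn next') (F.Kept (Finset.univ.erase a)) e e') := by
    intro e e' he
    obtain ⟨R, h1, h2⟩ := c2 (F.opp e) (Surf.kept_opp.mpr he)
    rw [Surf.opp_opp] at h1 h2
    constructor
    · intro h3
      rw [h3.unique h1]; exact h2
    · intro h3
      rw [h3.unique h2]; exact h1
  have hC : ∀ e e', F.Conn T.next (Finset.univ.erase a) e e' ↔
      F.Conn next' (Finset.univ.erase a) e e' := by
    intro e e'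
    constructor
    · intro h1
      exact Surf.Conn.lift (R := F.Conn next' (Finset.univ.erase a)) (fun x => Surf.Conn.refl _)
        (fun x y h => h.symm) (fun x y z h h' => h.trans h') c3 (fun x hx => Surf.conn_opp hx) h1
    · intro h1
      exact Surf.Conn.lift (R := F.Conn T.next (Finset.univ.erase a)) (fun x => Surf.Conn.refl _)
        (fun x y h => h.symm) (fun x y z h h' => h.trans h') c4 (fun x hx => Surf.conn_opp hx) h1
  have hn' : ∀ e, next' e = θ (T.next (θ.symm e)) := by
    intro e
    rw [← hn, Equiv.apply_symm_apply]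
  let T' : QTri F :=
    { next := next'
      punct := T.punct
      next_cube := by
        intro e
        rw [hn' (next' (next' e)), hn' (next' e), hn' e, Equiv.symm_apply_apply,
          Equiv.symm_apply_apply, T.next_cube, Equiv.apply_symm_apply]
      punct_inj := T.punct_inj
      fixed_iff := by
        intro e
        rw [hn' e]
        constructor
        · intro h1
          have h2 : T.next (θ.symm e) = θ.symm e := by
            rw [Equiv.eq_symm_apply]; exact h1
          obtain ⟨i, hi⟩ := (T.fixed_iff _).mp h2
          refine ⟨i, ?_⟩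
          rw [← c1 i, hi, Equiv.apply_symm_apply]
        · rintro ⟨i, rfl⟩
          have h1 : θ.symm (T.punct i) = T.punct i := by
            rw [Equiv.symm_apply_eq]; exact (c1 i).symm
          rw [h1, (T.fixed_iff _).mpr ⟨i, rfl⟩]
          exact c1 i
      turn_bd := by
        intro b
        refine First.transport (P := F.Kept (Finset.univ.erase a))
          (Q := F.Kept (Finset.univ.erase a)) (P' := F.Kept ∅) (Q' := F.Kept ∅)
          (τ := F.turn T.next) (id : F.Side → F.Side)
          (fun x => Surf.kept_mono (Finset.empty_subset _))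
          (fun x => Surf.kept_mono (Finset.empty_subset _)) (fun x _ => Iff.rfl) ?_ trivial
          (T.turn_bd b)
        intro x y hx h1
        exact (hF x y hx).mp h1
      turn_all := by
        have hstep : ∀ e e', First (F.turn next') (F.Kept (Finset.univ.erase a)) e e' →
            ∃ n, (F.turn next')^[n] e = e' := by
          intro e e' h1
          induction h1 with
          | stop _ => exact ⟨1, rfl⟩
          | step _ _ ih =>
            obtain ⟨n, hn⟩ := ih
            exact ⟨n + 1, hn⟩
        have hk : ∀ e, F.Kept (Finset.univ.erase a) e →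
            ∃ (b : F.Bd) (n : ℕ), (F.turn next')^[n] (Sum.inr b) = e := by
          refine T.kept_induction (S := Finset.univ.erase a)
            (Q := fun e => ∃ (b : F.Bd) (n : ℕ), (F.turn next')^[n] (Sum.inr b) = e)
            (fun b => ⟨b, 0, rfl⟩) ?_
          rintro e e' hk ⟨b, n, hb⟩ h1
          obtain ⟨m, hm⟩ := hstep e e' ((hF e e' hk).mp h1)
          exact ⟨b, m + n, by rw [Function.iterate_add_apply, hb, hm]⟩
        intro e
        by_cases he : F.Kept (Finset.univ.erase a) e
        · exact hk e he
        · rw [h.kept] at he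
          obtain ⟨e₀, m, h1, h2⟩ : ∃ e₀ m, F.Kept (Finset.univ.erase a) e₀ ∧
              (F.turn next')^[m] e₀ = e := by
            by_cases h3 : e = p
            · rw [h3]; exact c5
            · have h4 : e = q := by
                by_contra h5; exact he ⟨h3, h5⟩
              rw [h4]; exact c6
          obtain ⟨b, n, hb⟩ := hk e₀ h1
          exact ⟨b, m + n, by rw [Function.iterate_add_apply, hb, h2]⟩
      connected := by
        intro e e'
        have h1 := T.connected e e'
        exact Surf.Conn.lift (R := F.Conn next' ∅) (fun x => Surf.Conn.refl _)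
          (fun x y h => h.symm) (fun x y z h h' => h.trans h')
          (fun x => (c3 x).mono (Finset.empty_subset _)) (fun x hx => Surf.conn_opp hx) h1 }
  refine ⟨T', fun e => rfl, ?_, ?_, ?_⟩
  · intro e e' he
    rw [Relabel.image_one, Relabel.app_one, Relabel.app_one]
    exact hF e e' he
  · intro e e'
    rw [Relabel.image_one, Relabel.app_one, Relabel.app_one]
    exact hC e e'
  · intro e i
    rw [Relabel.image_one, Relabel.app_one]
    exact hC e _

end Pool.Agent.Lib.MPde6cd8
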