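import Pool.Agent.Lib.MP_de6cd8_gt.Flip

set_option autoImplicit false

namespace Pool.Agent.Lib.MPde6cd8

theorem cyc4 {α : Type} [DecidableEq α] {x y z w : α} (hxy : x ≠ y) (hxz : x ≠ z) (hxw : x ≠ w)
    (hyz : y ≠ z) (hyw : y ≠ w) (hzw : z ≠ w) :
    ∃ θ : Equiv.Perm α, θ x = y ∧ θ y = z ∧ θ z = w ∧ θ w = x ∧
      ∀ e, e ≠ x → e ≠ y → e ≠ z → e ≠ w → θ e = e := by
  refine ⟨Equiv.swap x y * Equiv.swap y z * Equiv.swap z w, ?_, ?_, ?_, ?_, ?_⟩
  · simp [Equiv.swap_apply_of_ne_of_ne, hxy, hxz, hxw]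
  · simp [Equiv.swap_apply_of_ne_of_ne, hyz, hyw, hxz.symm, hyz.symm]
  · simp [Equiv.swap_apply_of_ne_of_ne, hyw.symm, hzw.symm, hxw.symm]
  · simp
  · intro e h1 h2 h3 h4
    simp [Equiv.swap_apply_of_ne_of_ne, h1, h2, h3, h4]

variable {F : Surf} {a : Fin F.N} {p q : F.Side}

/-- the flip in a quadrilateral. -/
theorem PQ.flipA (h : PQ F a p q) (T : QTri F) (hp : T.next p ≠ p) (hq : T.next q ≠ q) :
    ∃ T' : QTri F, RestrIso T T' (Finset.univ.erase a) Relabel.one ∧
      T'.next p = T.next (T.next p) ∧ T'.next q = T.next (T.next q) := by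
  have hx : ∃ x, x = T.next p := ⟨_, rfl⟩
  have hz : ∃ z, z = T.next q := ⟨_, rfl⟩
  obtain ⟨x, hx⟩ := hx
  obtain ⟨z, hz⟩ := hz
  have hy : ∃ y, y = T.next x := ⟨_, rfl⟩
  have hw : ∃ w, w = T.next z := ⟨_, rfl⟩
  obtain ⟨y, hy⟩ := hy
  obtain ⟨w, hw⟩ := hw
  have hy' : T.next y = p := by rw [hy, hx]; exact T.next_cube p
  have hw' : T.next w = q := by rw [hw, hz]; exact T.next_cube q
  have xp : x ≠ p := by rw [hx]; exact hp
  have xq : x ≠ q := by rw [hx]; exact h.next_p_ne T
  have zq : z ≠ q := by rw [hz]; exact hq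
  have zp : z ≠ p := by rw [hz]; exact h.symm.next_p_ne T
  have yp : y ≠ p := by rw [hy, hx]; exact T.next_next_ne hp
  have yq : y ≠ q := by rw [hy, hx]; exact h.next_next_p_ne T
  have wq : w ≠ q := by rw [hw, hz]; exact T.next_next_ne hq
  have wp : w ≠ p := by rw [hw, hz]; exact h.symm.next_next_p_ne T
  have pq' := h.ne
  have xy : x ≠ y := by
    intro h1
    rw [hx] at h1
    have : p = x := T.next.injective (h1.trans hy)
    exact xp this.symm
  have zw : z ≠ w := by
    intro h1
    rw [hz] at h1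
    have : q = z := T.next.injective (h1.trans hw)
    exact zq this.symm
  have xz : x ≠ z := by
    intro h1
    rw [hx, hz] at h1
    exact pq' (T.next.injective h1)
  have xw : x ≠ w := by
    intro h1
    have h2 : p = z := T.next.injective (hx.symm.trans (h1.trans hw))
    exact zp h2.symm
  have yz : y ≠ z := by
    intro h1
    have h2 : x = q := T.next.injective (hy.symm.trans (h1.trans hz))
    exact xq h2
  have yw : y ≠ w := by
    intro h1
    have h2 : x = z := T.next.injective (hy.symm.trans (h1.trans hw))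
    exact xz h2
  obtain ⟨θ, t1, t2, t3, t4, t5⟩ := cyc4 xy xz xw yz yw zw
  have tp : θ p = p := t5 p xp.symm yp.symm zp.symm wp.symm
  have tq : θ q = q := t5 q xq.symm yq.symm zq.symm wq.symm
  obtain ⟨next', hn⟩ : ∃ next' : Equiv.Perm F.Side, ∀ e, next' (θ e) = θ (T.next e) :=
    ⟨θ.symm.trans (T.next.trans θ), fun e => by simp⟩
  have n1 : next' p = y := by
    have := hn p; rw [tp, ← hx, t1] at this; exact this
  have n2 : next' y = z := by
    have := hn x; rw [t1, ← hy, t2] at this; exact this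
  have n3 : next' z = p := by
    have := hn y; rw [t2, hy', tp] at this; exact this
  have n4 : next' q = w := by
    have := hn q; rw [tq, ← hz, t3] at this; exact this
  have n5 : next' w = x := by
    have := hn z; rw [t3, ← hw, t4] at this; exact this
  have n6 : next' x = q := by
    have := hn w; rw [t4, hw', tq] at this; exact this
  have n7 : ∀ e, e ≠ x → e ≠ y → e ≠ z → e ≠ w → e ≠ p → e ≠ q →
      next' e = T.next e ∧ T.next e ≠ p ∧ T.next e ≠ q := by
    intro e e1 e2 e3 e4 e5 e6
    have m1 : T.next e ≠ x := fun h1 => e5 (T.next.injective (h1.trans hx))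
    have m2 : T.next e ≠ y := fun h1 => e1 (T.next.injective (h1.trans hy))
    have m3 : T.next e ≠ z := fun h1 => e6 (T.next.injective (h1.trans hz))
    have m4 : T.next e ≠ w := fun h1 => e3 (T.next.injective (h1.trans hw))
    have := hn e
    rw [t5 e e1 e2 e3 e4, t5 _ m1 m2 m3 m4] at this
    exact ⟨this, fun h1 => e2 (T.next.injective (h1.trans hy'.symm)),
      fun h1 => e4 (T.next.injective (h1.trans hw'.symm))⟩
  have kx : F.Kept (Finset.univ.erase a) x := (h.kept x).mpr ⟨xp, xq⟩
  have ky : F.Kept (Finset.univ.erase a) y := (h.kept y).mpr ⟨yp, yq⟩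
  have kz : F.Kept (Finset.univ.erase a) z := (h.kept z).mpr ⟨zp, zq⟩
  have kw : F.Kept (Finset.univ.erase a) w := (h.kept w).mpr ⟨wp, wq⟩
  have split : ∀ e, (e = x ∨ e = y ∨ e = z ∨ e = w ∨ e = p ∨ e = q) ∨
      (e ≠ x ∧ e ≠ y ∧ e ≠ z ∧ e ≠ w ∧ e ≠ p ∧ e ≠ q) := by
    intro e; tauto
  suffices key : ∃ T' : QTri F, (∀ e, T'.next e = next' e) ∧
      RestrIso T T' (Finset.univ.erase a) Relabel.one by
    obtain ⟨T', hT', hR⟩ := key
    refine ⟨T', hR, ?_, ?_⟩
    · rw [hT', n1, ← hx, ← hy]
    · rw [hT', n4, ← hz, ← hw]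
  refine h.mkFlip T θ next' hn ?_ ?_ ?_ ?_ ?_ ?_
  · intro i
    have hf : T.next (T.punct i) = T.punct i := (T.fixed_iff _).mpr ⟨i, rfl⟩
    apply t5
    · intro h1; rw [h1, ← hy] at hf; exact xy hf.symm
    · intro h1; rw [h1, hy'] at hf; exact yp hf.symm
    · intro h1; rw [h1, ← hw] at hf; exact zw hf.symm
    · intro h1; rw [h1, hw'] at hf; exact wq hf.symm
  · intro e he
    have he' := (h.kept e).mp he
    rcases split e with (rfl | rfl | rfl | rfl | h1 | h1) | ⟨e1, e2, e3, e4, e5, e6⟩
    · refine ⟨y, ?_, ?_⟩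
      · exact First.one (by rw [Surf.turn_opp, ← hy]) ky
      · refine First.two (by rw [Surf.turn_opp, n6]) h.not_kept_q ?_
        exact First.one (by rw [h.turn_q, n1]) ky
    · refine ⟨z, ?_, ?_⟩
      · refine First.two (by rw [Surf.turn_opp, hy']) h.not_kept_p ?_
        exact First.one (by rw [h.turn_p, ← hz]) kz
      · exact First.one (by rw [Surf.turn_opp, n2]) kz
    · refine ⟨w, ?_, ?_⟩
      · exact First.one (by rw [Surf.turn_opp, ← hw]) kw
      · refine First.two (by rw [Surf.turn_opp, n3]) h.not_kept_p ?_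
        exact First.one (by rw [h.turn_p, n4]) kw
    · refine ⟨x, ?_, ?_⟩
      · refine First.two (by rw [Surf.turn_opp, hw']) h.not_kept_q ?_
        exact First.one (by rw [h.turn_q, ← hx]) kx
      · exact First.one (by rw [Surf.turn_opp, n5]) kx
    · exact absurd h1 he'.1
    · exact absurd h1 he'.2
    · obtain ⟨m1, m2, m3⟩ := n7 e e1 e2 e3 e4 e5 e6
      have hk := (h.kept (T.next e)).mpr ⟨m2, m3⟩
      exact ⟨T.next e, First.one (Surf.turn_opp _) hk,
        First.one (by rw [Surf.turn_opp, m1]) hk⟩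
  · have C1 : F.Conn next' (Finset.univ.erase a) p y := by
      have := Surf.conn_next (F := F) (next := next') (S := Finset.univ.erase a) p
      rwa [n1] at this
    have C2 : F.Conn next' (Finset.univ.erase a) y z := by
      have := Surf.conn_next (F := F) (next := next') (S := Finset.univ.erase a) y
      rwa [n2] at this
    have C3 : F.Conn next' (Finset.univ.erase a) p q := by
      have := Surf.conn_opp (F := F) (next := next') (S := Finset.univ.erase a) h.not_kept_p
      rwa [h.opq] at this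
    have C4 : F.Conn next' (Finset.univ.erase a) q w := by
      have := Surf.conn_next (F := F) (next := next') (S := Finset.univ.erase a) q
      rwa [n4] at this
    have C5 : F.Conn next' (Finset.univ.erase a) w x := by
      have := Surf.conn_next (F := F) (next := next') (S := Finset.univ.erase a) w
      rwa [n5] at this
    intro e
    rcases split e with (rfl | rfl | rfl | rfl | rfl | rfl) | ⟨e1, e2, e3, e4, e5, e6⟩
    · rw [← hy]; exact ((C3.trans (C4.trans C5)).symm).trans C1
    · rw [hy']; exact C1.symm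
    · rw [← hw]; exact (C1.trans C2).symm.trans (C3.trans C4)
    · rw [hw']; exact C4.symm
    · rw [← hx]; exact C3.trans (C4.trans C5)
    · rw [← hz]; exact C3.symm.trans (C1.trans C2)
    · rw [← (n7 e e1 e2 e3 e4 e5 e6).1]; exact Surf.conn_next e
  · have C1 : F.Conn T.next (Finset.univ.erase a) p x := by
      rw [hx]; exact Surf.conn_next p
    have C2 : F.Conn T.next (Finset.univ.erase a) x y := by
      rw [hy]; exact Surf.conn_next x
    have C3 : F.Conn T.next (Finset.univ.erase a) p q := by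
      have := Surf.conn_opp (F := F) (next := T.next) (S := Finset.univ.erase a) h.not_kept_p
      rwa [h.opq] at this
    have C4 : F.Conn T.next (Finset.univ.erase a) q z := by
      rw [hz]; exact Surf.conn_next q
    have C5 : F.Conn T.next (Finset.univ.erase a) z w := by
      rw [hw]; exact Surf.conn_next z
    intro e
    rcases split e with (rfl | rfl | rfl | rfl | rfl | rfl) | ⟨e1, e2, e3, e4, e5, e6⟩
    · rw [n6]; exact C1.symm.trans C3
    · rw [n2]; exact (C1.trans C2).symm.trans (C3.trans C4)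
    · rw [n3]; exact (C3.trans C4).symm
    · rw [n5]; exact (C3.trans (C4.trans C5)).symm.trans C1
    · rw [n1]; exact C1.trans C2
    · rw [n4]; exact C4.trans C5
    · rw [(n7 e e1 e2 e3 e4 e5 e6).1]; exact Surf.conn_next e
  · refine ⟨F.opp z, 1, Surf.kept_opp.mpr kz, ?_⟩
    show F.turn next' (F.opp z) = p
    rw [Surf.turn_opp, n3]
  · refine ⟨F.opp x, 1, Surf.kept_opp.mpr kx, ?_⟩
    show F.turn next' (F.opp x) = q
    rw [Surf.turn_opp, n6]

/-- the flip in a once-punctured bigon. -/
theorem PQ.flipB (h : PQ F a p q) (T : QTri F) (hp : T.next p ≠ p) (hq : T.next q = q) :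
    ∃ T' : QTri F, RestrIso T T' (Finset.univ.erase a) Relabel.one ∧
      T'.next p = T.next (T.next p) ∧ T'.next q = T.next (T.next q) := by
  have hx : ∃ x, x = T.next p := ⟨_, rfl⟩
  obtain ⟨x, hx⟩ := hx
  have hy : ∃ y, y = T.next x := ⟨_, rfl⟩
  obtain ⟨y, hy⟩ := hy
  have hy' : T.next y = p := by rw [hy, hx]; exact T.next_cube p
  have xp : x ≠ p := by rw [hx]; exact hp
  have xq : x ≠ q := by rw [hx]; exact h.next_p_ne T
  have yp : y ≠ p := by rw [hy, hx]; exact T.next_next_ne hp
  have yq : y ≠ q := by rw [hy, hx]; exact h.next_next_p_ne T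
  have pq' := h.ne
  have xy : x ≠ y := by
    intro h1
    rw [hx] at h1
    have : p = x := T.next.injective (h1.trans hy)
    exact xp this.symm
  obtain ⟨θ, t1, t2, t5⟩ : ∃ θ : Equiv.Perm F.Side, θ x = y ∧ θ y = x ∧
      ∀ e, e ≠ x → e ≠ y → θ e = e :=
    ⟨Equiv.swap x y, Equiv.swap_apply_left x y, Equiv.swap_apply_right x y,
      fun e h1 h2 => Equiv.swap_apply_of_ne_of_ne h1 h2⟩
  have tp : θ p = p := t5 p xp.symm yp.symm
  have tq : θ q = q := t5 q xq.symm yq.symm
  obtain ⟨next', hn⟩ : ∃ next' : Equiv.Perm F.Side, ∀ e, next' (θ e) = θ (T.next e) :=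
    ⟨θ.symm.trans (T.next.trans θ), fun e => by simp⟩
  have n1 : next' p = y := by
    have := hn p; rw [tp, ← hx, t1] at this; exact this
  have n2 : next' y = x := by
    have := hn x; rw [t1, ← hy, t2] at this; exact this
  have n3 : next' x = p := by
    have := hn y; rw [t2, hy', tp] at this; exact this
  have n4 : next' q = q := by
    have := hn q; rw [tq, hq, tq] at this; exact this
  have n7 : ∀ e, e ≠ x → e ≠ y → e ≠ p → e ≠ q →
      next' e = T.next e ∧ T.next e ≠ p ∧ T.next e ≠ q := by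
    intro e e1 e2 e5 e6
    have m1 : T.next e ≠ x := fun h1 => e5 (T.next.injective (h1.trans hx))
    have m2 : T.next e ≠ y := fun h1 => e1 (T.next.injective (h1.trans hy))
    have := hn e
    rw [t5 e e1 e2, t5 _ m1 m2] at this
    exact ⟨this, fun h1 => e2 (T.next.injective (h1.trans hy'.symm)),
      fun h1 => e6 (T.next.injective (h1.trans hq.symm))⟩
  have kx : F.Kept (Finset.univ.erase a) x := (h.kept x).mpr ⟨xp, xq⟩
  have ky : F.Kept (Finset.univ.erase a) y := (h.kept y).mpr ⟨yp, yq⟩
  have split : ∀ e, (e = x ∨ e = y ∨ e = p ∨ e = q) ∨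
      (e ≠ x ∧ e ≠ y ∧ e ≠ p ∧ e ≠ q) := by
    intro e; tauto
  suffices key : ∃ T' : QTri F, (∀ e, T'.next e = next' e) ∧
      RestrIso T T' (Finset.univ.erase a) Relabel.one by
    obtain ⟨T', hT', hR⟩ := key
    refine ⟨T', hR, ?_, ?_⟩
    · rw [hT', n1, ← hx, ← hy]
    · rw [hT', n4, hq, hq]
  refine h.mkFlip T θ next' hn ?_ ?_ ?_ ?_ ?_ ?_
  · intro i
    have hf : T.next (T.punct i) = T.punct i := (T.fixed_iff _).mpr ⟨i, rfl⟩
    apply t5
    · intro h1; rw [h1, ← hy] at hf; exact xy hf.symm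
    · intro h1; rw [h1, hy'] at hf; exact yp hf.symm
  · intro e he
    have he' := (h.kept e).mp he
    rcases split e with (rfl | rfl | h1 | h1) | ⟨e1, e2, e5, e6⟩
    · refine ⟨y, ?_, ?_⟩
      · exact First.one (by rw [Surf.turn_opp, ← hy]) ky
      · refine First.two (by rw [Surf.turn_opp, n3]) h.not_kept_p ?_
        refine First.two (by rw [h.turn_p, n4]) h.not_kept_q ?_
        exact First.one (by rw [h.turn_q, n1]) ky
    · refine ⟨x, ?_, ?_⟩
      · refine First.two (by rw [Surf.turn_opp, hy']) h.not_kept_p ?_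
        refine First.two (by rw [h.turn_p, hq]) h.not_kept_q ?_
        exact First.one (by rw [h.turn_q, ← hx]) kx
      · exact First.one (by rw [Surf.turn_opp, n2]) kx
    · exact absurd h1 he'.1
    · exact absurd h1 he'.2
    · obtain ⟨m1, m2, m3⟩ := n7 e e1 e2 e5 e6
      have hk := (h.kept (T.next e)).mpr ⟨m2, m3⟩
      exact ⟨T.next e, First.one (Surf.turn_opp _) hk,
        First.one (by rw [Surf.turn_opp, m1]) hk⟩
  · have C1 : F.Conn next' (Finset.univ.erase a) p y := by
      have := Surf.conn_next (F := F) (next := next') (S := Finset.univ.erase a) p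
      rwa [n1] at this
    have C2 : F.Conn next' (Finset.univ.erase a) y x := by
      have := Surf.conn_next (F := F) (next := next') (S := Finset.univ.erase a) y
      rwa [n2] at this
    have C3 : F.Conn next' (Finset.univ.erase a) p q := by
      have := Surf.conn_opp (F := F) (next := next') (S := Finset.univ.erase a) h.not_kept_p
      rwa [h.opq] at this
    intro e
    rcases split e with (rfl | rfl | rfl | rfl) | ⟨e1, e2, e5, e6⟩
    · rw [← hy]; exact C2.symm
    · rw [hy']; exact C1.symm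
    · rw [← hx]; exact C1.trans C2
    · rw [hq]; exact Surf.Conn.refl _
    · rw [← (n7 e e1 e2 e5 e6).1]; exact Surf.conn_next e
  · have C1 : F.Conn T.next (Finset.univ.erase a) p x := by
      rw [hx]; exact Surf.conn_next p
    have C2 : F.Conn T.next (Finset.univ.erase a) x y := by
      rw [hy]; exact Surf.conn_next x
    intro e
    rcases split e with (rfl | rfl | rfl | rfl) | ⟨e1, e2, e5, e6⟩
    · rw [n3]; exact C1.symm
    · rw [n2]; exact C2.symm
    · rw [n1]; exact C1.trans C2
    · rw [n4]; exact Surf.Conn.refl _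
    · rw [(n7 e e1 e2 e5 e6).1]; exact Surf.conn_next e
  · refine ⟨F.opp x, 1, Surf.kept_opp.mpr kx, ?_⟩
    show F.turn next' (F.opp x) = p
    rw [Surf.turn_opp, n3]
  · refine ⟨F.opp x, 2, Surf.kept_opp.mpr kx, ?_⟩
    show F.turn next' (F.turn next' (F.opp x)) = q
    rw [Surf.turn_opp, n3, h.turn_p, n4]

/-- the flip. -/
theorem PQ.flip (h : PQ F a p q) (T : QTri F) (hp : T.next p ≠ p) :
    ∃ T' : QTri F, RestrIso T T' (Finset.univ.erase a) Relabel.one ∧
      T'.next p = T.next (T.next p) ∧ T'.next q = T.next (T.next q) := by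
  by_cases hq : T.next q = q
  · exact h.flipB T hp hq
  · exact h.flipA T hp hq

end Pool.Agent.Lib.MPde6cd8
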