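import Pool.Agent.Lib.MP_de6cd8_gt.Flip2

set_option autoImplicit false

namespace Pool.Agent.Lib.MPde6cd8

variable {F : Surf} {a : Fin F.N} {p q : F.Side}

/-- exchanging the two sides of an arc. -/
def Relabel.flipOne (a : Fin F.N) : Relabel F := ⟨1, fun b => decide (b = a)⟩

theorem Relabel.flipOne_kept {e : F.Side} (he : F.Kept (Finset.univ.erase a) e) :
    (Relabel.flipOne a).app e = e := by
  rcases e with ⟨b, x⟩ | b
  · have h1 : b ≠ a := (Finset.mem_erase.mp he).1
    simp [Relabel.flipOne, Relabel.app, h1]
  · rfl

theorem Relabel.flipOne_not {e : F.Side} (he : ¬ F.Kept (Finset.univ.erase a) e) :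
    (Relabel.flipOne a).app e = F.opp e := by
  rcases e with ⟨b, x⟩ | b
  · have h1 : b = a := by
      by_contra h2
      exact he (Finset.mem_erase.mpr ⟨h2, Finset.mem_univ b⟩)
    simp [Relabel.flipOne, Relabel.app, Surf.opp, h1]
  · exact absurd trivial he

theorem Relabel.flipOne_inv : (Relabel.flipOne a).inv = Relabel.flipOne a := by
  simp [Relabel.flipOne, Relabel.inv]

theorem Relabel.flipOne_image (S : Finset (Fin F.N)) :
    S.image (Relabel.flipOne a).perm = S := Relabel.image_one S

theorem restrIso_flipOne (T : QTri F) (a : Fin F.N) :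
    RestrIso T (T.map (Relabel.flipOne a)) (Finset.univ.erase a) Relabel.one := by
  have h := restrIso_map (T := T) (S := Finset.univ.erase a) (ρ := Relabel.flipOne a)
  have hc : ∀ e, F.Conn (T.map (Relabel.flipOne a)).next (Finset.univ.erase a) e
      ((Relabel.flipOne a).app e) := by
    intro e
    by_cases he : F.Kept (Finset.univ.erase a) e
    · rw [Relabel.flipOne_kept he]; exact Surf.Conn.refl _
    · rw [Relabel.flipOne_not he]; exact Surf.conn_opp he
  refine ⟨?_, ?_, ?_⟩
  · intro e e' he
    have h1 := h.turn e e' he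
    rw [Relabel.flipOne_image, Relabel.flipOne_kept he] at h1
    rw [Relabel.image_one, Relabel.app_one, Relabel.app_one]
    by_cases he' : F.Kept (Finset.univ.erase a) e'
    · rw [Relabel.flipOne_kept he'] at h1; exact h1
    · exact ⟨fun h2 => absurd h2.holds he', fun h2 => absurd h2.holds he'⟩
  · intro e e'
    have h1 := h.conn e e'
    rw [Relabel.flipOne_image] at h1
    rw [Relabel.image_one, Relabel.app_one, Relabel.app_one, h1]
    exact ⟨fun h2 => ((hc e).trans h2).trans (hc e').symm,
      fun h2 => ((hc e).symm.trans h2).trans (hc e')⟩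
  · intro e i
    have h1 := h.punct e i
    rw [Relabel.flipOne_image] at h1
    rw [Relabel.image_one, Relabel.app_one, h1]
    exact ⟨fun h2 => (hc e).trans h2, fun h2 => (hc e).symm.trans h2⟩

theorem PQ.map_next_p (h : PQ F a p q) (T : QTri F) :
    (T.map (Relabel.flipOne a)).next p = (Relabel.flipOne a).app (T.next q) := by
  rw [QTri.map_next, Relabel.flipOne_inv, Relabel.flipOne_not h.not_kept_p, h.opq]

theorem PQ.map_next_q (h : PQ F a p q) (T : QTri F) :
    (T.map (Relabel.flipOne a)).next q = (Relabel.flipOne a).app (T.next p) :=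
  h.symm.map_next_p T

/-- the region of the removed arc. -/
theorem PQ.cls (h : PQ F a p q) (T : QTri F) {e : F.Side}
    (he : F.Conn T.next (Finset.univ.erase a) p e) :
    e = p ∨ e = q ∨ e = T.next p ∨ e = T.next (T.next p) ∨ e = T.next q ∨
      e = T.next (T.next q) := by
  have key : (fun u => u = p ∨ u = q ∨ u = T.next p ∨ u = T.next (T.next p) ∨ u = T.next q ∨
      u = T.next (T.next q)) p ↔ (fun u => u = p ∨ u = q ∨ u = T.next p ∨
      u = T.next (T.next p) ∨ u = T.next q ∨ u = T.next (T.next q)) e := by
    refine Surf.Conn.lift (R := fun x y => ((fun u => u = p ∨ u = q ∨ u = T.next p ∨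
      u = T.next (T.next p) ∨ u = T.next q ∨ u = T.next (T.next q)) x ↔
      (fun u => u = p ∨ u = q ∨ u = T.next p ∨
      u = T.next (T.next p) ∨ u = T.next q ∨ u = T.next (T.next q)) y)) (fun x => Iff.rfl)
      (fun x y h => h.symm) (fun x y z h h' => h.trans h') ?_ ?_ he
    · intro x
      constructor
      · rintro (rfl | rfl | rfl | rfl | rfl | rfl)
        · right; right; left; rfl
        · right; right; right; right; left; rfl
        · right; right; right; left; rfl
        · left; exact T.next_cube _
        · right; right; right; right; right; rfl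
        · right; left; exact T.next_cube _
      · rintro (h1 | h1 | h1 | h1 | h1 | h1)
        · right; right; right; left
          exact T.next.injective (h1.trans (T.next_cube p).symm)
        · right; right; right; right; right
          exact T.next.injective (h1.trans (T.next_cube q).symm)
        · left; exact T.next.injective h1
        · right; right; left; exact T.next.injective h1
        · right; left; exact T.next.injective h1
        · right; right; right; right; left; exact T.next.injective h1
    · intro x hx
      rw [h.kept] at hx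
      by_cases h1 : x = p
      · subst h1
        rw [h.opq]
        exact ⟨fun _ => Or.inr (Or.inl rfl), fun _ => Or.inl rfl⟩
      · have h2 : x = q := by
          by_contra h3; exact hx ⟨h1, h3⟩
        subst h2
        rw [h.oqp]
        exact ⟨fun _ => Or.inl rfl, fun _ => Or.inr (Or.inl rfl)⟩
  exact key.mp (Or.inl rfl)

theorem PQ.conn_q (h : PQ F a p q) (T : QTri F) :
    F.Conn T.next (Finset.univ.erase a) p q := by
  have := Surf.conn_opp (F := F) (next := T.next) (S := Finset.univ.erase a) h.not_kept_p
  rwa [h.opq] at this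

/-- the six sides are distinct if there are two triangles. -/
theorem PQ.dist (h : PQ F a p q) (T : QTri F) (hp : T.next p ≠ p) (hq : T.next q ≠ q) :
    T.next p ≠ T.next (T.next p) ∧ T.next p ≠ T.next q ∧
      T.next (T.next p) ≠ T.next q := by
  refine ⟨?_, ?_, ?_⟩
  · intro h1
    exact hp (T.next.injective h1).symm
  · intro h1
    exact h.ne (T.next.injective h1)
  · intro h1
    exact h.next_p_ne T (T.next.injective h1)

theorem PQ.claim (h : PQ F a p q) {T T' : QTri F} (hp : T.next p ≠ p) (hq : T.next q ≠ q)
    (hR : RestrIso T T' (Finset.univ.erase a) Relabel.one) : T'.next p ≠ p := by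
  intro h1
  obtain ⟨d1, d2, d3⟩ := h.dist T hp hq
  have c1 : F.Conn T.next (Finset.univ.erase a) p (T.next p) := Surf.conn_next p
  have c2 := c1.trans (Surf.conn_next (T.next p))
  have c3 := (h.conn_q T).trans (Surf.conn_next q)
  have key : ∀ e, F.Conn T.next (Finset.univ.erase a) p e → e ≠ p → e ≠ q →
      e = T'.next q ∨ e = T'.next (T'.next q) := by
    intro e he e1 e2
    rcases h.cls T' (hR.one_conn.mp he) with h2 | h2 | h2 | h2 | h2 | h2
    · exact absurd h2 e1
    · exact absurd h2 e2
    · rw [h1] at h2; exact absurd h2 e1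
    · rw [h1, h1] at h2; exact absurd h2 e1
    · left; exact h2
    · right; exact h2
  have k1 := key _ c1 hp (h.next_p_ne T)
  have k2 := key _ c2 (T.next_next_ne hp) (h.next_next_p_ne T)
  have k3 := key _ c3 (h.symm.next_p_ne T) hq
  rcases k1 with k1 | k1 <;> rcases k2 with k2 | k2 <;> rcases k3 with k3 | k3
  · exact d1 (k1.trans k2.symm)
  · exact d1 (k1.trans k2.symm)
  · exact d2 (k1.trans k3.symm)
  · exact d3 (k2.trans k3.symm)
  · exact d3 (k2.trans k3.symm)
  · exact d2 (k1.trans k3.symm)
  · exact d1 (k1.trans k2.symm)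
  · exact d1 (k1.trans k2.symm)

/-- a maximal arc family with the same restriction away from the arc `a` is the given one or its
flip, up to exchanging the two sides of `a`. -/
theorem PQ.classify (h : PQ F a p q) {T T' Tf : QTri F} (hp : T.next p ≠ p)
    (hf : RestrIso T Tf (Finset.univ.erase a) Relabel.one)
    (hfp : Tf.next p = T.next (T.next p)) (hfq : Tf.next q = T.next (T.next q))
    (hR : RestrIso T T' (Finset.univ.erase a) Relabel.one) :
    T' = T ∨ T' = Tf ∨ T' = T.map (Relabel.flipOne a) ∨ T' = Tf.map (Relabel.flipOne a) := by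
  have kept : ∀ {e}, e ≠ p → e ≠ q → F.Kept (Finset.univ.erase a) e :=
    fun e1 e2 => (h.kept _).mpr ⟨e1, e2⟩
  have R1 : RestrIso T' T (Finset.univ.erase a) Relabel.one := hR.one_symm
  have R2 : RestrIso T' Tf (Finset.univ.erase a) Relabel.one := R1.one_trans hf
  have R3 : RestrIso T' (T.map (Relabel.flipOne a)) (Finset.univ.erase a) Relabel.one :=
    R1.one_trans (restrIso_flipOne T a)
  have R4 : RestrIso T' (Tf.map (Relabel.flipOne a)) (Finset.univ.erase a) Relabel.one :=
    R2.one_trans (restrIso_flipOne Tf a)
  have xp := hp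
  have xq := h.next_p_ne T
  have yp := T.next_next_ne hp
  have yq := h.next_next_p_ne T
  by_cases hq : T.next q = q
  · -- a once-punctured bigon
    have hb : ¬ (T'.next p ≠ p ∧ T'.next q ≠ q) := by
      rintro ⟨h1, h2⟩
      exact h.symm.claim h2 h1 R1 hq
    have hnb := h.not_both T'
    have cl : ∀ e, F.Conn T'.next (Finset.univ.erase a) p e → e ≠ p → e ≠ q →
        e = T.next p ∨ e = T.next (T.next p) := by
      intro e he e1 e2
      rcases h.cls T (R1.one_conn.mp he) with h2 | h2 | h2 | h2 | h2 | h2
      · exact absurd h2 e1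
      · exact absurd h2 e2
      · left; exact h2
      · right; exact h2
      · rw [hq] at h2; exact absurd h2 e2
      · rw [hq, hq] at h2; exact absurd h2 e2
    by_cases h1 : T'.next p = p
    · have h2 : T'.next q ≠ q := fun h3 => hnb ⟨h1, h3⟩
      rcases cl _ ((h.conn_q T').trans (Surf.conn_next q)) (h.symm.next_p_ne T') h2 with h3 | h3
      · right; right; left
        refine h.unique R3 ?_ ?_
        · rw [h.map_next_p, hq, Relabel.flipOne_not h.not_kept_q, h.oqp, h1]
        · rw [h.map_next_q, Relabel.flipOne_kept (kept xp xq), h3]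
      · right; right; right
        refine h.unique R4 ?_ ?_
        · rw [h.map_next_p, hfq, hq, hq, Relabel.flipOne_not h.not_kept_q, h.oqp, h1]
        · rw [h.map_next_q, hfp, Relabel.flipOne_kept (kept yp yq), h3]
    · have h2 : T'.next q = q := by
        by_contra h3; exact hb ⟨h1, h3⟩
      rcases cl _ (Surf.conn_next p) h1 (h.next_p_ne T') with h3 | h3
      · left
        exact h.unique R1 h3 (by rw [h2, hq])
      · right; left
        exact h.unique R2 (by rw [h3, hfp]) (by rw [h2, hfq, hq, hq])
  · -- a quadrilateral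
    have zq : T.next q ≠ q := hq
    have zp := h.symm.next_p_ne T
    have wq := T.next_next_ne hq
    have wp := h.symm.next_next_p_ne T
    have h1 : T'.next p ≠ p := h.claim hp hq hR
    have h2 : T'.next q ≠ q := h.symm.claim hq hp hR
    have h3 : T'.next p ≠ q := h.next_p_ne T'
    have h4 : T'.next q ≠ p := h.symm.next_p_ne T'
    have h5 : T'.next (T'.next p) ≠ p := T'.next_next_ne h1
    have h6 : T'.next (T'.next p) ≠ q := h.next_next_p_ne T'
    have F1 : First (F.turn T.next) (F.Kept (Finset.univ.erase a)) (F.opp (T'.next p))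
        (T'.next (T'.next p)) :=
      (R1.one_turn (Surf.kept_opp.mpr (kept h1 h3))).mp
        (First.one (Surf.turn_opp _) (kept h5 h6))
    have F2 : First (F.turn T.next) (F.Kept (Finset.univ.erase a))
        (F.opp (T'.next (T'.next p))) (T'.next q) := by
      refine (R1.one_turn (Surf.kept_opp.mpr (kept h5 h6))).mp ?_
      refine First.two (by rw [Surf.turn_opp, T'.next_cube]) h.not_kept_p ?_
      exact First.one (h.turn_p _) (kept h4 h2)
    have G1 : First (F.turn T.next) (F.Kept (Finset.univ.erase a)) (F.opp (T.next p))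
        (T.next (T.next p)) := First.one (Surf.turn_opp _) (kept yp yq)
    have G2 : First (F.turn T.next) (F.Kept (Finset.univ.erase a))
        (F.opp (T.next (T.next p))) (T.next q) := by
      refine First.two (by rw [Surf.turn_opp, T.next_cube]) h.not_kept_p ?_
      exact First.one (h.turn_p _) (kept zp zq)
    have G3 : First (F.turn T.next) (F.Kept (Finset.univ.erase a)) (F.opp (T.next q))
        (T.next (T.next q)) := First.one (Surf.turn_opp _) (kept wp wq)
    have G4 : First (F.turn T.next) (F.Kept (Finset.univ.erase a))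
        (F.opp (T.next (T.next q))) (T.next p) := by
      refine First.two (by rw [Surf.turn_opp, T.next_cube]) h.not_kept_q ?_
      exact First.one (h.turn_q _) (kept xp xq)
    rcases h.cls T (R1.one_conn.mp (Surf.conn_next p)) with h7 | h7 | h7 | h7 | h7 | h7
    · exact absurd h7 h1
    · exact absurd h7 h3
    · left
      rw [h7] at F1 F2
      have e1 := F1.unique G1
      rw [e1] at F2
      exact h.unique R1 h7 (F2.unique G2)
    · right; left
      rw [h7] at F1 F2
      have e1 := F1.unique G2
      rw [e1] at F2
      exact h.unique R2 (by rw [h7, hfp]) (by rw [hfq]; exact F2.unique G3)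
    · right; right; left
      rw [h7] at F1 F2
      have e1 := F1.unique G3
      rw [e1] at F2
      refine h.unique R3 ?_ ?_
      · rw [h.map_next_p, Relabel.flipOne_kept (kept zp zq), h7]
      · rw [h.map_next_q, Relabel.flipOne_kept (kept xp xq)]; exact F2.unique G4
    · right; right; right
      rw [h7] at F1 F2
      have e1 := F1.unique G4
      rw [e1] at F2
      refine h.unique R4 ?_ ?_
      · rw [h.map_next_p, hfq, Relabel.flipOne_kept (kept wp wq), h7]
      · rw [h.map_next_q, hfp, Relabel.flipOne_kept (kept yp yq)]; exact F2.unique G1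

/-- the flip theorem. -/
theorem exists_flip (T : QTri F) (a : Fin F.N) :
    ∃ Tf : QTri F, RestrIso T Tf (Finset.univ.erase a) Relabel.one ∧
      (∀ ρ : Relabel F, ρ.perm = 1 → ¬ RestrIso T Tf Finset.univ ρ) ∧
      ∀ T', RestrIso T T' (Finset.univ.erase a) Relabel.one →
        T' = T ∨ T' = Tf ∨ T' = T.map (Relabel.flipOne a) ∨
          T' = Tf.map (Relabel.flipOne a) := by
  obtain ⟨p, q, h, hp⟩ : ∃ p q, PQ F a p q ∧ T.next p ≠ p := by
    by_cases h1 : T.next (Sum.inl (a, true)) = Sum.inl (a, true)
    · refine ⟨Sum.inl (a, false), Sum.inl (a, true), pq a false, ?_⟩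
      intro h2
      exact (pq a true).not_both T ⟨h1, h2⟩
    · exact ⟨Sum.inl (a, true), Sum.inl (a, false), pq a true, h1⟩
  obtain ⟨Tf, hf, hfp, hfq⟩ := h.flip T hp
  refine ⟨Tf, hf, ?_, fun T' hT' => h.classify hp hf hfp hfq hT'⟩
  intro ρ hρ hR
  have kall : ∀ e : F.Side, F.Kept Finset.univ e := by
    intro e
    rcases e with ⟨b, y⟩ | b
    · exact Finset.mem_univ b
    · trivial
  have himg : ∀ S : Finset (Fin F.N), S.image ρ.perm = S := by
    intro S; rw [hρ]; exact Relabel.image_one S
  have hn : ∀ e, ρ.app (T.next e) = Tf.next (ρ.app e) := by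
    intro e
    have h1 : First (F.turn T.next) (F.Kept Finset.univ) (F.opp e) (T.next e) :=
      First.one (Surf.turn_opp e) (kall _)
    have h2 := (hR.turn _ _ (kall _)).mp h1
    rw [himg, ρ.app_opp] at h2
    have h3 : First (F.turn Tf.next) (F.Kept Finset.univ) (F.opp (ρ.app e))
        (Tf.next (ρ.app e)) := First.one (Surf.turn_opp _) (kall _)
    exact h2.unique h3
  have hfix := hf.rigid (hR.restrict (Finset.subset_univ _)) (himg _)
  have kx : F.Kept (Finset.univ.erase a) (T.next p) := (h.kept _).mpr ⟨hp, h.next_p_ne T⟩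
  have hx := hfix _ kx
  have hnk : ¬ F.Kept (Finset.univ.erase a) (ρ.app p) := by
    have := ρ.kept_app (S := Finset.univ.erase a) (e := p)
    rw [himg] at this
    intro h1
    exact h.not_kept_p (this.mp h1)
  have h1 := hn p
  rw [hx] at h1
  rw [h.kept] at hnk
  by_cases h2 : ρ.app p = p
  · rw [h2, hfp] at h1
    exact hp (T.next.injective h1).symm
  · have h3 : ρ.app p = q := by
      by_contra h4; exact hnk ⟨h2, h4⟩
    rw [h3, hfq] at h1
    have h4 : p = T.next q := T.next.injective h1
    exact h.symm.next_p_ne T h4.symm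

end Pool.Agent.Lib.MPde6cd8
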