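import Pool.Agent.Lib.MP_de6cd8_gt.First

set_option autoImplicit false

namespace Pool.Agent.Lib.MPde6cd8

theorem First.map {X Y : Type} {τ : X → X} {τ' : Y → Y} {P : X → Prop} {Q : Y → Prop}
    (f : X → Y) (hτ : ∀ x, τ' (f x) = f (τ x)) (hP : ∀ x, Q (f x) ↔ P x) {x y : X}
    (h : First τ P x y) : First τ' Q (f x) (f y) := by
  induction h with
  | stop h => exact First.one (hτ _) ((hP _).mpr h)
  | step h _ ih => exact First.two (hτ _) (fun h1 => h ((hP _).mp h1)) ih

variable {F : Surf}

theorem Surf.opp_opp (e : F.Side) : F.opp (F.opp e) = e := by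
  rcases e with ⟨a, x⟩ | b
  · simp [Surf.opp]
  · rfl

theorem Surf.kept_opp {S : Finset (Fin F.N)} {e : F.Side} :
    F.Kept S (F.opp e) ↔ F.Kept S e := by
  rcases e with ⟨a, x⟩ | b <;> exact Iff.rfl

theorem Surf.kept_mono {S S' : Finset (Fin F.N)} (h : S' ⊆ S) {e : F.Side}
    (he : F.Kept S' e) : F.Kept S e := by
  rcases e with ⟨a, x⟩ | b
  · exact h he
  · trivial

theorem Surf.turn_opp {next : F.Side → F.Side} (e : F.Side) :
    F.turn next (F.opp e) = next e := by
  unfold Surf.turn; rw [Surf.opp_opp]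

namespace Relabel

theorem app_opp (ρ : Relabel F) (e : F.Side) : ρ.app (F.opp e) = F.opp (ρ.app e) := by
  rcases e with ⟨a, x⟩ | b
  · simp [Surf.opp, Relabel.app]
  · rfl

theorem kept_app (ρ : Relabel F) {S : Finset (Fin F.N)} {e : F.Side} :
    F.Kept (S.image ρ.perm) (ρ.app e) ↔ F.Kept S e := by
  rcases e with ⟨a, x⟩ | b
  · show ρ.perm a ∈ S.image ρ.perm ↔ a ∈ S
    rw [Finset.mem_image]
    constructor
    · rintro ⟨a', ha', h⟩
      rwa [← ρ.perm.injective h]
    · intro h; exact ⟨a, h, rfl⟩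
  · exact Iff.rfl

/-- the identity relabelling. -/
def one : Relabel F := ⟨1, fun _ => false⟩

/-- composition of relabellings. -/
def comp (σ ρ : Relabel F) : Relabel F :=
  ⟨σ.perm * ρ.perm, fun a => xor (σ.flip (ρ.perm a)) (ρ.flip a)⟩

/-- the inverse relabelling. -/
def inv (ρ : Relabel F) : Relabel F := ⟨ρ.perm⁻¹, fun a => ρ.flip (ρ.perm⁻¹ a)⟩

theorem app_one (e : F.Side) : (one : Relabel F).app e = e := by
  rcases e with ⟨a, x⟩ | b
  · simp [one, Relabel.app]
  · rfl

theorem app_comp (σ ρ : Relabel F) (e : F.Side) : (σ.comp ρ).app e = σ.app (ρ.app e) := by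
  rcases e with ⟨a, x⟩ | b
  · simp [comp, Relabel.app]
  · rfl

theorem inv_app (ρ : Relabel F) (e : F.Side) : ρ.inv.app (ρ.app e) = e := by
  rcases e with ⟨a, x⟩ | b
  · simp [inv, Relabel.app]
  · rfl

theorem app_inv (ρ : Relabel F) (e : F.Side) : ρ.app (ρ.inv.app e) = e := by
  rcases e with ⟨a, x⟩ | b
  · simp [inv, Relabel.app]
  · rfl

theorem image_one (S : Finset (Fin F.N)) : S.image (one : Relabel F).perm = S := by
  ext x; simp [one]

theorem image_comp (σ ρ : Relabel F) (S : Finset (Fin F.N)) :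
    S.image (σ.comp ρ).perm = (S.image ρ.perm).image σ.perm := by
  rw [Finset.image_image]; rfl

theorem image_inv (ρ : Relabel F) (S : Finset (Fin F.N)) :
    (S.image ρ.perm).image ρ.inv.perm = S := by
  rw [Finset.image_image]
  ext x; simp [inv]

theorem image_inv' (ρ : Relabel F) (S : Finset (Fin F.N)) :
    (S.image ρ.inv.perm).image ρ.perm = S := by
  rw [Finset.image_image]
  ext x; simp [inv]

/-- the permutation of the sides. -/
def equiv (ρ : Relabel F) : Equiv.Perm F.Side where
  toFun := ρ.app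
  invFun := ρ.inv.app
  left_inv := ρ.inv_app
  right_inv := ρ.app_inv

theorem app_inj (ρ : Relabel F) {e e' : F.Side} (h : ρ.app e = ρ.app e') : e = e' := by
  rw [← ρ.inv_app e, h, ρ.inv_app]

end Relabel

theorem Surf.Conn.refl {next : F.Side → F.Side} {S : Finset (Fin F.N)} (e : F.Side) :
    F.Conn next S e e := Relation.EqvGen.refl e

theorem Surf.Conn.symm {next : F.Side → F.Side} {S : Finset (Fin F.N)} {e e' : F.Side}
    (h : F.Conn next S e e') : F.Conn next S e' e := Relation.EqvGen.symm _ _ h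

theorem Surf.Conn.trans {next : F.Side → F.Side} {S : Finset (Fin F.N)} {e e' e'' : F.Side}
    (h : F.Conn next S e e') (h' : F.Conn next S e' e'') : F.Conn next S e e'' :=
  Relation.EqvGen.trans _ _ _ h h'

theorem Surf.conn_next {next : F.Side → F.Side} {S : Finset (Fin F.N)} (e : F.Side) :
    F.Conn next S e (next e) := Relation.EqvGen.rel _ _ (Or.inl rfl)

theorem Surf.conn_opp {next : F.Side → F.Side} {S : Finset (Fin F.N)} {e : F.Side}
    (he : ¬ F.Kept S e) : F.Conn next S e (F.opp e) := Relation.EqvGen.rel _ _ (Or.inr ⟨he, rfl⟩)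

/-- induction principle for `Conn`: equivalence relations containing the generators. -/
theorem Surf.Conn.lift {next : F.Side → F.Side} {S : Finset (Fin F.N)}
    {R : F.Side → F.Side → Prop} (h0 : ∀ x, R x x) (h1 : ∀ x y, R x y → R y x)
    (h2 : ∀ x y z, R x y → R y z → R x z) (h3 : ∀ x, R x (next x))
    (h4 : ∀ x, ¬ F.Kept S x → R x (F.opp x)) {e e' : F.Side} (h : F.Conn next S e e') :
    R e e' := by
  induction h with
  | rel x y h =>
    rcases h with rfl | ⟨h, rfl⟩
    · exact h3 x
    · exact h4 x h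
  | refl x => exact h0 x
  | symm x y _ ih => exact h1 _ _ ih
  | trans x y z _ _ ih1 ih2 => exact h2 _ _ _ ih1 ih2

theorem Surf.Conn.transport {next next' : F.Side → F.Side} {S S' : Finset (Fin F.N)}
    {ρ : Relabel F}
    (h : ∀ e, F.Conn next' (S'.image ρ.perm) (ρ.app e) (ρ.app (next e)))
    {e e' : F.Side} (he : F.Conn next S' e e') :
    F.Conn next' (S'.image ρ.perm) (ρ.app e) (ρ.app e') := by
  have _ := S
  refine Surf.Conn.lift (R := fun x y => F.Conn next' (S'.image ρ.perm) (ρ.app x) (ρ.app y))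
    (fun x => Surf.Conn.refl _) (fun x y h => h.symm) (fun x y z h h' => h.trans h') h ?_ he
  intro x hx
  rw [ρ.app_opp]
  exact Surf.conn_opp (fun h1 => hx (ρ.kept_app.mp h1))

theorem Surf.Conn.mono {next : F.Side → F.Side} {S S' : Finset (Fin F.N)} (hS : S' ⊆ S)
    {e e' : F.Side} (he : F.Conn next S e e') : F.Conn next S' e e' := by
  refine Surf.Conn.lift (R := F.Conn next S')
    (fun x => Surf.Conn.refl _) (fun x y h => h.symm) (fun x y z h h' => h.trans h')
    (fun x => Surf.conn_next x) ?_ he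
  intro x hx
  exact Surf.conn_opp (fun h1 => hx (Surf.kept_mono hS h1))

/-- one half of `RestrIso`. -/
structure Hom (T T' : QTri F) (S : Finset (Fin F.N)) (ρ : Relabel F) : Prop where
  turn : ∀ e e', F.Kept S e → First (F.turn T.next) (F.Kept S) e e' →
    First (F.turn T'.next) (F.Kept (S.image ρ.perm)) (ρ.app e) (ρ.app e')
  conn : ∀ e e', F.Conn T.next S e e' →
    F.Conn T'.next (S.image ρ.perm) (ρ.app e) (ρ.app e')
  punct : ∀ i, F.Conn T'.next (S.image ρ.perm) (ρ.app (T.punct i)) (T'.punct i)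

variable {T T' T'' : QTri F} {S S' : Finset (Fin F.N)} {ρ σ : Relabel F}

theorem restrIso_iff :
    RestrIso T T' S ρ ↔ Hom T T' S ρ ∧ Hom T' T (S.image ρ.perm) ρ.inv := by
  constructor
  · intro h
    refine ⟨⟨fun e e' he => (h.turn e e' he).mp, fun e e' => (h.conn e e').mp, ?_⟩, ?_, ?_, ?_⟩
    · intro i
      exact (h.punct _ i).mp (Surf.Conn.refl _)
    · intro e e' he h1
      rw [ρ.image_inv]
      have h2 := h.turn (ρ.inv.app e) (ρ.inv.app e')
        (ρ.kept_app.mp (by rw [ρ.app_inv]; exact he))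
      rw [ρ.app_inv, ρ.app_inv] at h2
      exact h2.mpr h1
    · intro e e' h1
      rw [ρ.image_inv]
      have h2 := h.conn (ρ.inv.app e) (ρ.inv.app e')
      rw [ρ.app_inv, ρ.app_inv] at h2
      exact h2.mpr h1
    · intro i
      rw [ρ.image_inv]
      have h2 := h.punct (ρ.inv.app (T'.punct i)) i
      rw [ρ.app_inv] at h2
      exact h2.mpr (Surf.Conn.refl _)
  · rintro ⟨h, h'⟩
    refine ⟨?_, ?_, ?_⟩
    · intro e e' he
      refine ⟨h.turn e e' he, ?_⟩
      intro h1
      have h2 := h'.turn _ _ (ρ.kept_app.mpr he) h1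
      rwa [ρ.image_inv, ρ.inv_app, ρ.inv_app] at h2
    · intro e e'
      refine ⟨h.conn e e', ?_⟩
      intro h1
      have h2 := h'.conn _ _ h1
      rwa [ρ.image_inv, ρ.inv_app, ρ.inv_app] at h2
    · intro e i
      constructor
      · intro h1
        exact (h.conn _ _ h1).trans (h.punct i)
      · intro h1
        have h2 := h'.conn _ _ h1
        have h3 := h'.punct i
        rw [ρ.image_inv, ρ.inv_app] at h2
        rw [ρ.image_inv] at h3
        exact h2.trans h3

theorem Hom.one : Hom T T S Relabel.one := by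
  refine ⟨?_, ?_, ?_⟩
  · intro e e' _ h
    rwa [Relabel.image_one, Relabel.app_one, Relabel.app_one]
  · intro e e' h
    rwa [Relabel.image_one, Relabel.app_one, Relabel.app_one]
  · intro i
    rw [Relabel.image_one, Relabel.app_one]
    exact Surf.Conn.refl _

theorem Hom.comp (h : Hom T T' S ρ) (h' : Hom T' T'' (S.image ρ.perm) σ) :
    Hom T T'' S (σ.comp ρ) := by
  refine ⟨?_, ?_, ?_⟩
  · intro e e' he h1
    rw [Relabel.image_comp, Relabel.app_comp, Relabel.app_comp]
    exact h'.turn _ _ (ρ.kept_app.mpr he) (h.turn _ _ he h1)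
  · intro e e' h1
    rw [Relabel.image_comp, Relabel.app_comp, Relabel.app_comp]
    exact h'.conn _ _ (h.conn _ _ h1)
  · intro i
    rw [Relabel.image_comp, Relabel.app_comp]
    exact (h'.conn _ _ (h.punct i)).trans (h'.punct i)

theorem Hom.restrict (h : Hom T T' S ρ) (hS : S' ⊆ S) : Hom T T' S' ρ := by
  have hS2 : S'.image ρ.perm ⊆ S.image ρ.perm := Finset.image_subset_image hS
  refine ⟨?_, ?_, ?_⟩
  · intro e e' he h1
    refine First.transport (P := F.Kept S) (Q := F.Kept (S.image ρ.perm)) ρ.app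
      (fun x => Surf.kept_mono hS) (fun x => Surf.kept_mono hS2) ?_ ?_ (Surf.kept_mono hS he) h1
    · intro x _; exact ρ.kept_app
    · intro x y hx h2; exact h.turn x y hx h2
  · intro e e' h1
    refine Surf.Conn.transport (S := S) ?_ h1
    intro x
    exact (h.conn _ _ (Surf.conn_next x)).mono hS2
  · intro i
    exact (h.punct i).mono hS2

theorem RestrIso.refl : RestrIso T T S Relabel.one := by
  rw [restrIso_iff]
  refine ⟨Hom.one, ?_⟩
  rw [Relabel.image_one]
  exact Hom.one

theorem Relabel.inv_inv (ρ : Relabel F) : ρ.inv.inv = ρ := by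
  cases ρ with
  | mk p f => simp [Relabel.inv]

theorem Relabel.comp_inv (ρ : Relabel F) : ρ.comp ρ.inv = Relabel.one := by
  cases ρ with
  | mk p f => simp [Relabel.inv, Relabel.comp, Relabel.one]

theorem Relabel.inv_comp (ρ : Relabel F) : ρ.inv.comp ρ = Relabel.one := by
  cases ρ with
  | mk p f => simp [Relabel.inv, Relabel.comp, Relabel.one]

theorem Relabel.comp_inv_rev (σ ρ : Relabel F) : (σ.comp ρ).inv = ρ.inv.comp σ.inv := by
  cases ρ with
  | mk p f =>
    cases σ with
    | mk q g =>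
      simp only [Relabel.inv, Relabel.comp, mul_inv_rev, Relabel.mk.injEq, true_and]
      funext a
      simp [Bool.xor_comm]

theorem RestrIso.symm (h : RestrIso T T' S ρ) : RestrIso T' T (S.image ρ.perm) ρ.inv := by
  rw [restrIso_iff] at h ⊢
  refine ⟨h.2, ?_⟩
  rw [ρ.image_inv, Relabel.inv_inv]
  exact h.1

theorem RestrIso.trans (h : RestrIso T T' S ρ) (h' : RestrIso T' T'' (S.image ρ.perm) σ) :
    RestrIso T T'' S (σ.comp ρ) := by
  rw [restrIso_iff] at h h' ⊢
  refine ⟨h.1.comp h'.1, ?_⟩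
  rw [Relabel.comp_inv_rev, Relabel.image_comp]
  refine h'.2.comp ?_
  rw [σ.image_inv]
  exact h.2

theorem RestrIso.restrict (h : RestrIso T T' S ρ) (hS : S' ⊆ S) : RestrIso T T' S' ρ := by
  rw [restrIso_iff] at h ⊢
  exact ⟨h.1.restrict hS, h.2.restrict (Finset.image_subset_image hS)⟩

/-- transport of a maximal arc family by a relabelling. -/
def QTri.map (T : QTri F) (ρ : Relabel F) : QTri F where
  next := ρ.equiv.symm.trans (T.next.trans ρ.equiv)
  punct i := ρ.app (T.punct i)
  next_cube := by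
    intro e
    show ρ.app (T.next (ρ.inv.app (ρ.app (T.next (ρ.inv.app (ρ.app (T.next (ρ.inv.app e)))))))) = e
    rw [ρ.inv_app, ρ.inv_app, T.next_cube, ρ.app_inv]
  punct_inj := by
    intro i j hij
    exact T.punct_inj (ρ.app_inj hij)
  fixed_iff := by
    intro e
    show ρ.app (T.next (ρ.inv.app e)) = e ↔ ∃ i, ρ.app (T.punct i) = e
    have h := T.fixed_iff (ρ.inv.app e)
    constructor
    · intro h1
      have h2 : T.next (ρ.inv.app e) = ρ.inv.app e := by
        apply ρ.app_inj; rw [h1, ρ.app_inv]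
      obtain ⟨i, hi⟩ := h.mp h2
      exact ⟨i, by rw [hi, ρ.app_inv]⟩
    · rintro ⟨i, hi⟩
      have h2 : T.punct i = ρ.inv.app e := by rw [← hi, ρ.inv_app]
      rw [h.mpr ⟨i, h2⟩, ρ.app_inv]
  turn_bd := by
    intro b
    refine First.map (τ := F.turn T.next) (P := F.Kept ∅) ρ.app ?_ ?_ (T.turn_bd b)
    · intro x
      show ρ.app (T.next (ρ.inv.app (F.opp (ρ.app x)))) = ρ.app (T.next (F.opp x))
      rw [← ρ.app_opp, ρ.inv_app]
    · intro x
      have := ρ.kept_app (S := ∅) (e := x)
      rwa [Finset.image_empty] at this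
  turn_all := by
    intro e
    obtain ⟨b, n, h⟩ := T.turn_all (ρ.inv.app e)
    refine ⟨b, n, ?_⟩
    have hs : Function.Semiconj ρ.app (F.turn T.next)
        (F.turn (ρ.equiv.symm.trans (T.next.trans ρ.equiv))) := by
      intro x
      show ρ.app (T.next (F.opp x)) = ρ.app (T.next (ρ.inv.app (F.opp (ρ.app x))))
      rw [← ρ.app_opp, ρ.inv_app]
    have h2 := (hs.iterate_right n) (Sum.inr b)
    rw [h, ρ.app_inv] at h2
    exact h2.symm
  connected := by
    intro e e'
    have h := T.connected (ρ.inv.app e) (ρ.inv.app e')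
    have h2 := Surf.Conn.transport (S := ∅) (S' := ∅) (ρ := ρ) (next := T.next)
      (next' := ρ.equiv.symm.trans (T.next.trans ρ.equiv)) ?_ h
    · rwa [Finset.image_empty, ρ.app_inv, ρ.app_inv] at h2
    · intro x
      refine Relation.EqvGen.rel _ _ (Or.inl ?_)
      show ρ.app (T.next x) = ρ.app (T.next (ρ.inv.app (ρ.app x)))
      rw [ρ.inv_app]

theorem QTri.map_next (T : QTri F) (ρ : Relabel F) (e : F.Side) :
    (T.map ρ).next e = ρ.app (T.next (ρ.inv.app e)) := rfl

theorem QTri.map_punct (T : QTri F) (ρ : Relabel F) (i : Fin F.s) :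
    (T.map ρ).punct i = ρ.app (T.punct i) := rfl

theorem hom_map : Hom T (T.map ρ) S ρ := by
  refine ⟨?_, ?_, ?_⟩
  · intro e e' _ h
    refine First.map ρ.app ?_ (fun x => ρ.kept_app) h
    intro x
    show ρ.app (T.next (ρ.inv.app (F.opp (ρ.app x)))) = ρ.app (T.next (F.opp x))
    rw [← ρ.app_opp, ρ.inv_app]
  · intro e e' h
    refine Surf.Conn.transport (S := S) ?_ h
    intro x
    refine Relation.EqvGen.rel _ _ (Or.inl ?_)
    show ρ.app (T.next x) = ρ.app (T.next (ρ.inv.app (ρ.app x)))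
    rw [ρ.inv_app]
  · intro i
    exact Surf.Conn.refl _

theorem QTri.ext' {T T' : QTri F} (h : ∀ e, T.next e = T'.next e)
    (h' : ∀ i, T.punct i = T'.punct i) : T = T' := by
  have h1 : T.next = T'.next := Equiv.ext h
  have h2 : T.punct = T'.punct := funext h'
  cases T; cases T'
  cases h1; cases h2
  rfl

theorem QTri.map_inv : (T.map ρ).map ρ.inv = T := by
  refine QTri.ext' ?_ ?_
  · intro e
    rw [QTri.map_next, QTri.map_next, Relabel.inv_inv, ρ.inv_app, ρ.inv_app]
  · intro i
    rw [QTri.map_punct, QTri.map_punct, ρ.inv_app]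

theorem restrIso_map : RestrIso T (T.map ρ) S ρ := by
  rw [restrIso_iff]
  refine ⟨hom_map, ?_⟩
  have h := hom_map (T := T.map ρ) (S := S.image ρ.perm) (ρ := ρ.inv)
  rwa [QTri.map_inv] at h

end Pool.Agent.Lib.MPde6cd8
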