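import Pool.Agent.Lib.MP_de6cd8_gt.PL

set_option autoImplicit false

namespace Pool.Agent.Lib.MPde6cd8

theorem SC.ext' {K L : SC} (h : K.faces = L.faces) : K = L := by
  cases K; cases L; cases h; rfl

theorem SC.vertex_of_mem {K : SC} {s : Finset ℕ} (hs : s ∈ K.faces) {v : ℕ} (hv : v ∈ s) :
    K.IsVertex v := K.down s hs {v} (Finset.singleton_subset_iff.mpr hv)

section Iso

variable {K L : SC} {f : ℕ → ℕ}

theorem iso_vertex (h : L.faces = K.faces.image (Finset.image f)) {w : ℕ} (hw : L.IsVertex w) :
    ∃ v, K.IsVertex v ∧ f v = w := by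
  unfold SC.IsVertex at hw
  rw [h, Finset.mem_image] at hw
  obtain ⟨s, hs, hsw⟩ := hw
  have : w ∈ s.image f := by rw [hsw]; exact Finset.mem_singleton_self w
  obtain ⟨v, hv, rfl⟩ := Finset.mem_image.mp this
  exact ⟨v, SC.vertex_of_mem hs hv, rfl⟩

theorem isPM_iso {d : ℕ} (hf : Set.InjOn f {v | K.IsVertex v})
    (h : L.faces = K.faces.image (Finset.image f)) (hK : IsPM d K) : IsPM d L := by
  have hcard : ∀ s ∈ K.faces, (s.image f).card = s.card := by
    intro s hs
    apply Finset.card_image_of_injOn
    intro x hx y hy hxy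
    exact hf (SC.vertex_of_mem hs hx) (SC.vertex_of_mem hs hy) hxy
  rw [isPM_iff] at hK ⊢
  obtain ⟨h1, h2⟩ := hK
  constructor
  · intro s' hs'
    rw [h, Finset.mem_image] at hs'
    obtain ⟨s, hs, rfl⟩ := hs'
    obtain ⟨t, ht, hst, htc⟩ := h1 s hs
    refine ⟨t.image f, ?_, Finset.image_subset_image hst, ?_⟩
    · rw [h]; exact Finset.mem_image_of_mem _ ht
    · rw [hcard t ht, htc]
  · intro s' hs' hc
    rw [h, Finset.mem_image] at hs'
    obtain ⟨s, hs, rfl⟩ := hs'
    rw [hcard s hs] at hc
    have h3 : up L (s.image f) = (up K s).image f := by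
      ext w
      have e : w ∈ (up K s).image f ↔ ∃ v ∈ up K s, f v = w := Finset.mem_image
      rw [mem_up, e]
      constructor
      · rintro ⟨a1, a2⟩
        obtain ⟨v, hv, rfl⟩ := iso_vertex h (SC.vertex_of_mem a2 (Finset.mem_insert_self _ _))
        refine ⟨v, ?_, rfl⟩
        rw [mem_up]
        refine ⟨fun hvs => a1 (Finset.mem_image_of_mem f hvs), ?_⟩
        rw [h, Finset.mem_image] at a2
        obtain ⟨t, ht, hte⟩ := a2
        have : t = insert v s := by
          ext x
          constructor
          · intro hx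
            have hx' : f x ∈ insert (f v) (s.image f) := by
              rw [← hte]; exact Finset.mem_image_of_mem f hx
            rw [Finset.mem_insert, Finset.mem_image] at hx'
            rcases hx' with hx' | ⟨y, hy, hyx⟩
            · have : x = v := hf (SC.vertex_of_mem ht hx) hv hx'
              rw [this]; exact Finset.mem_insert_self v s
            · have : y = x := hf (SC.vertex_of_mem hs hy) (SC.vertex_of_mem ht hx) hyx
              rw [← this]; exact Finset.mem_insert_of_mem hy
          · intro hx
            have hxv : K.IsVertex x := by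
              rcases Finset.mem_insert.mp hx with rfl | hx
              · exact hv
              · exact SC.vertex_of_mem hs hx
            have hx' : f x ∈ t.image f := by
              rw [hte, Finset.mem_insert, Finset.mem_image]
              rcases Finset.mem_insert.mp hx with rfl | hx
              · left; rfl
              · right; exact ⟨x, hx, rfl⟩
            obtain ⟨y, hy, hyx⟩ := Finset.mem_image.mp hx'
            have : y = x := hf (SC.vertex_of_mem ht hy) hxv hyx
            rw [← this]; exact hy
        rw [← this]; exact ht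
      · rintro ⟨v, hv, rfl⟩
        rw [mem_up] at hv
        have hvv : K.IsVertex v := SC.vertex_of_mem hv.2 (Finset.mem_insert_self v s)
        refine ⟨?_, ?_⟩
        · intro hmem
          obtain ⟨y, hy, hyv⟩ := Finset.mem_image.mp hmem
          have : y = v := hf (SC.vertex_of_mem hs hy) hvv hyv
          exact hv.1 (this ▸ hy)
        · rw [h, ← Finset.image_insert]
          exact Finset.mem_image_of_mem _ hv.2
    rw [h3, Finset.card_image_of_injOn]
    · exact h2 s hs hc
    · intro x hx y hy hxy
      rw [Finset.mem_coe, mem_up] at hx hy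
      exact hf (SC.vertex_of_mem hx.2 (Finset.mem_insert_self _ _))
        (SC.vertex_of_mem hy.2 (Finset.mem_insert_self _ _)) hxy

/-- isomorphisms are invertible. -/
theorem iso_inv (hf : Set.InjOn f {v | K.IsVertex v})
    (h : L.faces = K.faces.image (Finset.image f)) :
    ∃ g : ℕ → ℕ, Set.InjOn g {v | L.IsVertex v} ∧ K.faces = L.faces.image (Finset.image g) := by
  let g := Function.invFunOn f {v | K.IsVertex v}
  have hg : ∀ v, K.IsVertex v → g (f v) = v := by
    intro v hv
    have h1 : f v ∈ f '' {v | K.IsVertex v} := ⟨v, hv, rfl⟩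
    exact hf (Function.invFunOn_mem h1) hv (Function.invFunOn_eq h1)
  refine ⟨g, ?_, ?_⟩
  · intro x hx y hy hxy
    obtain ⟨v, hv, rfl⟩ := iso_vertex h hx
    obtain ⟨w, hw, rfl⟩ := iso_vertex h hy
    rw [hg v hv, hg w hw] at hxy
    rw [hxy]
  · have himg : ∀ s ∈ K.faces, (s.image f).image g = s := by
      intro s hs
      rw [Finset.image_image]
      ext x
      rw [Finset.mem_image]
      constructor
      · rintro ⟨y, hy, rfl⟩
        rw [Function.comp_apply, hg y (SC.vertex_of_mem hs hy)]; exact hy
      · intro hx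
        exact ⟨x, hx, hg x (SC.vertex_of_mem hs hx)⟩
    ext s
    rw [h, Finset.mem_image]
    constructor
    · intro hs
      exact ⟨s.image f, Finset.mem_image_of_mem _ hs, himg s hs⟩
    · rintro ⟨t, ht, rfl⟩
      obtain ⟨r, hr, rfl⟩ := Finset.mem_image.mp ht
      rw [himg r hr]; exact hr

end Iso

/-- being a closed pseudomanifold of dimension `d` is invariant under PL equivalence. -/
theorem isPM_congr {d : ℕ} {K L : SC} (h : PLEquiv K L) : IsPM d K ↔ IsPM d L := by
  induction h with
  | refl K => exact Iff.rfl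
  | symm _ ih => exact ih.symm
  | trans _ _ ih1 ih2 => exact ih1.trans ih2
  | iso f hf h =>
    constructor
    · exact isPM_iso hf h
    · obtain ⟨g, hg, hg'⟩ := iso_inv hf h
      exact isPM_iso hg hg'
  | stellar K σ a hσ hne ha => exact ⟨isPM_stellar, isPM_of_stellar⟩

/-- a zero dimensional closed pseudomanifold is a 0-sphere. -/
theorem sphere_of_isPM_zero {K : SC} (h : IsPM 0 K) : PLEquiv (SC.sphere 0) K := by
  have hcard := fun s hs => h.card_le (s := s) hs
  rw [isPM_iff] at h
  have h2 := h.2 ∅ K.empty_mem rfl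
  obtain ⟨x, y, hxy, hu⟩ := Finset.card_eq_two.mp h2
  have hx : ({x} : Finset ℕ) ∈ K.faces := by
    have : x ∈ up K ∅ := by rw [hu]; simp
    rw [mem_up] at this
    simpa using this.2
  have hy : ({y} : Finset ℕ) ∈ K.faces := by
    have : y ∈ up K ∅ := by rw [hu]; simp
    rw [mem_up] at this
    simpa using this.2
  refine PLEquiv.iso (fun n => if n = 0 then x else y) ?_ ?_
  · intro a ha b hb hab
    have key : ∀ a, (SC.sphere 0).IsVertex a → a = 0 ∨ a = 1 := by
      intro a ha
      have : ({a} : Finset ℕ) ∈ ((Finset.range 2).powerset.erase (Finset.range 2)) := ha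
      rw [Finset.mem_erase, Finset.mem_powerset, Finset.singleton_subset_iff,
        Finset.mem_range] at this
      omega
    rcases key a ha with rfl | rfl <;> rcases key b hb with rfl | rfl
    · rfl
    · simp at hab; exact absurd hab hxy
    · simp at hab; exact absurd hab.symm hxy
    · rfl
  · ext s
    have hs0 : (SC.sphere 0).faces = {∅, {0}, {1}} := by decide
    rw [hs0]
    simp only [Finset.image_insert, Finset.image_singleton, Finset.image_empty, if_true,
      one_ne_zero, if_false, Finset.mem_insert, Finset.mem_singleton]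
    constructor
    · intro hs
      have hc := hcard s hs
      rcases Nat.eq_zero_or_pos s.card with h0 | h0
      · left; exact Finset.card_eq_zero.mp h0
      · right
        have h1 : s.card = 1 := by omega
        obtain ⟨z, rfl⟩ := Finset.card_eq_one.mp h1
        have : z ∈ up K ∅ := mem_up.mpr ⟨Finset.notMem_empty z, by simpa using hs⟩
        rw [hu, Finset.mem_insert, Finset.mem_singleton] at this
        rcases this with rfl | rfl
        · left; rfl
        · right; rfl
    · rintro (rfl | rfl | rfl)
      · exact K.empty_mem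
      · exact hx
      · exact hy

theorem typeLT_mono {T₁ : SC → Prop} {m n : ℕ} (hmn : m ≤ n) {K : SC} (h : TypeLT T₁ m K) :
    TypeLT T₁ n K := by
  induction n with
  | zero =>
    have : m = 0 := by omega
    rw [this] at h; exact h
  | succ n ih =>
    rcases Nat.lt_or_ge m (n + 1) with h1 | h1
    · exact Or.inl (ih (by omega))
    · have : m = n + 1 := by omega
      rw [this] at h; exact h

/-- closed pseudomanifolds are nonempty. -/
theorem IsPM.exists_vertex {d : ℕ} {K : SC} (h : IsPM d K) : ∃ v, K.IsVertex v := by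
  obtain ⟨t, ht, -, hc⟩ := h.1 ∅ K.empty_mem
  have hpos : 0 < t.card := by omega
  obtain ⟨v, hv⟩ := Finset.card_pos.mp hpos
  exact ⟨v, SC.vertex_of_mem ht hv⟩

/-- Every closed pseudomanifold of dimension `d` is of type less than `d + 3`. -/
theorem isPM_typeLT (T₁ : SC → Prop) (d : ℕ) : ∀ K : SC, IsPM d K → TypeLT T₁ (d + 3) K := by
  induction d with
  | zero =>
    intro K hK
    have h1 : TypeLT T₁ 1 K := Or.inr ⟨0, sphere_of_isPM_zero hK⟩
    exact typeLT_mono (by omega) h1
  | succ d ih =>
    intro K hK
    refine Or.inr ?_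
    show (∃ v, K.IsVertex v) ∧
      ∀ K', PLEquiv K K' → ∀ v, K'.IsVertex v → ∃ X, TypeLT T₁ (d + 3) X ∧ ∃ k : ℕ,
      PLEquiv (SC.susp^[k] X) (K'.link v) ∨
      ∃ Y, TypeLT T₁ (d + 3) Y ∧ PLEquiv (SC.susp^[k] (X.join Y)) (K'.link v)
    refine ⟨hK.exists_vertex, ?_⟩
    intro K' hKK' v hv
    have hK' := (isPM_congr hKK').mp hK
    exact ⟨K'.link v, ih _ (hK'.link hv), 0, Or.inl (PLEquiv.refl _)⟩

theorem typeLT_iff {T₁ : SC → Prop} {n : ℕ} {K : SC} :
    TypeLT T₁ n K ↔ ∃ m < n, IsType T₁ m K := by
  induction n with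
  | zero => simp [TypeLT]
  | succ n ih =>
    constructor
    · rintro (h | h)
      · obtain ⟨m, hm, h⟩ := ih.mp h
        exact ⟨m, by omega, h⟩
      · exact ⟨n, by omega, h⟩
    · rintro ⟨m, hm, h⟩
      rcases Nat.lt_or_ge m n with h1 | h1
      · exact Or.inl (ih.mpr ⟨m, h1, h⟩)
      · have : m = n := by omega
        subst this
        exact Or.inr h

/-- Closed pseudomanifolds are of finite type. -/
theorem isPM_isType (T₁ : SC → Prop) {d : ℕ} {K : SC} (hK : IsPM d K) :
    ∃ n ≤ d + 2, IsType T₁ n K := by
  obtain ⟨m, hm, h⟩ := typeLT_iff.mp (isPM_typeLT T₁ d K hK)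
  exact ⟨m, by omega, h⟩

end Pool.Agent.Lib.MPde6cd8
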