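import Pool.Agent.Lib.MP_de6cd8_gt.Flip3
import Pool.Agent.Lib.MP_de6cd8_gt.Chains
import Pool.Agent.Lib.MP_de6cd8_gt.Types

set_option autoImplicit false

namespace Pool.Agent.Lib.MPde6cd8

theorem sup_image {n : ℕ} (f : Fin n → Fin n) (c : Finset (Finset (Fin n))) :
    (c.image (Finset.image f)).sup id = (c.sup id).image f := by
  ext x
  simp only [Finset.mem_sup, Finset.mem_image, id]
  constructor
  · rintro ⟨S, ⟨S', hS', rfl⟩, hx⟩
    obtain ⟨y, hy, rfl⟩ := Finset.mem_image.mp hx
    exact ⟨y, ⟨S', hS', hy⟩, rfl⟩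
  · rintro ⟨y, ⟨S', hS', hy⟩, rfl⟩
    exact ⟨S'.image f, ⟨S', hS', rfl⟩, Finset.mem_image_of_mem f hy⟩

variable {F : Surf} {T T' T'' : QTri F}

/-- the action on sets of arc families. -/
def Relabel.act (ρ : Relabel F) (c : Finset (Finset (Fin F.N))) : Finset (Finset (Fin F.N)) :=
  c.image (Finset.image ρ.perm)

theorem Relabel.act_one (c : Finset (Finset (Fin F.N))) : (Relabel.one : Relabel F).act c = c := by
  unfold Relabel.act
  have : (Finset.image (Relabel.one : Relabel F).perm) = id := funext Relabel.image_one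
  rw [this, Finset.image_id]

theorem Relabel.act_comp (σ ρ : Relabel F) (c : Finset (Finset (Fin F.N))) :
    (σ.comp ρ).act c = σ.act (ρ.act c) := by
  unfold Relabel.act
  rw [Finset.image_image]
  congr 1
  funext S
  exact Relabel.image_comp σ ρ S

theorem Relabel.act_inv (ρ : Relabel F) (c : Finset (Finset (Fin F.N))) :
    ρ.inv.act (ρ.act c) = c := by
  rw [← Relabel.act_comp, Relabel.inv_comp, Relabel.act_one]

theorem FlagIso.refl (c : Finset (Finset (Fin F.N))) : FlagIso T c T c :=
  ⟨Relabel.one, RestrIso.refl, (Relabel.act_one c).symm⟩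

theorem FlagIso.symm {c c' : Finset (Finset (Fin F.N))} (h : FlagIso T c T' c') :
    FlagIso T' c' T c := by
  obtain ⟨ρ, h1, rfl⟩ := h
  refine ⟨ρ.inv, ?_, (ρ.act_inv c).symm⟩
  rw [sup_image]
  exact h1.symm

theorem FlagIso.trans {c c' c'' : Finset (Finset (Fin F.N))} (h : FlagIso T c T' c')
    (h' : FlagIso T' c' T'' c'') : FlagIso T c T'' c'' := by
  obtain ⟨ρ, h1, rfl⟩ := h
  obtain ⟨σ, h2, rfl⟩ := h'
  refine ⟨σ.comp ρ, ?_, (Relabel.act_comp σ ρ c).symm⟩
  rw [sup_image] at h2
  exact h1.trans h2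

theorem FlagIso.map (ρ : Relabel F) (c : Finset (Finset (Fin F.N))) :
    FlagIso T c (T.map ρ) (ρ.act c) := ⟨ρ, restrIso_map, rfl⟩

theorem FlagIso.one {c : Finset (Finset (Fin F.N))}
    (h : RestrIso T T' (c.sup id) Relabel.one) : FlagIso T c T' c :=
  ⟨Relabel.one, h, (Relabel.act_one c).symm⟩

theorem FlagIso.card_eq {c c' : Finset (Finset (Fin F.N))} (h : FlagIso T c T' c') :
    c'.card = c.card := by
  obtain ⟨ρ, -, rfl⟩ := h
  exact Finset.card_image_of_injective _ (Finset.image_injective ρ.perm.injective)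

theorem FlagIso.image_card {c c' : Finset (Finset (Fin F.N))} (h : FlagIso T c T' c') :
    c'.image Finset.card = c.image Finset.card := by
  obtain ⟨ρ, -, rfl⟩ := h
  rw [Finset.image_image]
  congr 1
  funext S
  exact Finset.card_image_of_injective _ ρ.perm.injective

theorem IsFlag.ch {n : ℕ} {c : Finset (Finset (Fin n))} (h : IsFlag c) : CH Finset.univ c :=
  ⟨h.2.1, fun _ _ => Finset.subset_univ _, h.2.2⟩

theorem CH.flag {n : ℕ} {c : Finset (Finset (Fin n))} (h : CH Finset.univ c)
    (hne : c.Nonempty) : IsFlag c := ⟨hne, h.ne, h.tot⟩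

theorem CH.eq_of_image {n : ℕ} {X : Finset (Fin n)} {t c c' : Finset (Finset (Fin n))}
    (h : CH X t) (hc : c ⊆ t) (hc' : c' ⊆ t)
    (hi : c.image Finset.card = c'.image Finset.card) : c = c' := by
  have key : ∀ c c' : Finset (Finset (Fin n)), c ⊆ t → c' ⊆ t →
      c.image Finset.card = c'.image Finset.card → c ⊆ c' := by
    intro c c' hc hc' hi S hS
    have h1 : S.card ∈ c'.image Finset.card := by
      rw [← hi]; exact Finset.mem_image_of_mem _ hS
    obtain ⟨S', hS', h2⟩ := Finset.mem_image.mp h1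
    have : S' = S := h.card_inj (hc' hS') (hc hS) h2
    rwa [← this]
  exact Finset.Subset.antisymm (key c c' hc hc' hi) (key c' c hc' hc hi.symm)

theorem Relabel.act_flag (ρ : Relabel F) {c : Finset (Finset (Fin F.N))} (hc : IsFlag c) :
    IsFlag (ρ.act c) := by
  refine ⟨hc.1.image _, ?_, ?_⟩
  · intro S hS
    obtain ⟨S', hS', rfl⟩ := Finset.mem_image.mp hS
    exact (hc.2.1 S' hS').image _
  · intro S hS S' hS'
    obtain ⟨U, hU, rfl⟩ := Finset.mem_image.mp hS
    obtain ⟨U', hU', rfl⟩ := Finset.mem_image.mp hS'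
    rcases hc.2.2 U hU U' hU' with h1 | h1
    · left; exact Finset.image_subset_image h1
    · right; exact Finset.image_subset_image h1

/-- chains of flags. -/
def IsChainF {n : ℕ} (Z : Finset (Finset (Finset (Fin n)))) : Prop :=
  (∀ c ∈ Z, IsFlag c) ∧ ∀ c ∈ Z, ∀ c' ∈ Z, c ⊆ c' ∨ c' ⊆ c

section Chain

variable {n : ℕ} {Z : Finset (Finset (Finset (Fin n)))}

theorem IsChainF.mono (h : IsChainF Z) {Z' : Finset (Finset (Finset (Fin n)))} (hZ : Z' ⊆ Z) :
    IsChainF Z' :=
  ⟨fun c hc => h.1 c (hZ hc), fun c hc c' hc' => h.2 c (hZ hc) c' (hZ hc')⟩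

theorem IsChainF.top_mem (h : IsChainF Z) (hne : Z.Nonempty) : Z.sup id ∈ Z := by
  obtain ⟨m, hm, hmax⟩ := Finset.exists_max_image Z Finset.card hne
  have : Z.sup id = m := by
    apply le_antisymm
    · apply Finset.sup_le
      intro c hc
      rcases h.2 c hc m hm with h1 | h1
      · exact h1
      · have : m = c := Finset.eq_of_subset_of_card_le h1 (hmax c hc)
        exact this ▸ (Finset.Subset.refl _)
    · exact Finset.le_sup (f := id) hm
  rwa [this]

theorem IsChainF.ch (h : IsChainF Z) : CH (Z.sup id) Z :=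
  ⟨fun c hc => (h.1 c hc).1, fun _ hc => Finset.le_sup (f := id) hc, h.2⟩

theorem IsChainF.ch_univ (h : IsChainF Z) : CH Finset.univ (Z.sup id) := by
  rcases Finset.eq_empty_or_nonempty Z with rfl | hne
  · rw [Finset.sup_empty]
    exact ⟨fun S hS => absurd hS (Finset.notMem_empty S), fun S hS => absurd hS
      (Finset.notMem_empty S), fun S hS => absurd hS (Finset.notMem_empty S)⟩
  · exact (h.1 _ (h.top_mem hne)).ch

theorem isChainF_of_ch {t : Finset (Finset (Fin n))} (ht : CH Finset.univ t) (h : CH t Z) :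
    IsChainF Z :=
  ⟨fun c hc => (ht.mono (h.sub c hc)).flag (h.ne c hc), h.tot⟩

/-- permutations preserving a complete flag are trivial. -/
theorem perm_eq_one {C : Finset (Finset (Fin n))} (h : CH Finset.univ C)
    (hc : C.card = (Finset.univ : Finset (Fin n)).card) {σ : Equiv.Perm (Fin n)}
    (hσ : C = C.image (Finset.image σ)) : σ = 1 := by
  have hfix : ∀ S ∈ C, S.image σ = S := by
    intro S hS
    have h1 : S.image σ ∈ C := by
      rw [hσ]; exact Finset.mem_image_of_mem _ hS
    exact h.card_inj h1 hS (Finset.card_image_of_injective _ σ.injective)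
  ext b
  rw [Equiv.Perm.coe_one, id]
  congr 1
  have hne : (Finset.univ : Finset (Fin n)).Nonempty := ⟨b, Finset.mem_univ b⟩
  have htop := h.top_mem hc hne
  obtain ⟨S, hS, hmin⟩ := Finset.exists_min_image (C.filter (fun S => b ∈ S)) Finset.card
    ⟨_, Finset.mem_filter.mpr ⟨htop, Finset.mem_univ b⟩⟩
  rw [Finset.mem_filter] at hS
  have hσb : σ b ∈ S := by
    have := Finset.mem_image_of_mem σ hS.2
    rwa [hfix S hS.1] at this
  have hpos : 1 ≤ S.card := Finset.card_pos.mpr ⟨b, hS.2⟩
  rcases Nat.lt_or_ge 1 S.card with h1 | h1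
  · obtain ⟨L, hL, hLc⟩ := h.exists_card hc (j := S.card - 1) (by omega)
      (by have := Finset.card_le_card (Finset.subset_univ S); omega)
    have hbL : b ∉ L := by
      intro hb
      have := hmin L (Finset.mem_filter.mpr ⟨hL, hb⟩)
      omega
    have hLS : L ⊆ S := h.sub_of_card hL hS.1 (by omega)
    have hins : insert b L = S := by
      apply Finset.eq_of_subset_of_card_le (Finset.insert_subset hS.2 hLS)
      rw [Finset.card_insert_of_notMem hbL]; omega
    rw [← hins, Finset.mem_insert] at hσb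
    rcases hσb with h2 | h2
    · exact h2
    · exfalso
      rw [← hfix L hL] at h2
      obtain ⟨y, hy, hyb⟩ := Finset.mem_image.mp h2
      exact hbL (σ.injective hyb ▸ hy)
  · have h2 : S.card = 1 := by omega
    obtain ⟨y, hy⟩ := Finset.card_eq_one.mp h2
    have e1 := hS.2
    rw [hy, Finset.mem_singleton] at e1 hσb
    rw [hσb, e1]

end Chain

instance : Finite (QTri F) :=
  Finite.of_injective (β := Equiv.Perm F.Side × (Fin F.s → F.Side))
    (fun T => (T.next, T.punct)) (by
      intro T T' h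
      have h1 : T.next = T'.next := congrArg Prod.fst h
      have h2 : T.punct = T'.punct := congrArg Prod.snd h
      exact QTri.ext' (fun e => by rw [h1]) (fun i => by rw [h2]))

/-- flags up to the pure mapping class group. -/
def flagSetoid (F : Surf) : Setoid (QTri F × Finset (Finset (Fin F.N))) where
  r x y := FlagIso x.1 x.2 y.1 y.2
  iseqv := ⟨fun _ => FlagIso.refl _, fun h => h.symm, fun h h' => h.trans h'⟩

/-- arc complexes exist. -/
theorem exists_isArcComplex (F : Surf) : ∃ K, IsArcComplex F K := by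
  obtain ⟨f, hf⟩ : ∃ f : Quotient (flagSetoid F) → ℕ, Function.Injective f :=
    Countable.exists_injective_nat _
  let φ : QTri F → Finset (Finset (Fin F.N)) → ℕ := fun T c => f (Quotient.mk _ (T, c))
  let P : Finset ℕ → Prop := fun s => s = ∅ ∨
    ∃ (T : QTri F) (Z : Finset (Finset (Finset (Fin F.N)))),
      (∀ c ∈ Z, IsFlag c) ∧ (∀ c ∈ Z, ∀ c' ∈ Z, c ⊆ c' ∨ c' ⊆ c) ∧ s = Z.image (φ T)
  have hfin : {s | P s}.Finite := by
    have h1 : (Set.range (fun x : QTri F × Finset (Finset (Finset (Fin F.N))) =>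
        x.2.image (φ x.1))).Finite := Set.finite_range _
    refine ((Set.finite_singleton ∅).union h1).subset ?_
    rintro s (rfl | ⟨T, Z, -, -, rfl⟩)
    · left; rfl
    · right; exact ⟨(T, Z), rfl⟩
  refine ⟨⟨hfin.toFinset, ?_, ?_⟩, φ, ?_, ?_⟩
  · rw [Set.Finite.mem_toFinset]; left; rfl
  · intro s hs t hts
    rw [Set.Finite.mem_toFinset] at hs ⊢
    rcases hs with rfl | ⟨T, Z, h1, h2, rfl⟩
    · left; exact Finset.subset_empty.mp hts
    · right
      obtain ⟨Z', hZ', rfl⟩ := Finset.subset_image_iff.mp hts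
      have hZ'' : Z' ⊆ Z := hZ'
      exact ⟨T, Z', fun c hc => h1 c (hZ'' hc),
        fun c hc c' hc' => h2 c (hZ'' hc) c' (hZ'' hc'), rfl⟩
  · intro T T' c c' _ _
    constructor
    · intro h
      exact Quotient.exact (hf h)
    · intro h
      exact congrArg f (Quotient.sound h)
  · intro s
    show s ∈ hfin.toFinset ↔ _
    rw [Set.Finite.mem_toFinset]
    exact Iff.rfl

/-- restrictions to the empty family are isomorphic. -/
theorem restrIso_empty : RestrIso T T' ∅ Relabel.one := by
  have key : ∀ T T' : QTri F, Hom T T' ∅ Relabel.one := by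
    intro T T'
    refine ⟨?_, ?_, ?_⟩
    · intro e e' he h
      rw [Relabel.image_one, Relabel.app_one, Relabel.app_one]
      rcases e with ⟨b, x⟩ | b
      · exact absurd he (Finset.notMem_empty b)
      · rw [h.unique (T.turn_bd b)]
        exact T'.turn_bd b
    · intro e e' _
      rw [Relabel.image_one]
      exact T'.connected _ _
    · intro i
      rw [Relabel.image_one]
      exact T'.connected _ _
  rw [restrIso_iff]
  refine ⟨key T T', ?_⟩
  have h2 : (Relabel.one : Relabel F).inv = Relabel.one := by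
    simp [Relabel.one, Relabel.inv]
  rw [Relabel.image_one, h2]
  exact key T' T

end Pool.Agent.Lib.MPde6cd8
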