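import Pool.Agent.Lib.MP_de6cd8_gt.Defs

set_option autoImplicit false

namespace Pool.Agent.Lib.MPde6cd8

/-- the vertices which can be added to `s`. -/
def up (K : SC) (s : Finset ℕ) : Finset ℕ :=
  (K.faces.biUnion id).filter (fun x => x ∉ s ∧ insert x s ∈ K.faces)

theorem mem_up {K : SC} {s : Finset ℕ} {x : ℕ} : x ∈ up K s ↔ x ∉ s ∧ insert x s ∈ K.faces := by
  unfold up
  rw [Finset.mem_filter, Finset.mem_biUnion]
  constructor
  · exact fun h => h.2
  · exact fun h => ⟨⟨insert x s, h.2, Finset.mem_insert_self x s⟩, h⟩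

theorem card_up {K : SC} {s : Finset ℕ} {d : ℕ} (hs : s.card = d) :
    (K.faces.filter (fun t => s ⊆ t ∧ t.card = d + 1)).card = (up K s).card := by
  have h : K.faces.filter (fun t => s ⊆ t ∧ t.card = d + 1) =
      (up K s).image (fun x => insert x s) := by
    ext t
    rw [Finset.mem_filter, Finset.mem_image]
    constructor
    · rintro ⟨h1, h2, h3⟩
      have h4 : (t \ s).card = 1 := by
        rw [Finset.card_sdiff_of_subset h2, h3, hs]; omega
      obtain ⟨x, hx⟩ := Finset.card_eq_one.mp h4
      have hxm : x ∈ t \ s := by rw [hx]; exact Finset.mem_singleton_self x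
      have hins : insert x s = t := by
        rw [← Finset.sdiff_union_of_subset h2, hx, Finset.singleton_union]
      exact ⟨x, mem_up.mpr ⟨(Finset.mem_sdiff.mp hxm).2, hins ▸ h1⟩, hins⟩
    · rintro ⟨x, hx, rfl⟩
      rw [mem_up] at hx
      exact ⟨hx.2, Finset.subset_insert x s, by rw [Finset.card_insert_of_notMem hx.1, hs]⟩
  rw [h]
  apply Finset.card_image_of_injOn
  intro x hx y hy hxy
  rw [Finset.mem_coe, mem_up] at hx hy
  have : x ∈ insert y s := by
    have h1 : insert x s = insert y s := hxy
    rw [← h1]; exact Finset.mem_insert_self x s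
  exact (Finset.mem_insert.mp this).resolve_right hx.1

theorem isPM_iff {d : ℕ} {K : SC} : IsPM d K ↔
    (∀ s ∈ K.faces, ∃ t ∈ K.faces, s ⊆ t ∧ t.card = d + 1) ∧
    (∀ s ∈ K.faces, s.card = d → (up K s).card = 2) := by
  unfold IsPM
  constructor
  · rintro ⟨h1, h2⟩
    exact ⟨h1, fun s hs hc => by rw [← card_up hc]; exact h2 s hs hc⟩
  · rintro ⟨h1, h2⟩
    exact ⟨h1, fun s hs hc => by rw [card_up hc]; exact h2 s hs hc⟩

theorem IsPM.card_le {d : ℕ} {K : SC} (h : IsPM d K) {s : Finset ℕ} (hs : s ∈ K.faces) :
    s.card ≤ d + 1 := by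
  obtain ⟨t, -, h1, h2⟩ := h.1 s hs
  rw [← h2]
  exact Finset.card_le_card h1

theorem mem_link {K : SC} {v : ℕ} (hv : K.IsVertex v) {s : Finset ℕ} :
    s ∈ (K.link v).faces ↔ v ∉ s ∧ insert v s ∈ K.faces := by
  show s ∈ insert ∅ (K.faces.filter (fun s => v ∉ s ∧ insert v s ∈ K.faces)) ↔ _
  rw [Finset.mem_insert, Finset.mem_filter]
  constructor
  · rintro (rfl | h)
    · exact ⟨Finset.notMem_empty v, by simpa [SC.IsVertex] using hv⟩
    · exact h.2
  · intro h
    right
    exact ⟨K.down _ h.2 s (Finset.subset_insert v s), h⟩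

/-- links of vertices in closed pseudomanifolds. -/
theorem IsPM.link {d : ℕ} {K : SC} (h : IsPM (d + 1) K) {v : ℕ} (hv : K.IsVertex v) :
    IsPM d (K.link v) := by
  rw [isPM_iff] at h ⊢
  obtain ⟨h1, h2⟩ := h
  constructor
  · intro s hs
    rw [mem_link hv] at hs
    obtain ⟨t, ht, hst, htc⟩ := h1 _ hs.2
    have hvt : v ∈ t := hst (Finset.mem_insert_self v s)
    refine ⟨t.erase v, ?_, ?_, ?_⟩
    · rw [mem_link hv]
      exact ⟨Finset.notMem_erase v t, by rw [Finset.insert_erase hvt]; exact ht⟩
    · intro x hx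
      rw [Finset.mem_erase]
      refine ⟨?_, hst (Finset.mem_insert_of_mem hx)⟩
      rintro rfl
      exact hs.1 hx
    · rw [Finset.card_erase_of_mem hvt, htc]; omega
  · intro s hs hc
    rw [mem_link hv] at hs
    have h3 : up (K.link v) s = up K (insert v s) := by
      ext x
      rw [mem_up, mem_up, mem_link hv]
      constructor
      · rintro ⟨a1, a2, a3⟩
        refine ⟨?_, ?_⟩
        · rw [Finset.mem_insert, not_or]
          refine ⟨?_, a1⟩
          rintro rfl
          exact a2 (Finset.mem_insert_self _ _)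
        · rw [Finset.insert_comm]; exact a3
      · rintro ⟨a1, a2⟩
        rw [Finset.mem_insert, not_or] at a1
        refine ⟨a1.2, ?_, ?_⟩
        · rw [Finset.mem_insert, not_or]
          exact ⟨fun h => a1.1 h.symm, hs.1⟩
        · rw [Finset.insert_comm]; exact a2
    rw [h3]
    apply h2 _ hs.2
    rw [Finset.card_insert_of_notMem hs.1, hc]

theorem mem_stellar {K : SC} {σ : Finset ℕ} {a : ℕ} {hσ : σ ∈ K.faces} {hne : σ ≠ ∅}
    {ha : ¬ K.IsVertex a} {s : Finset ℕ} :
    s ∈ (K.stellar σ a hσ hne ha).faces ↔ (a ∉ s ∧ s ∈ K.faces ∧ ¬ σ ⊆ s) ∨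
      (a ∈ s ∧ ¬ σ ⊆ s.erase a ∧ s.erase a ∪ σ ∈ K.faces) := by
  have ha' : ∀ s ∈ K.faces, a ∉ s := fun s hs h =>
    ha (K.down s hs {a} (Finset.singleton_subset_iff.mpr h))
  show s ∈ K.faces.filter (fun s => ¬ σ ⊆ s) ∪
    (K.faces.filter (fun s => ¬ σ ⊆ s ∧ s ∪ σ ∈ K.faces)).image (insert a) ↔ _
  rw [Finset.mem_union, Finset.mem_filter, Finset.mem_image]
  constructor
  · rintro (⟨h1, h2⟩ | ⟨r, hr, rfl⟩)
    · left; exact ⟨ha' s h1, h1, h2⟩
    · right
      rw [Finset.mem_filter] at hr
      rw [Finset.erase_insert (ha' r hr.1)]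
      exact ⟨Finset.mem_insert_self a r, hr.2⟩
  · rintro (⟨-, h2, h3⟩ | ⟨h1, h2, h3⟩)
    · left; exact ⟨h2, h3⟩
    · right
      refine ⟨s.erase a, ?_, Finset.insert_erase h1⟩
      rw [Finset.mem_filter]
      exact ⟨K.down _ h3 _ Finset.subset_union_left, h2, h3⟩

section Stellar

variable {K : SC} {σ : Finset ℕ} {a : ℕ} {hσ : σ ∈ K.faces} {hne : σ ≠ ∅}
    {ha : ¬ K.IsVertex a}

/-- first kind of ridges. -/
theorem up_stellar_one {d : ℕ} (hcard : ∀ s ∈ K.faces, s.card ≤ d + 1) {s : Finset ℕ}
    (hs : s ∈ K.faces) (hσs : ¬ σ ⊆ s) (hc : s.card = d) :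
    (up (K.stellar σ a hσ hne ha) s).card = (up K s).card := by
  have ha' : ∀ s ∈ K.faces, a ∉ s := fun s hs h =>
    ha (K.down s hs {a} (Finset.singleton_subset_iff.mpr h))
  have has := ha' s hs
  by_cases hu : s ∪ σ ∈ K.faces
  · -- unique vertex of the simplex outside the ridge
    have h1 : (σ \ s).card = 1 := by
      have h2 := hcard _ hu
      have h3 : (s ∪ σ).card = s.card + (σ \ s).card := by
        rw [← Finset.card_union_of_disjoint Finset.disjoint_sdiff, Finset.union_sdiff_self_eq_union]
      have h4 : 0 < (σ \ s).card := Finset.card_pos.mpr (Finset.sdiff_nonempty.mpr hσs)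
      omega
    obtain ⟨z, hz⟩ := Finset.card_eq_one.mp h1
    have hzm : z ∈ σ \ s := by rw [hz]; exact Finset.mem_singleton_self z
    rw [Finset.mem_sdiff] at hzm
    have hsub : ∀ x, σ ⊆ insert x s → x = z := by
      intro x hx
      exact ((Finset.mem_insert.mp (hx hzm.1)).resolve_right hzm.2).symm
    have hins : s ∪ σ = insert z s := by
      rw [← Finset.union_sdiff_self_eq_union, hz, Finset.union_comm, Finset.singleton_union]
    have hσz : σ ⊆ insert z s := by rw [← hins]; exact Finset.subset_union_right
    have hzup : z ∈ up K s := mem_up.mpr ⟨hzm.2, hins ▸ hu⟩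
    have hau : a ∉ (up K s).erase z := by
      rw [Finset.mem_erase, mem_up]
      rintro ⟨-, -, h⟩
      exact ha' _ h (Finset.mem_insert_self a s)
    have h2 : up (K.stellar σ a hσ hne ha) s = insert a ((up K s).erase z) := by
      ext x
      have e : x ∈ insert a ((up K s).erase z) ↔ x = a ∨ (x ≠ z ∧ x ∉ s ∧ insert x s ∈ K.faces) := by
        rw [Finset.mem_insert, Finset.mem_erase, mem_up]
      rw [mem_up, mem_stellar, e]
      constructor
      · rintro ⟨h3, ⟨h4, h5, h6⟩ | ⟨h4, h5, h6⟩⟩
        · right
          refine ⟨?_, h3, h5⟩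
          rintro rfl
          exact h6 hσz
        · left
          exact ((Finset.mem_insert.mp h4).resolve_right has).symm
      · rintro (rfl | ⟨h3, h4, h5⟩)
        · refine ⟨has, Or.inr ⟨Finset.mem_insert_self _ _, ?_, ?_⟩⟩
          · rw [Finset.erase_insert has]; exact hσs
          · rw [Finset.erase_insert has]; exact hu
        · refine ⟨h4, Or.inl ⟨ha' _ h5, h5, fun h => h3 (hsub x h)⟩⟩
    rw [h2, Finset.card_insert_of_notMem hau, Finset.card_erase_of_mem hzup]
    have : 0 < (up K s).card := Finset.card_pos.mpr ⟨z, hzup⟩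
    omega
  · have h2 : up (K.stellar σ a hσ hne ha) s = up K s := by
      ext x
      rw [mem_up, mem_stellar, mem_up]
      constructor
      · rintro ⟨h3, ⟨h4, h5, h6⟩ | ⟨h4, h5, h6⟩⟩
        · exact ⟨h3, h5⟩
        · exfalso
          have : x = a := ((Finset.mem_insert.mp h4).resolve_right has).symm
          subst this
          rw [Finset.erase_insert has] at h6
          exact hu h6
      · rintro ⟨h4, h5⟩
        refine ⟨h4, Or.inl ⟨ha' _ h5, h5, fun h => hu ?_⟩⟩
        apply K.down _ h5
        exact Finset.union_subset (Finset.subset_insert x s) h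
    rw [h2]

/-- second kind of ridges, when the simplex is almost contained. -/
theorem up_stellar_two {t : Finset ℕ} {x : ℕ} (ht : t ∪ σ ∈ K.faces) (hx : σ \ t = {x}) :
    up (K.stellar σ a hσ hne ha) (insert a t) = up K (insert x t) := by
  have ha' : ∀ s ∈ K.faces, a ∉ s := fun s hs h =>
    ha (K.down s hs {a} (Finset.singleton_subset_iff.mpr h))
  have hat : a ∉ t := fun h => ha' _ ht (Finset.mem_union_left σ h)
  have hxm : x ∈ σ \ t := by rw [hx]; exact Finset.mem_singleton_self x
  rw [Finset.mem_sdiff] at hxm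
  have hax : a ≠ x := by
    rintro rfl
    exact ha' _ hσ hxm.1
  have hunion : ∀ r : Finset ℕ, t ⊆ r → r ∪ σ = insert x r := by
    intro r hr
    ext y
    rw [Finset.mem_union, Finset.mem_insert]
    constructor
    · rintro (h | h)
      · right; exact h
      · by_cases hy : y ∈ t
        · right; exact hr hy
        · left
          have : y ∈ σ \ t := Finset.mem_sdiff.mpr ⟨h, hy⟩
          rw [hx, Finset.mem_singleton] at this
          exact this
    · rintro (rfl | h)
      · right; exact hxm.1
      · left; exact h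
  ext y
  rw [mem_up, mem_stellar, mem_up]
  constructor
  · rintro ⟨h1, ⟨h2, -, -⟩ | ⟨h2, h3, h4⟩⟩
    · exact absurd (Finset.mem_insert_of_mem (Finset.mem_insert_self a t)) h2
    · rw [Finset.mem_insert, not_or] at h1
      have he : (insert y (insert a t)).erase a = insert y t := by
        rw [Finset.insert_comm, Finset.erase_insert]
        rw [Finset.mem_insert, not_or]
        exact ⟨fun h => h1.1 h.symm, hat⟩
      rw [he] at h3 h4
      rw [hunion _ (Finset.subset_insert y t)] at h4
      refine ⟨?_, ?_⟩
      · rw [Finset.mem_insert, not_or]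
        refine ⟨?_, h1.2⟩
        rintro rfl
        apply h3
        have := hunion t (Finset.Subset.refl t)
        rw [← this]
        exact Finset.subset_union_right
      · rw [Finset.insert_comm]; exact h4
  · rintro ⟨h1, h2⟩
    rw [Finset.mem_insert, not_or] at h1
    have hya : a ≠ y := by
      rintro rfl
      exact ha' _ h2 (Finset.mem_insert_self _ _)
    have hay : a ∉ insert y t := by
      rw [Finset.mem_insert, not_or]
      exact ⟨hya, hat⟩
    have he : (insert y (insert a t)).erase a = insert y t := by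
      rw [Finset.insert_comm, Finset.erase_insert hay]
    refine ⟨?_, Or.inr ⟨?_, ?_, ?_⟩⟩
    · rw [Finset.mem_insert, not_or]
      exact ⟨hya.symm, h1.2⟩
    · exact Finset.mem_insert_of_mem (Finset.mem_insert_self a t)
    · rw [he]
      intro h
      have := Finset.mem_insert.mp (h hxm.1)
      rcases this with h3 | h3
      · exact h1.1 h3.symm
      · exact hxm.2 h3
    · rw [he, hunion _ (Finset.subset_insert y t), Finset.insert_comm]
      exact h2

/-- third kind of ridges: two missing vertices. -/
theorem up_stellar_three {d : ℕ} (hcard : ∀ s ∈ K.faces, s.card ≤ d + 1) {t : Finset ℕ}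
    {x y : ℕ} (ht : t ∪ σ ∈ K.faces) (hxy : x ≠ y) (hx : σ \ t = {x, y})
    (hc : t.card + 1 = d) :
    (up (K.stellar σ a hσ hne ha) (insert a t)).card = 2 := by
  have ha' : ∀ s ∈ K.faces, a ∉ s := fun s hs h =>
    ha (K.down s hs {a} (Finset.singleton_subset_iff.mpr h))
  have hat : a ∉ t := fun h => ha' _ ht (Finset.mem_union_left σ h)
  have hxm : x ∈ σ \ t := by rw [hx]; simp
  have hym : y ∈ σ \ t := by rw [hx]; simp
  rw [Finset.mem_sdiff] at hxm hym
  have hcu : (t ∪ σ).card = d + 1 := by
    rw [← Finset.union_sdiff_self_eq_union, Finset.card_union_of_disjoint Finset.disjoint_sdiff,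
      hx, Finset.card_pair hxy]
    omega
  have h1 : up (K.stellar σ a hσ hne ha) (insert a t) = {x, y} := by
    ext z
    have e : z ∈ ({x, y} : Finset ℕ) ↔ z = x ∨ z = y := by
      rw [Finset.mem_insert, Finset.mem_singleton]
    rw [mem_up, mem_stellar, e]
    constructor
    · rintro ⟨h1, ⟨h2, -, -⟩ | ⟨h2, h3, h4⟩⟩
      · exact absurd (Finset.mem_insert_of_mem (Finset.mem_insert_self a t)) h2
      · rw [Finset.mem_insert, not_or] at h1
        have he : (insert z (insert a t)).erase a = insert z t := by
          rw [Finset.insert_comm, Finset.erase_insert]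
          rw [Finset.mem_insert, not_or]
          exact ⟨fun h => h1.1 h.symm, hat⟩
        rw [he] at h4
        by_contra hcon
        have hz : z ∉ t ∪ σ := by
          rw [Finset.mem_union, not_or]
          refine ⟨h1.2, fun hzσ => hcon ?_⟩
          have : z ∈ σ \ t := Finset.mem_sdiff.mpr ⟨hzσ, h1.2⟩
          rw [hx, Finset.mem_insert, Finset.mem_singleton] at this
          exact this
        have h5 := hcard _ h4
        rw [Finset.insert_union, Finset.card_insert_of_notMem hz, hcu] at h5
        omega
    · intro hz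
      have hzσ : z ∈ σ := by rcases hz with rfl | rfl; exacts [hxm.1, hym.1]
      have hzt : z ∉ t := by rcases hz with rfl | rfl; exacts [hxm.2, hym.2]
      have hza : a ≠ z := by
        rintro rfl
        exact ha' _ hσ hzσ
      have he : (insert z (insert a t)).erase a = insert z t := by
        rw [Finset.insert_comm, Finset.erase_insert]
        rw [Finset.mem_insert, not_or]
        exact ⟨hza, hat⟩
      refine ⟨?_, Or.inr ⟨?_, ?_, ?_⟩⟩
      · rw [Finset.mem_insert, not_or]; exact ⟨hza.symm, hzt⟩
      · exact Finset.mem_insert_of_mem (Finset.mem_insert_self a t)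
      · rw [he]
        intro h
        rcases hz with rfl | rfl
        · have := Finset.mem_insert.mp (h hym.1)
          rcases this with h3 | h3
          · exact hxy h3.symm
          · exact hym.2 h3
        · have := Finset.mem_insert.mp (h hxm.1)
          rcases this with h3 | h3
          · exact hxy h3
          · exact hxm.2 h3
      · rw [he]
        have : insert z t ∪ σ = t ∪ σ := by
          rw [Finset.insert_union]
          exact Finset.insert_eq_self.mpr (Finset.mem_union_right t hzσ)
        rw [this]; exact ht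
  rw [h1, Finset.card_pair hxy]

theorem isPM_stellar {d : ℕ} (h : IsPM d K) : IsPM d (K.stellar σ a hσ hne ha) := by
  have ha' : ∀ s ∈ K.faces, a ∉ s := fun s hs h =>
    ha (K.down s hs {a} (Finset.singleton_subset_iff.mpr h))
  have hcard : ∀ s ∈ K.faces, s.card ≤ d + 1 := fun s hs => h.card_le hs
  rw [isPM_iff] at h ⊢
  obtain ⟨h1, h2⟩ := h
  -- replace a facet containing the simplex
  have key : ∀ F ∈ K.faces, σ ⊆ F → F.card = d + 1 → ∀ x ∈ σ,
      insert a (F.erase x) ∈ (K.stellar σ a hσ hne ha).faces ∧
      (insert a (F.erase x)).card = d + 1 := by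
    intro F hF hσF hFc x hx
    have haF : a ∉ F.erase x := fun h => ha' F hF (Finset.mem_of_mem_erase h)
    refine ⟨?_, ?_⟩
    · rw [mem_stellar]
      right
      refine ⟨Finset.mem_insert_self _ _, ?_, ?_⟩
      · rw [Finset.erase_insert haF]
        intro h
        exact Finset.notMem_erase x F (h hx)
      · rw [Finset.erase_insert haF]
        have : F.erase x ∪ σ = F := by
          apply Finset.Subset.antisymm
          · exact Finset.union_subset (Finset.erase_subset x F) hσF
          · intro y hy
            rw [Finset.mem_union, Finset.mem_erase]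
            by_cases hyx : y = x
            · right; rw [hyx]; exact hx
            · left; exact ⟨hyx, hy⟩
        rw [this]; exact hF
    · rw [Finset.card_insert_of_notMem haF, Finset.card_erase_of_mem (hσF hx), hFc]; omega
  constructor
  · intro s hs
    rw [mem_stellar] at hs
    rcases hs with ⟨h3, h4, h5⟩ | ⟨h3, h4, h5⟩
    · obtain ⟨F, hF, hsF, hFc⟩ := h1 s h4
      by_cases hσF : σ ⊆ F
      · obtain ⟨x, hx, hxs⟩ := Finset.not_subset.mp h5
        obtain ⟨k1, k2⟩ := key F hF hσF hFc x hx
        refine ⟨_, k1, ?_, k2⟩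
        intro y hy
        rw [Finset.mem_insert, Finset.mem_erase]
        right
        refine ⟨?_, hsF hy⟩
        rintro rfl
        exact hxs hy
      · exact ⟨F, mem_stellar.mpr (Or.inl ⟨ha' F hF, hF, hσF⟩), hsF, hFc⟩
    · obtain ⟨F, hF, hsF, hFc⟩ := h1 _ h5
      obtain ⟨x, hx, hxs⟩ := Finset.not_subset.mp h4
      obtain ⟨k1, k2⟩ := key F hF (Finset.subset_union_right.trans hsF) hFc x hx
      refine ⟨_, k1, ?_, k2⟩
      intro y hy
      rw [Finset.mem_insert, Finset.mem_erase]
      by_cases hya : y = a
      · left; exact hya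
      · right
        have hy' : y ∈ s.erase a := Finset.mem_erase.mpr ⟨hya, hy⟩
        refine ⟨?_, hsF (Finset.mem_union_left σ hy')⟩
        rintro rfl
        exact hxs hy'
  · intro s hs hc
    rw [mem_stellar] at hs
    rcases hs with ⟨h3, h4, h5⟩ | ⟨h3, h4, h5⟩
    · rw [up_stellar_one hcard h4 h5 hc]
      exact h2 s h4 hc
    · have hins := Finset.insert_erase h3
      set t := s.erase a with ht
      have htc : t.card + 1 = d := by
        rw [ht, Finset.card_erase_of_mem h3, hc]
        have : 0 < s.card := Finset.card_pos.mpr ⟨a, h3⟩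
        omega
      have hcu : (t ∪ σ).card = t.card + (σ \ t).card := by
        rw [← Finset.card_union_of_disjoint Finset.disjoint_sdiff,
          Finset.union_sdiff_self_eq_union]
      have hle := hcard _ h5
      have hpos : 0 < (σ \ t).card := Finset.card_pos.mpr (Finset.sdiff_nonempty.mpr h4)
      have hcases : (σ \ t).card = 1 ∨ (σ \ t).card = 2 := by omega
      rw [← hins]
      rcases hcases with hk | hk
      · obtain ⟨x, hx⟩ := Finset.card_eq_one.mp hk
        rw [up_stellar_two h5 hx]
        have hxm : x ∈ σ \ t := by rw [hx]; exact Finset.mem_singleton_self x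
        rw [Finset.mem_sdiff] at hxm
        apply h2
        · apply K.down _ h5
          exact Finset.insert_subset (Finset.mem_union_right t hxm.1) Finset.subset_union_left
        · rw [Finset.card_insert_of_notMem hxm.2]; exact htc
      · obtain ⟨x, y, hxy, hx⟩ := Finset.card_eq_two.mp hk
        exact up_stellar_three hcard h5 hxy hx htc

theorem isPM_of_stellar {d : ℕ} (h : IsPM d (K.stellar σ a hσ hne ha)) : IsPM d K := by
  have ha' : ∀ s ∈ K.faces, a ∉ s := fun s hs h =>
    ha (K.down s hs {a} (Finset.singleton_subset_iff.mpr h))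
  have hcard' : ∀ s ∈ (K.stellar σ a hσ hne ha).faces, s.card ≤ d + 1 := fun s hs => h.card_le hs
  -- moving a face containing the simplex
  have move : ∀ G ∈ K.faces, σ ⊆ G → ∀ x ∈ σ,
      insert a (G.erase x) ∈ (K.stellar σ a hσ hne ha).faces := by
    intro F hF hσF x hx
    have haF : a ∉ F.erase x := fun h => ha' F hF (Finset.mem_of_mem_erase h)
    rw [mem_stellar]
    right
    refine ⟨Finset.mem_insert_self _ _, ?_, ?_⟩
    · rw [Finset.erase_insert haF]
      intro h
      exact Finset.notMem_erase x F (h hx)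
    · rw [Finset.erase_insert haF]
      have : F.erase x ∪ σ = F := by
        apply Finset.Subset.antisymm
        · exact Finset.union_subset (Finset.erase_subset x F) hσF
        · intro y hy
          rw [Finset.mem_union, Finset.mem_erase]
          by_cases hyx : y = x
          · right; rw [hyx]; exact hx
          · left; exact ⟨hyx, hy⟩
      rw [this]; exact hF
  have hcard : ∀ s ∈ K.faces, s.card ≤ d + 1 := by
    intro s hs
    by_cases hσs : σ ⊆ s
    · obtain ⟨x, hx⟩ := Finset.nonempty_iff_ne_empty.mpr hne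
      have h1 := hcard' _ (move s hs hσs x hx)
      have haF : a ∉ s.erase x := fun h => ha' s hs (Finset.mem_of_mem_erase h)
      rw [Finset.card_insert_of_notMem haF, Finset.card_erase_of_mem (hσs hx)] at h1
      have : 0 < s.card := Finset.card_pos.mpr ⟨x, hσs hx⟩
      omega
    · exact hcard' s (mem_stellar.mpr (Or.inl ⟨ha' s hs, hs, hσs⟩))
  rw [isPM_iff] at h ⊢
  obtain ⟨h1, h2⟩ := h
  -- the facet of K coming from a facet of the subdivision through `a`
  have back : ∀ F' ∈ (K.stellar σ a hσ hne ha).faces, a ∈ F' → F'.card = d + 1 →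
      F'.erase a ∪ σ ∈ K.faces ∧ (F'.erase a ∪ σ).card = d + 1 := by
    intro F' hF' haF' hFc
    rw [mem_stellar] at hF'
    rcases hF' with ⟨h3, -, -⟩ | ⟨h3, h4, h5⟩
    · exact absurd haF' h3
    · refine ⟨h5, le_antisymm (hcard _ h5) ?_⟩
      have hcu : (F'.erase a ∪ σ).card = (F'.erase a).card + (σ \ F'.erase a).card := by
        rw [← Finset.card_union_of_disjoint Finset.disjoint_sdiff,
          Finset.union_sdiff_self_eq_union]
      have hpos : 0 < (σ \ F'.erase a).card :=
        Finset.card_pos.mpr (Finset.sdiff_nonempty.mpr h4)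
      rw [hcu, Finset.card_erase_of_mem haF', hFc]
      omega
  constructor
  · intro s hs
    by_cases hσs : σ ⊆ s
    · obtain ⟨x, hx⟩ := Finset.nonempty_iff_ne_empty.mpr hne
      obtain ⟨F', hF', hsF', hFc⟩ := h1 _ (move s hs hσs x hx)
      have haF' : a ∈ F' := hsF' (Finset.mem_insert_self _ _)
      obtain ⟨k1, k2⟩ := back F' hF' haF' hFc
      refine ⟨_, k1, ?_, k2⟩
      intro y hy
      rw [Finset.mem_union]
      by_cases hyx : y = x
      · right; rw [hyx]; exact hx
      · left
        rw [Finset.mem_erase]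
        refine ⟨?_, hsF' (Finset.mem_insert_of_mem (Finset.mem_erase.mpr ⟨hyx, hy⟩))⟩
        rintro rfl
        exact ha' s hs hy
    · obtain ⟨F', hF', hsF', hFc⟩ := h1 s (mem_stellar.mpr (Or.inl ⟨ha' s hs, hs, hσs⟩))
      by_cases haF' : a ∈ F'
      · obtain ⟨k1, k2⟩ := back F' hF' haF' hFc
        refine ⟨_, k1, ?_, k2⟩
        intro y hy
        rw [Finset.mem_union, Finset.mem_erase]
        left
        refine ⟨?_, hsF' hy⟩
        rintro rfl
        exact ha' s hs hy
      · rw [mem_stellar] at hF'
        rcases hF' with ⟨-, h4, -⟩ | ⟨h3, -, -⟩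
        · exact ⟨F', h4, hsF', hFc⟩
        · exact absurd h3 haF'
  · intro s hs hc
    by_cases hσs : σ ⊆ s
    · obtain ⟨x, hx⟩ := Finset.nonempty_iff_ne_empty.mpr hne
      have hxs := hσs hx
      have hu : s.erase x ∪ σ = s := by
        apply Finset.Subset.antisymm
        · exact Finset.union_subset (Finset.erase_subset x s) hσs
        · intro y hy
          rw [Finset.mem_union, Finset.mem_erase]
          by_cases hyx : y = x
          · right; rw [hyx]; exact hx
          · left; exact ⟨hyx, hy⟩
      have hd : σ \ s.erase x = {x} := by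
        ext y
        rw [Finset.mem_sdiff, Finset.mem_erase, Finset.mem_singleton]
        constructor
        · rintro ⟨h3, h4⟩
          by_contra hyx
          exact h4 ⟨hyx, hσs h3⟩
        · rintro rfl
          exact ⟨hx, fun h => h.1 rfl⟩
      have h3 := up_stellar_two (K := K) (σ := σ) (a := a) (hσ := hσ) (hne := hne) (ha := ha)
        (t := s.erase x) (x := x) (by rw [hu]; exact hs) hd
      rw [Finset.insert_erase hxs] at h3
      rw [← h3]
      apply h2 _ (move s hs hσs x hx)
      have haF : a ∉ s.erase x := fun h => ha' s hs (Finset.mem_of_mem_erase h)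
      rw [Finset.card_insert_of_notMem haF, Finset.card_erase_of_mem hxs, hc]
      have : 0 < s.card := Finset.card_pos.mpr ⟨x, hxs⟩
      omega
    · rw [← up_stellar_one (K := K) (σ := σ) (a := a) (hσ := hσ) (hne := hne) (ha := ha)
        hcard hs hσs hc]
      exact h2 s (mem_stellar.mpr (Or.inl ⟨ha' s hs, hs, hσs⟩)) hc

end Stellar

end Pool.Agent.Lib.MPde6cd8
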