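import Pool.Agent.Lib.MP_de6cd8_gt.Main

set_option autoImplicit false

namespace Pool.Agent.Lib.MPde6cd8

variable {F : Surf} {K : SC} {φ : QTri F → Finset (Finset (Fin F.N)) → ℕ}
  {Z : Finset (Finset (Finset (Fin F.N)))}

/-- the vertex map. -/
def VMap (φ : QTri F → Finset (Finset (Fin F.N)) → ℕ) : Prop :=
  ∀ T T' c c', IsFlag c → IsFlag c' → (φ T c = φ T' c' ↔ FlagIso T c T' c')

/-- the face description. -/
def FMap (K : SC) (φ : QTri F → Finset (Finset (Fin F.N)) → ℕ) : Prop :=
  ∀ s, s ∈ K.faces ↔ s = ∅ ∨ ∃ (T : QTri F) (Z : Finset (Finset (Finset (Fin F.N)))),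
      (∀ c ∈ Z, IsFlag c) ∧ (∀ c ∈ Z, ∀ c' ∈ Z, c ⊆ c' ∨ c' ⊆ c) ∧ s = Z.image (φ T)

theorem FMap.repr (hK : FMap K φ) (T₀ : QTri F) {s : Finset ℕ} (hs : s ∈ K.faces) :
    ∃ (T : QTri F) (Z : Finset (Finset (Finset (Fin F.N)))), IsChainF Z ∧
      s = Z.image (φ T) := by
  rcases (hK s).mp hs with rfl | ⟨T, Z, h1, h2, h3⟩
  · exact ⟨T₀, ∅, ⟨fun c hc => absurd hc (Finset.notMem_empty c),
      fun c hc => absurd hc (Finset.notMem_empty c)⟩, by simp⟩
  · exact ⟨T, Z, ⟨h1, h2⟩, h3⟩

theorem FMap.mem (hK : FMap K φ) (T : QTri F) (hZ : IsChainF Z) : Z.image (φ T) ∈ K.faces :=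
  (hK _).mpr (Or.inr ⟨T, Z, hZ.1, hZ.2, rfl⟩)

theorem VMap.inj (hφ : VMap φ) (T : QTri F) (hZ : IsChainF Z) {c c' : Finset (Finset (Fin F.N))}
    (hc : c ∈ Z) (hc' : c' ∈ Z) (h : φ T c = φ T c') : c = c' := by
  have h1 := ((hφ T T c c' (hZ.1 c hc) (hZ.1 c' hc')).mp h).card_eq
  exact hZ.ch.card_inj hc hc' h1.symm

theorem VMap.card (hφ : VMap φ) (T : QTri F) (hZ : IsChainF Z) :
    (Z.image (φ T)).card = Z.card :=
  Finset.card_image_of_injOn fun _ hc _ hc' h => hφ.inj T hZ hc hc' h

theorem VMap.congr (hφ : VMap φ) {T T' : QTri F} (hZ : IsChainF Z)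
    (hR : RestrIso T T' ((Z.sup id).sup id) Relabel.one) {c : Finset (Finset (Fin F.N))}
    (hc : c ∈ Z) : φ T c = φ T' c := by
  rw [hφ T T' c c (hZ.1 c hc) (hZ.1 c hc)]
  refine FlagIso.one (hR.restrict ?_)
  exact Finset.sup_mono (Finset.le_sup (f := id) hc)

/-- the vertices spanning a larger face with a given face. -/
theorem match_up (hφ : VMap φ) (hK : FMap K φ) (T : QTri F) (hZ : IsChainF Z) {v : ℕ} :
    v ∈ up K (Z.image (φ T)) ↔ ∃ (T' : QTri F) (c' : Finset (Finset (Fin F.N))),
      RestrIso T T' ((Z.sup id).sup id) Relabel.one ∧ c' ∉ Z ∧ IsChainF (insert c' Z) ∧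
        v = φ T' c' := by
  rw [mem_up]
  constructor
  · rintro ⟨hv, hf⟩
    obtain ⟨T₁, Z₁, hZ₁, he⟩ := hK.repr T hf
    rcases Finset.eq_empty_or_nonempty Z with rfl | hne
    · -- the empty ridge
      have h1 : v ∈ Z₁.image (φ T₁) := by rw [← he]; exact Finset.mem_insert_self _ _
      obtain ⟨c', hc', hv'⟩ := Finset.mem_image.mp h1
      refine ⟨T₁, c', ?_, Finset.notMem_empty _, ?_, hv'.symm⟩
      · rw [Finset.sup_empty]
        exact restrIso_empty
      · exact hZ₁.mono (Finset.insert_subset hc' (Finset.empty_subset _))
    · obtain ⟨t, ht⟩ : ∃ t, t = Z.sup id := ⟨_, rfl⟩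
      have htZ : t ∈ Z := by rw [ht]; exact hZ.top_mem hne
      have htF := hZ.1 t htZ
      have h1 : φ T t ∈ Z₁.image (φ T₁) := by
        rw [← he]; exact Finset.mem_insert_of_mem (Finset.mem_image_of_mem _ htZ)
      obtain ⟨t₁, ht₁, h2⟩ := Finset.mem_image.mp h1
      obtain ⟨ρ, hρ, hρt⟩ := (hφ T T₁ t t₁ htF (hZ₁.1 t₁ ht₁)).mp h2.symm
      have hR : RestrIso T (T₁.map ρ.inv) (t.sup id) Relabel.one := by
        have := hρ.trans (restrIso_map (ρ := ρ.inv))
        rwa [Relabel.inv_comp] at this
      obtain ⟨T', hT'⟩ : ∃ T', T' = T₁.map ρ.inv := ⟨_, rfl⟩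
      rw [← hT'] at hR
      have hact : ∀ c ∈ Z₁, φ T' (ρ.inv.act c) = φ T₁ c := by
        intro c hc
        have hcf := hZ₁.1 c hc
        rw [hφ T' T₁ _ _ (ρ.inv.act_flag hcf) hcf, hT']
        exact (FlagIso.map ρ.inv c).symm
      have hZ' : IsChainF (Z₁.image ρ.inv.act) := by
        constructor
        · intro c hc
          obtain ⟨c₁, hc₁, rfl⟩ := Finset.mem_image.mp hc
          exact ρ.inv.act_flag (hZ₁.1 c₁ hc₁)
        · intro c hc c' hc'
          obtain ⟨c₁, hc₁, rfl⟩ := Finset.mem_image.mp hc
          obtain ⟨c₂, hc₂, rfl⟩ := Finset.mem_image.mp hc'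
          rcases hZ₁.2 c₁ hc₁ c₂ hc₂ with h3 | h3
          · left; exact Finset.image_subset_image h3
          · right; exact Finset.image_subset_image h3
      have he' : insert v (Z.image (φ T)) = (Z₁.image ρ.inv.act).image (φ T') := by
        rw [he, Finset.image_image]
        exact Finset.image_congr (fun c hc => (hact c hc).symm)
      have htZ' : t ∈ Z₁.image ρ.inv.act := by
        refine Finset.mem_image.mpr ⟨t₁, ht₁, ?_⟩
        rw [hρt]
        exact ρ.act_inv t
      have hsub : Z ⊆ Z₁.image ρ.inv.act := by
        intro c hc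
        have hcT : φ T c = φ T' c := hφ.congr hZ (by rw [← ht]; exact hR) hc
        have h3 : φ T' c ∈ (Z₁.image ρ.inv.act).image (φ T') := by
          rw [← he', ← hcT]
          exact Finset.mem_insert_of_mem (Finset.mem_image_of_mem _ hc)
        obtain ⟨c₁, hc₁, h4⟩ := Finset.mem_image.mp h3
        have hiso := (hφ T' T' c₁ c (hZ'.1 c₁ hc₁) (hZ.1 c hc)).mp h4
        have hct : c ⊆ t := by rw [ht]; exact Finset.le_sup (f := id) hc
        have hc₁t : c₁ ⊆ t := by
          rcases hZ'.2 c₁ hc₁ t htZ' with h5 | h5
          · exact h5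
          · have h6 : t = c₁ := by
              apply Finset.eq_of_subset_of_card_le h5
              rw [← hiso.card_eq]
              exact Finset.card_le_card hct
            rw [h6]
        have : c = c₁ := htF.ch.eq_of_image hct hc₁t hiso.image_card
        rw [this]; exact hc₁
      have h3 : v ∈ (Z₁.image ρ.inv.act).image (φ T') := by
        rw [← he']; exact Finset.mem_insert_self _ _
      obtain ⟨c', hc', hv'⟩ := Finset.mem_image.mp h3
      refine ⟨T', c', by rw [← ht]; exact hR, ?_, ?_, hv'.symm⟩
      · intro hcZ
        apply hv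
        rw [← hv', ← hφ.congr hZ (by rw [← ht]; exact hR) hcZ]
        exact Finset.mem_image_of_mem _ hcZ
      · exact hZ'.mono (Finset.insert_subset hc' hsub)
  · rintro ⟨T', c', hR, hc', hch, rfl⟩
    have h1 : Z.image (φ T) = Z.image (φ T') :=
      Finset.image_congr (fun c hc => hφ.congr hZ hR hc)
    rw [h1]
    constructor
    · intro h2
      obtain ⟨c, hc, h3⟩ := Finset.mem_image.mp h2
      have := hφ.inj T' hch (Finset.mem_insert_of_mem hc) (Finset.mem_insert_self c' Z) h3
      exact hc' (this ▸ hc)
    · rw [← Finset.image_insert]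
      exact hK.mem T' hch

theorem isPM_arcComplex (hφ : VMap φ) (hK : FMap K φ) (T₀ : QTri F) {d : ℕ}
    (hN : F.N = d + 1) : IsPM d K := by
  have hcu : (Finset.univ : Finset (Fin F.N)).card = d + 1 := by
    rw [Finset.card_univ, Fintype.card_fin, hN]
  have hune : (Finset.univ : Finset (Fin F.N)).Nonempty :=
    Finset.card_pos.mp (by omega)
  rw [isPM_iff]
  constructor
  · -- purity
    intro s hs
    obtain ⟨T, Z, hZ, rfl⟩ := hK.repr T₀ hs
    obtain ⟨C, hC1, hC2, hC3⟩ := hZ.ch_univ.extend
    have hCZ : CH C Z := ⟨hZ.ch.ne, fun c hc => (hZ.ch.sub c hc).trans hC1, hZ.ch.tot⟩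
    obtain ⟨Z', h1, h2, h3⟩ := hCZ.extend
    have hZ' : IsChainF Z' := isChainF_of_ch hC2 h2
    refine ⟨Z'.image (φ T), hK.mem T hZ', Finset.image_subset_image h1, ?_⟩
    rw [hφ.card T hZ', h3, hC3, hcu]
  · -- ridges
    intro s hs hcard
    obtain ⟨T, Z, hZ, rfl⟩ := hK.repr T₀ hs
    rw [hφ.card T hZ] at hcard
    obtain ⟨t, ht⟩ : ∃ t, t = Z.sup id := ⟨_, rfl⟩
    have htu : CH Finset.univ t := by rw [ht]; exact hZ.ch_univ
    have htZ : CH t Z := by rw [ht]; exact hZ.ch
    have hmem : Z.Nonempty → t ∈ Z := by rw [ht]; exact hZ.top_mem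
    have htle := htu.card_le
    have hZle := htZ.card_le
    rw [hcu] at htle
    have hup : ∀ v, v ∈ up K (Z.image (φ T)) ↔ ∃ (T' : QTri F)
        (c' : Finset (Finset (Fin F.N))), RestrIso T T' (t.sup id) Relabel.one ∧ c' ∉ Z ∧
          IsChainF (insert c' Z) ∧ v = φ T' c' := by
      intro v
      rw [ht]
      exact match_up hφ hK T hZ
    have hrefl : ∀ S, RestrIso T T S Relabel.one := fun S => RestrIso.refl
    rcases Nat.lt_or_ge t.card (d + 1) with hlt | hge
    · -- the top flag has `d` members
      have htd : t.card = d := by omega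
      have hset : ∀ c', (c' ∉ Z ∧ IsChainF (insert c' Z)) ↔
          ∃ W, W ∉ t ∧ CH Finset.univ (insert W t) ∧ c' = insert W t := by
        intro c'
        constructor
        · rintro ⟨h1, h2⟩
          have h3 : ¬ c' ⊆ t := by
            intro h4
            have h5 : CH t (insert c' Z) := by
              refine ⟨h2.ch.ne, ?_, h2.ch.tot⟩
              intro S hS
              rcases Finset.mem_insert.mp hS with h6 | h6
              · rw [h6]; exact h4
              · exact htZ.sub S h6
            have h6 := h5.card_le
            rw [Finset.card_insert_of_notMem h1] at h6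
            omega
          have h4 : t ⊆ c' := by
            rcases Finset.eq_empty_or_nonempty Z with h5 | h5
            · rw [ht, h5, Finset.sup_empty]; exact Finset.empty_subset _
            · rcases h2.2 c' (Finset.mem_insert_self _ _) t
                (Finset.mem_insert_of_mem (hmem h5)) with h6 | h6
              · exact absurd h6 h3
              · exact h6
          have hcf := (h2.1 c' (Finset.mem_insert_self _ _)).ch
          have h5 : (c' \ t).Nonempty := by
            rw [Finset.nonempty_iff_ne_empty]
            intro h6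
            exact h3 (Finset.sdiff_eq_empty_iff_subset.mp h6)
          have h6 : (c' \ t).card = 1 := by
            have h7 := hcf.card_le
            rw [hcu] at h7
            have h8 := Finset.card_sdiff_of_subset h4
            have h9 := Finset.card_pos.mpr h5
            omega
          obtain ⟨W, hW⟩ := Finset.card_eq_one.mp h6
          have hWm : W ∈ c' \ t := by rw [hW]; exact Finset.mem_singleton_self W
          rw [Finset.mem_sdiff] at hWm
          have h7 : c' = insert W t := by
            rw [← Finset.sdiff_union_of_subset h4, hW, Finset.singleton_union]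
          exact ⟨W, hWm.2, h7 ▸ hcf, h7⟩
        · rintro ⟨W, h1, h2, rfl⟩
          constructor
          · intro h3
            exact h1 (htZ.sub _ h3 (Finset.mem_insert_self W t))
          · constructor
            · intro c hc
              rcases Finset.mem_insert.mp hc with h3 | h3
              · rw [h3]; exact h2.flag (Finset.insert_nonempty W t)
              · exact hZ.1 c h3
            · have h5 : ∀ c ∈ Z, c ⊆ insert W t := fun c hc =>
                (htZ.sub c hc).trans (Finset.subset_insert W t)
              intro c hc c' hc'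
              rcases Finset.mem_insert.mp hc with h3 | h3 <;>
                rcases Finset.mem_insert.mp hc' with h4 | h4
              · left; rw [h3, h4]
              · right; rw [h3]; exact h5 c' h4
              · left; rw [h4]; exact h5 c h3
              · exact hZ.2 c h3 c' h4
      have hup2 : ∀ v, v ∈ up K (Z.image (φ T)) ↔ ∃ (T' : QTri F) (W : Finset (Fin F.N)),
          RestrIso T T' (t.sup id) Relabel.one ∧ W ∉ t ∧ CH Finset.univ (insert W t) ∧
            v = φ T' (insert W t) := by
        intro v
        rw [hup v]
        constructor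
        · rintro ⟨T', c', h1, h2, h3, rfl⟩
          obtain ⟨W, h4, h5, rfl⟩ := (hset c').mp ⟨h2, h3⟩
          exact ⟨T', W, h1, h4, h5, rfl⟩
        · rintro ⟨T', W, h1, h2, h3, rfl⟩
          obtain ⟨h4, h5⟩ := (hset _).mpr ⟨W, h2, h3, rfl⟩
          exact ⟨T', _, h1, h4, h5, rfl⟩
      by_cases huniv : Finset.univ ∈ t
      · -- the top flag contains the maximal arc family
        have hsup : t.sup id = Finset.univ := by
          apply le_antisymm (Finset.subset_univ _)
          exact Finset.le_sup (f := id) huniv
        obtain ⟨W₁, W₂, hne, hW₁, hW₂, hC₁, hC₂, honly⟩ := htu.two (by rw [htd, hcu]) huniv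
        have hup3 : up K (Z.image (φ T)) = {φ T (insert W₁ t), φ T (insert W₂ t)} := by
          ext v
          rw [hup2, Finset.mem_insert, Finset.mem_singleton]
          constructor
          · rintro ⟨T', W, h1, h2, h3, rfl⟩
            rw [hsup] at h1
            have h4 := h1.eq_of_univ
            subst h4
            rcases honly W h2 h3 with rfl | rfl
            · left; rfl
            · right; rfl
          · rintro (rfl | rfl)
            · exact ⟨T, W₁, hrefl _, hW₁, hC₁, rfl⟩
            · exact ⟨T, W₂, hrefl _, hW₂, hC₂, rfl⟩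
        rw [hup3, Finset.card_pair]
        intro h1
        obtain ⟨ρ, h2, h3⟩ := (hφ T T _ _ (hC₁.flag (Finset.insert_nonempty _ _))
          (hC₂.flag (Finset.insert_nonempty _ _))).mp h1
        have h4 : (insert W₁ t).sup id = Finset.univ := by
          apply le_antisymm (Finset.subset_univ _)
          exact Finset.le_sup (f := id) (Finset.mem_insert_of_mem huniv)
        rw [h4] at h2
        have himg : (Finset.univ : Finset (Fin F.N)).image ρ.perm = Finset.univ :=
          Finset.image_univ_equiv ρ.perm
        have h5 := (hrefl Finset.univ).rigid h2 himg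
        have h6 : ρ.perm = 1 := by
          ext b
          have h7 := h5 (Sum.inl (b, true)) (Finset.mem_univ b)
          have h8 : (ρ.perm b, xor (ρ.flip b) true) = (b, true) := Sum.inl_injective h7
          rw [(Prod.mk.inj h8).1]; rfl
        have h7 : insert W₂ t = insert W₁ t := by
          rw [h3, h6]
          have := Relabel.act_one (F := F) (insert W₁ t)
          exact this
        have h8 : W₂ ∈ insert W₁ t := by rw [← h7]; exact Finset.mem_insert_self _ _
        rcases Finset.mem_insert.mp h8 with h9 | h9
        · exact hne h9.symm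
        · exact hW₂ h9
      · -- the top flag ends with a codimension one arc family
        obtain ⟨S, hS⟩ : ∃ S, S = t.sup id := ⟨_, rfl⟩
        have hStop : t.Nonempty → S ∈ t := by
          intro hne
          obtain ⟨m, hm, hmax⟩ := Finset.exists_max_image t Finset.card hne
          have : S = m := by
            rw [hS]
            apply le_antisymm
            · apply Finset.sup_le
              intro c hc
              exact htu.sub_of_card hc hm (hmax c hc)
            · exact Finset.le_sup (f := id) hm
          rwa [this]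
        have hSt : CH S t := ⟨htu.ne, fun c hc => by
          rw [hS]; exact Finset.le_sup (f := id) hc, htu.tot⟩
        have h1 := hSt.card_le
        have hSne : S ≠ Finset.univ := by
          intro h2
          rcases Finset.eq_empty_or_nonempty t with h3 | h3
          · rw [h3, Finset.sup_empty] at hS
            rw [hS] at h2
            exact hune.ne_empty h2.symm
          · exact huniv (h2 ▸ hStop h3)
        have hSlt : S.card < d + 1 := by
          rw [← hcu]
          exact Finset.card_lt_card (Finset.ssubset_univ_iff.mpr hSne)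
        have hSc : (Finset.univ \ S).card = 1 := by
          rw [Finset.card_sdiff_of_subset (Finset.subset_univ S), hcu]; omega
        obtain ⟨a, ha⟩ := Finset.card_eq_one.mp hSc
        have hSa : S = Finset.univ.erase a := by
          rw [← Finset.sdiff_singleton_eq_erase, ← ha, Finset.sdiff_sdiff_eq_self
            (Finset.subset_univ S)]
        obtain ⟨Tf, hf1, hf2, hf3⟩ := exists_flip T a
        have hWu : ∀ W, W ∉ t → CH Finset.univ (insert W t) → W = Finset.univ :=
          fun W hW hCW => htu.one (by rw [htd, hcu]) huniv hW hCW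
        have hCu : CH Finset.univ (insert Finset.univ t) := htu.insert_top hune
        have hFu : IsFlag (insert Finset.univ t) := hCu.flag (Finset.insert_nonempty _ _)
        have hsa : t.sup id = Finset.univ.erase a := by rw [← hS, hSa]
        have hswap : ∀ T₁ : QTri F, φ (T₁.map (Relabel.flipOne a)) (insert Finset.univ t) =
            φ T₁ (insert Finset.univ t) := by
          intro T₁
          rw [hφ _ _ _ _ hFu hFu]
          have h2 := FlagIso.map (T := T₁) (Relabel.flipOne a) (insert Finset.univ t)
          have h3 : (Relabel.flipOne a).act (insert Finset.univ t) = insert Finset.univ t :=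
            Relabel.act_one _
          rw [h3] at h2
          exact h2.symm
        have hup3 : up K (Z.image (φ T)) =
            {φ T (insert Finset.univ t), φ Tf (insert Finset.univ t)} := by
          ext v
          rw [hup2, Finset.mem_insert, Finset.mem_singleton, hsa]
          constructor
          · rintro ⟨T', W, h1, h2, h3, rfl⟩
            have hW := hWu W h2 h3
            subst hW
            rcases hf3 T' h1 with rfl | rfl | rfl | rfl
            · left; rfl
            · right; rfl
            · left; exact hswap T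
            · right; exact hswap Tf
          · rintro (rfl | rfl)
            · exact ⟨T, Finset.univ, hrefl _, huniv, hCu, rfl⟩
            · exact ⟨Tf, Finset.univ, hf1, huniv, hCu, rfl⟩
        rw [hup3, Finset.card_pair]
        intro h1
        obtain ⟨ρ, h2, h3⟩ := (hφ T Tf _ _ hFu hFu).mp h1
        have h4 : (insert Finset.univ t).sup id = Finset.univ := by
          apply le_antisymm (Finset.subset_univ _)
          exact Finset.le_sup (f := id) (Finset.mem_insert_self _ _)
        rw [h4] at h2
        have h5 : ρ.perm = 1 := perm_eq_one hCu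
          (by rw [Finset.card_insert_of_notMem huniv, htd, hcu]) h3
        exact hf2 ρ h5 h2
    · -- the top flag is complete
      have htd : t.card = d + 1 := by omega
      have htne : t.Nonempty := Finset.card_pos.mp (by omega)
      have hZne : Z.Nonempty := by
        rw [Finset.nonempty_iff_ne_empty]
        rintro rfl
        rw [Finset.sup_empty] at ht
        rw [ht] at htne
        exact Finset.not_nonempty_empty htne
      have huniv : Finset.univ ∈ t := htu.top_mem (by rw [htd, hcu]) hune
      have hsup : t.sup id = Finset.univ := by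
        apply le_antisymm (Finset.subset_univ _)
        exact Finset.le_sup (f := id) huniv
      obtain ⟨W₁, W₂, hne, hW₁, hW₂, hC₁, hC₂, honly⟩ :=
        htZ.two (by rw [hcard, htd]) (hmem hZne)
      have hup3 : up K (Z.image (φ T)) = {φ T W₁, φ T W₂} := by
        ext v
        rw [hup, Finset.mem_insert, Finset.mem_singleton, hsup]
        constructor
        · rintro ⟨T', c', h1, h2, h3, rfl⟩
          have h4 := h1.eq_of_univ
          subst h4
          have h5 : c' ⊆ t := by
            rcases h3.2 c' (Finset.mem_insert_self _ _) t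
              (Finset.mem_insert_of_mem (hmem hZne)) with h6 | h6
            · exact h6
            · have h7 := (h3.1 c' (Finset.mem_insert_self _ _)).ch.card_le
              rw [hcu, ← htd] at h7
              rw [Finset.eq_of_subset_of_card_le h6 h7]
          have h6 : CH t (insert c' Z) := by
            refine ⟨h3.ch.ne, ?_, h3.ch.tot⟩
            intro S hS
            rcases Finset.mem_insert.mp hS with h7 | h7
            · rw [h7]; exact h5
            · exact htZ.sub S h7
          rcases honly c' h2 h6 with rfl | rfl
          · left; rfl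
          · right; rfl
        · rintro (rfl | rfl)
          · exact ⟨T, W₁, hrefl _, hW₁, isChainF_of_ch htu hC₁, rfl⟩
          · exact ⟨T, W₂, hrefl _, hW₂, isChainF_of_ch htu hC₂, rfl⟩
      rw [hup3, Finset.card_pair]
      intro h1
      have s1 : W₁ ⊆ t := hC₁.sub W₁ (Finset.mem_insert_self _ _)
      have s2 : W₂ ⊆ t := hC₂.sub W₂ (Finset.mem_insert_self _ _)
      have f1 : IsFlag W₁ := (isChainF_of_ch htu hC₁).1 W₁ (Finset.mem_insert_self _ _)
      have f2 : IsFlag W₂ := (isChainF_of_ch htu hC₂).1 W₂ (Finset.mem_insert_self _ _)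
      have h2 := (hφ T T W₁ W₂ f1 f2).mp h1
      exact hne (htu.eq_of_image s1 s2 h2.image_card.symm)

/-- the empty complex is invariant under PL equivalence. -/
theorem plEquiv_empty {K L : SC} (h : PLEquiv K L) : K.faces = {∅} ↔ L.faces = {∅} := by
  induction h with
  | refl K => exact Iff.rfl
  | symm _ ih => exact ih.symm
  | trans _ _ ih1 ih2 => exact ih1.trans ih2
  | iso f hf h =>
    rename_i K L
    rw [h]
    constructor
    · intro h1; rw [h1]; simp
    · intro h1
      ext s
      rw [Finset.mem_singleton]
      constructor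
      · intro hs
        have h2 : s.image f ∈ K.faces.image (Finset.image f) := Finset.mem_image_of_mem _ hs
        rw [h1, Finset.mem_singleton] at h2
        exact Finset.image_eq_empty.mp h2
      · rintro rfl; exact K.empty_mem
  | stellar K σ a hσ hne ha =>
    constructor
    · intro h1
      rw [h1, Finset.mem_singleton] at hσ
      exact absurd hσ hne
    · intro h1
      exfalso
      have h2 : insert a ∅ ∈ (K.stellar σ a hσ hne ha).faces := by
        show insert a ∅ ∈ K.faces.filter (fun s => ¬ σ ⊆ s) ∪
          (K.faces.filter (fun s => ¬ σ ⊆ s ∧ s ∪ σ ∈ K.faces)).image (insert a)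
        rw [Finset.mem_union]
        right
        refine Finset.mem_image_of_mem _ ?_
        rw [Finset.mem_filter, Finset.empty_union]
        exact ⟨K.empty_mem, fun h3 => hne (Finset.subset_empty.mp h3), hσ⟩
      rw [h1, Finset.mem_singleton] at h2
      exact Finset.insert_ne_empty a ∅ h2

/-- nonempty quotient arc complexes are closed pseudomanifolds and of finite type. -/
theorem arcComplex_isType {F : Surf} {K : SC} (h : IsArcComplex F K) (hv : ∃ v, K.IsVertex v) :
    ∃ d, d + 1 = F.N ∧ IsPM d K ∧ ∃ n ≤ d + 2, IsType TypeOne n K := by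
  obtain ⟨φ, hφ, hK⟩ := h
  by_cases hN : Nonempty (QTri F) ∧ F.N ≠ 0
  · obtain ⟨⟨T₀⟩, hN⟩ := hN
    obtain ⟨d, hd⟩ := Nat.exists_eq_succ_of_ne_zero hN
    have hPM := isPM_arcComplex hφ hK T₀ hd
    exact ⟨d, hd.symm, hPM, isPM_isType TypeOne hPM⟩
  · exfalso
    have hempty : K.faces = {∅} := by
      ext s
      rw [Finset.mem_singleton]
      constructor
      · intro hs
        rcases (hK s).mp hs with h1 | ⟨T, Z, h1, h2, h3⟩
        · exact h1
        · have hN0 : F.N = 0 := by
            by_contra h4
            exact hN ⟨⟨T⟩, h4⟩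
          have hZ : Z = ∅ := by
            rw [Finset.eq_empty_iff_forall_notMem]
            intro c hc
            obtain ⟨⟨S, hS⟩, h5, -⟩ := h1 c hc
            obtain ⟨b, -⟩ := h5 S hS
            have := b.isLt
            omega
          rw [h3, hZ, Finset.image_empty]
      · rintro rfl; exact K.empty_mem
    obtain ⟨v, hv⟩ := hv
    unfold SC.IsVertex at hv
    rw [hempty, Finset.mem_singleton] at hv
    exact Finset.singleton_ne_empty v hv

end Pool.Agent.Lib.MPde6cd8
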